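import Pool.Agent.Helper71.LR.Cod

/-!
# Subgroups of a free group on a well-ordered set are free: an explicit basis
-/

set_option autoImplicit false

namespace Pool.Agent.Helper71.LR

section bas

variable {G : Type} [AddCommGroup G] (φ : G →+ Fr) (H : AddSubgroup G) {α : Type 1}
  [LinearOrder α] (f : G → α)

open Classical in
/-- The key of a point. -/
noncomputable def basKey (s : ℕ → ℕ) : α ×ₗ Lex (ℕ → ℕ) :=
  toLex (if h : ∃ h, Mn φ H f s h then f h.choose else f 0, toLex s)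

variable {φ H f}

theorem bas_mn_exists [WellFoundedLT α] {s : ℕ → ℕ} {h : G} (hh : h ∈ H) (hs : φ h s ≠ 0) :
    ∃ h, Mn φ H f s h := by
  obtain ⟨a, ⟨b, hb, hbs, rfl⟩, hmin⟩ := wellFounded_lt.has_min
    {a : α | ∃ h ∈ H, φ h s ≠ 0 ∧ f h = a} ⟨f h, h, hh, hs, rfl⟩
  exact ⟨b, hb, hbs, fun h' hh' hs' => not_lt.1 (hmin _ ⟨h', hh', hs', rfl⟩)⟩

theorem bas_mn_unique {s : ℕ → ℕ} {h h' : G} (h1 : Mn φ H f s h) (h2 : Mn φ H f s h') :
    f h = f h' :=
  le_antisymm (h1.2.2 _ h2.1 h2.2.1) (h2.2.2 _ h1.1 h1.2.1)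

theorem bas_key_eq {s : ℕ → ℕ} {h : G} (h1 : Mn φ H f s h) :
    basKey φ H f s = toLex (f h, toLex s) := by
  have : ∃ h, Mn φ H f s h := ⟨h, h1⟩
  unfold basKey
  rw [dif_pos this, bas_mn_unique this.choose_spec h1]

theorem bas_lex {x y : ℕ → ℕ} : lexlt x y ↔ toLex x < toLex y := Iff.rfl

theorem bas_ltp_iff {s' s : ℕ → ℕ} : Ltp φ H f s' s ↔
    (∃ h, Mn φ H f s' h) ∧ (∃ h, Mn φ H f s h) ∧ basKey φ H f s' < basKey φ H f s := by
  constructor
  · rintro ⟨h', h, h1, h2, h3⟩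
    refine ⟨⟨h', h1⟩, ⟨h, h2⟩, ?_⟩
    rw [bas_key_eq h1, bas_key_eq h2, Prod.Lex.toLex_lt_toLex]
    exact h3
  · rintro ⟨⟨h', h1⟩, ⟨h, h2⟩, h3⟩
    refine ⟨h', h, h1, h2, ?_⟩
    rw [bas_key_eq h1, bas_key_eq h2, Prod.Lex.toLex_lt_toLex] at h3
    exact h3

theorem bas_key_inj {s s' : ℕ → ℕ} (h : basKey φ H f s = basKey φ H f s') : s = s' := by
  unfold basKey at h
  have := congrArg (fun t => (ofLex t).2) h
  simpa using this

theorem bas_ltp_asymm {s s' : ℕ → ℕ} (h1 : Ltp φ H f s s') (h2 : Ltp φ H f s' s) : False :=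
  lt_asymm (bas_ltp_iff.1 h1).2.2 (bas_ltp_iff.1 h2).2.2

theorem bas_ltp_irrefl {s : ℕ → ℕ} (h1 : Ltp φ H f s s) : False := bas_ltp_asymm h1 h1

theorem bas_ltp_wf [WellFoundedLT α] (hf : Set.InjOn f (H : Set G)) :
    WellFounded (Ltp φ H f) := by
  rw [WellFounded.wellFounded_iff_has_min]
  intro A hA
  by_cases hP : ∃ s ∈ A, ¬ ∃ h, Mn φ H f s h
  · obtain ⟨s, hs, hsP⟩ := hP
    exact ⟨s, hs, fun x _ hx => hsP (bas_ltp_iff.1 hx).2.1⟩
  · push Not at hP
    obtain ⟨s0, hs0⟩ := hA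
    obtain ⟨h0, hh0⟩ := hP s0 hs0
    obtain ⟨a, ⟨s1, hs1, h1, hh1, rfl⟩, hmin⟩ := wellFounded_lt.has_min
      {a : α | ∃ s ∈ A, ∃ h, Mn φ H f s h ∧ f h = a} ⟨f h0, s0, hs0, h0, hh0, rfl⟩
    have hfin : {s : ℕ → ℕ | s ∈ A ∧ Mn φ H f s h1}.Finite := by
      refine Set.Finite.subset (φ h1).support.finite_toSet ?_
      rintro s ⟨_, hs⟩
      simpa using hs.2.1
    obtain ⟨s, ⟨hsA, hsM⟩, hs⟩ := Set.exists_min_image
      {s : ℕ → ℕ | s ∈ A ∧ Mn φ H f s h1} (fun s => toLex s) hfin ⟨s1, hs1, hh1⟩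
    refine ⟨s, hsA, fun x hxA hx => ?_⟩
    obtain ⟨h', h, hx1, hx2, hx3⟩ := hx
    have e1 : f h = f h1 := bas_mn_unique hx2 hsM
    rcases hx3 with hx3 | ⟨hx3, hx4⟩
    · rw [e1] at hx3
      exact hmin _ ⟨x, hxA, h', hx1, rfl⟩ hx3
    · have : Mn φ H f x h1 := by
        have e2 : h' = h1 := hf hx1.1 hsM.1 (hx3.trans e1)
        rw [← e2]
        exact hx1
      exact absurd (hs x ⟨hxA, this⟩) (not_le.2 hx4)

theorem bas_ldp_exists [WellFoundedLT α] {h : G} (hh : h ∈ H) (h0 : φ h ≠ 0) :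
    ∃ s, Ldp φ H f h s := by
  obtain ⟨s, hs, hmax⟩ := Finset.exists_max_image (φ h).support (basKey φ H f)
    (Finsupp.support_nonempty_iff.2 h0)
  rw [Finsupp.mem_support_iff] at hs
  refine ⟨s, hs, fun s' hs' => ?_⟩
  have h1 := hmax s' (Finsupp.mem_support_iff.2 hs')
  rcases h1.lt_or_eq with h2 | h2
  · exact Or.inr (bas_ltp_iff.2 ⟨bas_mn_exists hh hs', bas_mn_exists hh hs, h2⟩)
  · exact Or.inl (bas_key_inj h2)

theorem bas_ldp_unique {h : G} {s s' : ℕ → ℕ} (h1 : Ldp φ H f h s) (h2 : Ldp φ H f h s') :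
    s = s' := by
  rcases h1.2 s' h2.1 with h3 | h3
  · exact h3.symm
  · rcases h2.2 s h1.1 with h4 | h4
    · exact h4
    · exact (bas_ltp_asymm h3 h4).elim

/-- the element `b` is the chosen element with the last point `s` -/
def BasCh (φ : G →+ Fr) (H : AddSubgroup G) (f : G → α) (s : ℕ → ℕ) (b : G) : Prop :=
  Ldp φ H f b s ∧ 0 < φ b s ∧
    ∀ h ∈ H, Ldp φ H f h s → 0 < φ h s → φ b s < φ h s ∨ (φ b s = φ h s ∧ f b ≤ f h)

theorem bas_mem {b : G} : b ∈ Bsis φ H f ↔ b ∈ H ∧ ∃ s, BasCh φ H f s b := Iff.rfl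

theorem bas_ldp_neg {h : G} {s : ℕ → ℕ} (h1 : Ldp φ H f h s) : Ldp φ H f (-h) s := by
  refine ⟨?_, fun s' hs' => h1.2 s' ?_⟩
  · rw [map_neg, Finsupp.neg_apply]
    exact neg_ne_zero.2 h1.1
  · rw [map_neg, Finsupp.neg_apply] at hs'
    exact neg_ne_zero.1 hs'

theorem bas_ch_exists [WellFoundedLT α] {h : G} (hh : h ∈ H) {s : ℕ → ℕ}
    (h1 : Ldp φ H f h s) : ∃ b ∈ H, BasCh φ H f s b := by
  obtain ⟨h', hh', h1', hpos⟩ : ∃ h' ∈ H, Ldp φ H f h' s ∧ 0 < φ h' s := by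
    rcases lt_or_gt_of_ne h1.1 with h2 | h2
    · refine ⟨-h, H.neg_mem hh, bas_ldp_neg h1, ?_⟩
      rw [map_neg, Finsupp.neg_apply]
      omega
    · exact ⟨h, hh, h1, h2⟩
  obtain ⟨p, ⟨b, hbH, hb1, hb2, rfl⟩, hmin⟩ := wellFounded_lt.has_min
    {p : ℕ ×ₗ α | ∃ h ∈ H, Ldp φ H f h s ∧ 0 < φ h s ∧ toLex ((φ h s).toNat, f h) = p}
    ⟨_, h', hh', h1', hpos, rfl⟩
  refine ⟨b, hbH, hb1, hb2, fun h hh h2 h3 => ?_⟩
  have h4 := hmin _ ⟨h, hh, h2, h3, rfl⟩
  rw [Prod.Lex.toLex_lt_toLex] at h4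
  push Not at h4
  simp only at h4
  rcases lt_trichotomy (φ b s) (φ h s) with h5 | h5 | h5
  · exact Or.inl h5
  · exact Or.inr ⟨h5, h4.2 (by rw [h5])⟩
  · have := h4.1
    omega

theorem bas_ch_unique (hf : Set.InjOn f (H : Set G)) {s : ℕ → ℕ} {b b' : G} (hb : b ∈ H)
    (hb' : b' ∈ H) (h1 : BasCh φ H f s b) (h2 : BasCh φ H f s b') : b = b' := by
  have h3 := h1.2.2 b' hb' h2.1 h2.2.1
  have h4 := h2.2.2 b hb h1.1 h1.2.1
  apply hf hb hb'
  rcases h3 with h3 | h3 <;> rcases h4 with h4 | h4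
  · omega
  · omega
  · omega
  · exact le_antisymm h3.2 h4.2

theorem bas_gen [WellFoundedLT α] (hφ : Function.Injective φ) (hf : Set.InjOn f (H : Set G))
    (s : ℕ → ℕ) : ∀ h ∈ H, Ldp φ H f h s → h ∈ AddSubgroup.closure (Bsis φ H f) := by
  induction s using (bas_ltp_wf (φ := φ) hf).induction with
  | _ s ih =>
    intro h hh h1
    obtain ⟨b, hbH, hb⟩ := bas_ch_exists hh h1
    have hbB : b ∈ AddSubgroup.closure (Bsis φ H f) :=
      AddSubgroup.subset_closure ⟨hbH, s, hb⟩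
    set k : ℤ := φ h s / φ b s with hk
    set r : G := h - k • b with hr
    have hrH : r ∈ H := H.sub_mem hh (H.zsmul_mem hbH k)
    have hval : ∀ t, φ r t = φ h t - k * φ b t := by
      intro t
      rw [hr, map_sub, map_zsmul, Finsupp.sub_apply, Finsupp.smul_apply, smul_eq_mul]
    have hrs : φ r s = φ h s % φ b s := by
      rw [hval, hk, Int.emod_def, mul_comm]
    have hsup : ∀ t, φ r t ≠ 0 → t = s ∨ Ltp φ H f t s := by
      intro t ht
      by_cases h2 : φ h t = 0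
      · have h3 : φ b t ≠ 0 := by
          intro h3
          rw [hval, h2, h3] at ht
          simp at ht
        exact hb.1.2 t h3
      · exact h1.2 t h2
    have hrs0 : φ r s = 0 := by
      by_contra h2
      have h3 : Ldp φ H f r s := ⟨h2, hsup⟩
      have h4 : 0 ≤ φ r s := by rw [hrs]; exact Int.emod_nonneg _ hb.2.1.ne'
      have h5 : φ r s < φ b s := by rw [hrs]; exact Int.emod_lt_of_pos _ hb.2.1
      rcases hb.2.2 r hrH h3 (lt_of_le_of_ne h4 (Ne.symm h2)) with h6 | h6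
      · omega
      · omega
    have hrC : r ∈ AddSubgroup.closure (Bsis φ H f) := by
      by_cases h2 : φ r = 0
      · have h3 : r = 0 := hφ (by rw [h2, map_zero])
        rw [h3]
        exact AddSubgroup.zero_mem _
      · obtain ⟨t, ht⟩ := bas_ldp_exists (f := f) hrH h2
        rcases hsup t ht.1 with h3 | h3
        · exact absurd (h3 ▸ hrs0) ht.1
        · exact ih t h3 r hrH ht
    have : h = r + k • b := by rw [hr]; abel
    rw [this]
    exact AddSubgroup.add_mem _ hrC (AddSubgroup.zsmul_mem _ hbB k)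

end bas

/-- **The basis of a well-ordered subgroup.** -/
theorem bsis_basis {G : Type} [AddCommGroup G] (φ : G →+ Fr) (hφ : Function.Injective φ)
    (H : AddSubgroup G) {α : Type 1} [LinearOrder α] [WellFoundedLT α] (f : G → α)
    (hf : Set.InjOn f (H : Set G)) :
    LinearIndependent ℤ (fun b : Bsis φ H f => (b.1 : G)) ∧
      AddSubgroup.closure (Bsis φ H f) = H := by
  constructor
  · rw [linearIndependent_iff']
    intro t g hg
    by_contra hcon
    push Not at hcon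
    obtain ⟨i1, hi1, hgi1⟩ := hcon
    have hlp : ∀ b : Bsis φ H f, ∃ s, BasCh φ H f s b.1 := fun b => b.2.2
    choose lp hlp using hlp
    obtain ⟨i0, hi0, hmax⟩ := Finset.exists_max_image (t.filter fun i => g i ≠ 0)
      (fun i => basKey φ H f (lp i)) ⟨i1, Finset.mem_filter.2 ⟨hi1, hgi1⟩⟩
    rw [Finset.mem_filter] at hi0
    have h1 : φ (∑ i ∈ t, g i • (i : G)) (lp i0) = g i0 * φ (i0 : G) (lp i0) := by
      rw [map_sum, Finsupp.finsetSum_apply, Finset.sum_eq_single i0]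
      · rw [map_zsmul, Finsupp.smul_apply, smul_eq_mul]
      · intro i hi hne
        rw [map_zsmul, Finsupp.smul_apply, smul_eq_mul]
        by_cases hgi : g i = 0
        · rw [hgi, zero_mul]
        · have h2 := hmax i (Finset.mem_filter.2 ⟨hi, hgi⟩)
          have h3 : φ (i : G) (lp i0) = 0 := by
            by_contra h3
            rcases (hlp i).1.2 (lp i0) h3 with h4 | h4
            · apply hne
              apply Subtype.ext
              have h5 := hlp i0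
              rw [h4] at h5
              exact bas_ch_unique hf i.2.1 i0.2.1 (hlp i) h5
            · exact absurd (bas_ltp_iff.1 h4).2.2 (not_lt.2 h2)
          rw [h3, mul_zero]
      · intro h; exact absurd hi0.1 h
    rw [hg, map_zero, Finsupp.zero_apply] at h1
    rcases mul_eq_zero.1 h1.symm with h2 | h2
    · exact hi0.2 h2
    · exact (hlp i0).2.1.ne' h2
  · apply le_antisymm
    · rw [AddSubgroup.closure_le]
      exact fun b hb => hb.1
    · intro h hh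
      by_cases h0 : φ h = 0
      · have : h = 0 := hφ (by rw [h0, map_zero])
        rw [this]
        exact AddSubgroup.zero_mem _
      · obtain ⟨s, hs⟩ := bas_ldp_exists (f := f) hh h0
        exact bas_gen hφ hf s h hh hs

end Pool.Agent.Helper71.LR
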