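import Pool.Agent.Helper71.LR.Cod1

/-!
# The bijection between the reals of `S` and the group `G0 S`

The facts about the coding that are proved in `Cod1` enter as hypotheses of the auxiliary theorem
`cod2_exists_equiv`.
-/

set_option autoImplicit false

namespace Pool.Agent.Helper71.LR

lemma cod2_cns_sh (x : ℕ → ℕ) : cns (x 0) (sh x) = x := by
  funext n
  cases n with
  | zero => rfl
  | succ n => rfl

lemma cod2_sh_cns (a : ℕ) (x : ℕ → ℕ) : sh (cns a x) = x := rfl

lemma cod2_cns_zero (a : ℕ) (x : ℕ → ℕ) : cns a x 0 = a := rfl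

lemma cod2_ext {x y : ℕ → ℕ} (h0 : x 0 = y 0) (h : sh x = sh y) : x = y := by
  rw [← cod2_cns_sh x, ← cod2_cns_sh y, h0, h]

lemma cod2_single_mem {S : Set (ℕ → ℕ)} {y : ℕ → ℕ} (hy : y ∈ S) :
    (Finsupp.single y 2 : Fr) ∈ G0 S := by
  refine AddSubgroup.subset_closure ⟨y, hy, y, hy, ⟨0, fun n _ => rfl⟩, ?_⟩
  rw [← Finsupp.single_add]
  norm_num

theorem cod2_exists_equiv {S : Set (ℕ → ℕ)} (hS : Cls S)
    (evl_inj : Function.Injective evl)
    (k1 : ∀ {x t : ℕ → ℕ}, K1 x t ↔ dc t = evl (Finsupp.single x 2))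
    (sinj : ∀ {x y : ℕ → ℕ}, (Finsupp.single x 2 : Fr) = Finsupp.single y 2 → x = y)
    (k7 : ∀ t : ℕ → ℕ, (∃ w ∈ S, K7 t w) ↔ ∃ g ∈ G0 S, dc t = evl g)
    (cmem : ∀ {g : Fr}, g ∈ G0 S → cd (evl g) ∈ S)
    (dccd : ∀ f : ℕ → ℤ, dc (cd f) = f) (cddc : ∀ c : ℕ → ℕ, cd (dc c) = c) :
    ∃ e : S ≃ G0 S, ∀ (x : S) (c : ℕ → ℕ), c ∈ S →
      (dc c = evl ((e x : G0 S) : Fr) ↔ GrF S x c) := by
  classical
  have dcinj : ∀ {a b : ℕ → ℕ}, dc a = dc b → a = b := fun {a b} h => by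
    rw [← cddc a, ← cddc b, h]
  have hgg : ∀ t : ℕ → ℕ, ∃ g : Fr, g ∈ G0 S ∧ (Qr S t → dc t = evl g) := by
    intro t
    by_cases h : Qr S t
    · obtain ⟨g, hg, hg'⟩ := (k7 t).1 h.1
      exact ⟨g, hg, fun _ => hg'⟩
    · exact ⟨0, (G0 S).zero_mem, fun h' => absurd h' h⟩
  choose gg hgm hge using hgg
  let F : (ℕ → ℕ) → Fr := fun x =>
    if Qr S (sh x) then
      (if x 0 = 0 then gg (sh x) else Finsupp.single (cns (x 0 - 1) (sh x)) 2)
    else Finsupp.single x 2
  have F1 : ∀ {x : ℕ → ℕ}, ¬ Qr S (sh x) → F x = Finsupp.single x 2 := fun {x} h => by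
    simp only [F, if_neg h]
  have F2 : ∀ {x : ℕ → ℕ}, Qr S (sh x) → x 0 = 0 → F x = gg (sh x) := fun {x} h h0 => by
    simp only [F, if_pos h, if_pos h0]
  have F3 : ∀ {x : ℕ → ℕ}, Qr S (sh x) → x 0 ≠ 0 →
      F x = Finsupp.single (cns (x 0 - 1) (sh x)) 2 := fun {x} h h0 => by
    simp only [F, if_pos h, if_neg h0]
  have Fm : ∀ x ∈ S, F x ∈ G0 S := by
    intro x hx
    by_cases h : Qr S (sh x)
    · by_cases h0 : x 0 = 0
      · rw [F2 h h0]; exact hgm _
      · rw [F3 h h0]; exact cod2_single_mem (hS.cns _ _ (hS.sh x hx))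
    · rw [F1 h]; exact cod2_single_mem hx
  have nog : ∀ {x y : ℕ → ℕ}, Qr S (sh x) → y ∈ S → gg (sh x) ≠ Finsupp.single y 2 := by
    intro x y h hy he
    exact h.2 ⟨y, hy, k1.2 (by rw [hge _ h, he])⟩
  have Finj : ∀ x ∈ S, ∀ y ∈ S, F x = F y → x = y := by
    intro x hx y hy he
    by_cases h : Qr S (sh x)
    · by_cases h0 : x 0 = 0
      · by_cases h' : Qr S (sh y)
        · by_cases h0' : y 0 = 0
          · rw [F2 h h0, F2 h' h0'] at he
            refine cod2_ext (h0.trans h0'.symm) (dcinj ?_)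
            rw [hge _ h, hge _ h', he]
          · rw [F2 h h0, F3 h' h0'] at he
            exact absurd he (nog h (hS.cns _ _ (hS.sh y hy)))
        · rw [F2 h h0, F1 h'] at he
          exact absurd he (nog h hy)
      · by_cases h' : Qr S (sh y)
        · by_cases h0' : y 0 = 0
          · rw [F3 h h0, F2 h' h0'] at he
            exact absurd he.symm (nog h' (hS.cns _ _ (hS.sh x hx)))
          · rw [F3 h h0, F3 h' h0'] at he
            have h2 := sinj he
            have h3 : sh (cns (x 0 - 1) (sh x)) = sh (cns (y 0 - 1) (sh y)) := congrArg sh h2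
            have h4 : x 0 - 1 = y 0 - 1 := congrFun h2 0
            exact cod2_ext (by omega) h3
        · rw [F3 h h0, F1 h'] at he
          have h2 := sinj he
          have h3 : sh (cns (x 0 - 1) (sh x)) = sh y := congrArg sh h2
          rw [cod2_sh_cns] at h3
          exact absurd (h3 ▸ h) h'
    · by_cases h' : Qr S (sh y)
      · by_cases h0' : y 0 = 0
        · rw [F1 h, F2 h' h0'] at he
          exact absurd he.symm (nog h' hx)
        · rw [F1 h, F3 h' h0'] at he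
          have h2 := sinj he
          have h3 : sh x = sh (cns (y 0 - 1) (sh y)) := congrArg sh h2
          rw [cod2_sh_cns] at h3
          exact absurd (h3.symm ▸ h') h
      · rw [F1 h, F1 h'] at he
        exact sinj he
  have Fsurj : ∀ g ∈ G0 S, ∃ x ∈ S, F x = g := by
    intro g hg
    have hdt : dc (cd (evl g)) = evl g := dccd _
    by_cases hK : ∃ y ∈ S, K1 y (cd (evl g))
    · obtain ⟨y, hy, hy1⟩ := hK
      have hgy : g = Finsupp.single y 2 := evl_inj (by rw [← hdt]; exact k1.1 hy1)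
      by_cases h : Qr S (sh y)
      · refine ⟨cns (y 0 + 1) (sh y), hS.cns _ _ (hS.sh y hy), ?_⟩
        have h1 : Qr S (sh (cns (y 0 + 1) (sh y))) := h
        have h2 : cns (y 0 + 1) (sh y) 0 ≠ 0 := Nat.succ_ne_zero _
        rw [F3 h1 h2, hgy]
        have h3 : cns (cns (y 0 + 1) (sh y) 0 - 1) (sh (cns (y 0 + 1) (sh y))) = y :=
          cod2_cns_sh y
        rw [h3]
      · exact ⟨y, hy, by rw [F1 h, hgy]⟩
    · have hq : Qr S (cd (evl g)) := ⟨(k7 _).2 ⟨g, hg, hdt⟩, hK⟩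
      refine ⟨cns 0 (cd (evl g)), hS.cns _ _ (cmem hg), ?_⟩
      have h1 : Qr S (sh (cns 0 (cd (evl g)))) := hq
      rw [F2 h1 rfl]
      refine evl_inj ?_
      rw [← hge _ h1]
      exact hdt
  let f : S → G0 S := fun x => ⟨F x.1, Fm x.1 x.2⟩
  have hf : Function.Bijective f := by
    refine ⟨fun x y h => ?_, fun g => ?_⟩
    · exact Subtype.ext (Finj _ x.2 _ y.2 (congrArg Subtype.val h))
    · obtain ⟨x, hx, hxg⟩ := Fsurj g.1 g.2
      exact ⟨⟨x, hx⟩, Subtype.ext hxg⟩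
  refine ⟨Equiv.ofBijective f hf, fun x c _ => ?_⟩
  have hfx : ((Equiv.ofBijective f hf x : G0 S) : Fr) = F x.1 := rfl
  rw [hfx]
  unfold GrF
  by_cases h : Qr S (sh x.1)
  · by_cases h0 : x.1 0 = 0
    · rw [F2 h h0, ← hge _ h]
      constructor
      · intro hc
        have hc' := dcinj hc
        exact Or.inr ⟨h, Or.inl ⟨h0, fun n => congrFun hc' n⟩⟩
      · rintro (⟨h1, _⟩ | ⟨_, h2 | h2⟩)
        · exact absurd h h1
        · have : c = sh x.1 := funext h2.2
          rw [this]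
        · exact absurd h0 h2.1
    · rw [F3 h h0, ← k1]
      constructor
      · intro hc
        exact Or.inr ⟨h, Or.inr ⟨h0, hc⟩⟩
      · rintro (⟨h1, _⟩ | ⟨_, h2 | h2⟩)
        · exact absurd h h1
        · exact absurd h2.1 h0
        · exact h2.2
  · rw [F1 h, ← k1]
    constructor
    · intro hc
      exact Or.inl ⟨h, hc⟩
    · rintro (⟨_, h1⟩ | ⟨h1, _⟩)
      · exact h1
      · exact absurd h1 h

/-- The reals of `S` and the elements of `G0 S` are in a bijection whose graph on the codes is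
`GrF`. -/
theorem exists_equiv {S : Set (ℕ → ℕ)} (hS : Cls S) : ∃ e : S ≃ G0 S,
    ∀ (x : S) (c : ℕ → ℕ), c ∈ S → (dc c = evl ((e x : G0 S) : Fr) ↔ GrF S x c) :=
  cod2_exists_equiv hS evl_injective K1_iff single_inj2 (K7_iff hS) (code_mem hS) dc_cd cd_dc

end Pool.Agent.Helper71.LR
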