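import Pool.Agent.Helper71.LR.Cod
import Pool.Agent.H158_PC.Sk

/-!
# The coding is local

The values of the functions of `Cod` depend on finitely many values of their arguments, and the
conditions are countable conjunctions of conditions of this kind.
-/

set_option autoImplicit false

namespace Pool.Agent.Helper71.LR

open Pool.Agent.H158_PC

variable {ι : Type}

/-- A value that is local for every fixed value of a local number is local. -/
theorem loc_bind {f : (ι → ℕ → ℕ) → ℕ} (hf : LF f) {g : ℕ → (ι → ℕ → ℕ) → ℕ}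
    (hg : ∀ a, LF (g a)) : LF fun v => g (f v) v := by
  intro v
  obtain ⟨n, hn⟩ := hf v
  obtain ⟨m, hm⟩ := hg (f v) v
  refine ⟨max n m, fun v' hv => ?_⟩
  show g (f v') v' = g (f v) v
  rw [hn v' fun i j hj => hv i j (lt_of_lt_of_le hj (le_max_left _ _)),
    hm v' fun i j hj => hv i j (lt_of_lt_of_le hj (le_max_right _ _))]

/-- The values at a fixed place. -/
theorem loc_val (i : ι) (n : ℕ) : LF fun v : ι → ℕ → ℕ => v i n :=
  (LF.cst n).app i

/-- A condition that is local for every fixed value of a local number is local. -/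
theorem loc_bindP {f : (ι → ℕ → ℕ) → ℕ} (hf : LF f) {P : ℕ → (ι → ℕ → ℕ) → Prop}
    (hP : ∀ a, LD (P a)) : LD fun v => P (f v) v := by
  intro v
  obtain ⟨n, hn⟩ := hf v
  obtain ⟨m, hm⟩ := hP (f v) v
  refine ⟨max n m, fun v' hv => ?_⟩
  show P (f v') v' ↔ P (f v) v
  rw [hn v' fun i j hj => hv i j (lt_of_lt_of_le hj (le_max_left _ _)),
    hm v' fun i j hj => hv i j (lt_of_lt_of_le hj (le_max_right _ _))]

theorem loc_congr {f g : (ι → ℕ → ℕ) → ℕ} (hf : LF f) (h : ∀ v, g v = f v) : LF g := by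
  have : g = f := funext h
  rw [this]; exact hf

/-- A numerical function of finitely many values is local: an integer version. -/
def LocZ (f : (ι → ℕ → ℕ) → ℤ) : Prop :=
  ∀ v, ∃ n, ∀ v' : ι → ℕ → ℕ, (∀ i, ∀ j < n, v' i j = v i j) → f v' = f v

theorem LocZ.cst (c : ℤ) : LocZ fun _ : ι → ℕ → ℕ => c := fun _ => ⟨0, fun _ _ => rfl⟩

theorem LocZ.toLF {f : (ι → ℕ → ℕ) → ℤ} (h : LocZ f) (g : ℤ → ℕ) : LF fun v => g (f v) := by
  intro v
  obtain ⟨n, hn⟩ := h v
  exact ⟨n, fun v' hv => congrArg g (hn v' hv)⟩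

theorem LocZ.ofLF {f : (ι → ℕ → ℕ) → ℕ} (h : LF f) (g : ℕ → ℤ) : LocZ fun v => g (f v) := by
  intro v
  obtain ⟨n, hn⟩ := h v
  exact ⟨n, fun v' hv => congrArg g (hn v' hv)⟩

theorem LocZ.map2 {f f' : (ι → ℕ → ℕ) → ℤ} (h : LocZ f) (h' : LocZ f') (g : ℤ → ℤ → ℤ) :
    LocZ fun v => g (f v) (f' v) := by
  intro v
  obtain ⟨n, hn⟩ := h v
  obtain ⟨m, hm⟩ := h' v
  refine ⟨max n m, fun v' hv => ?_⟩
  show g (f v') (f' v') = g (f v) (f' v)
  rw [hn v' fun i j hj => hv i j (lt_of_lt_of_le hj (le_max_left _ _)),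
    hm v' fun i j hj => hv i j (lt_of_lt_of_le hj (le_max_right _ _))]

theorem LocZ.bind {f : (ι → ℕ → ℕ) → ℕ} (hf : LF f) {g : ℕ → (ι → ℕ → ℕ) → ℤ}
    (hg : ∀ a, LocZ (g a)) : LocZ fun v => g (f v) v := by
  intro v
  obtain ⟨n, hn⟩ := hf v
  obtain ⟨m, hm⟩ := hg (f v) v
  refine ⟨max n m, fun v' hv => ?_⟩
  show g (f v') v' = g (f v) v
  rw [hn v' fun i j hj => hv i j (lt_of_lt_of_le hj (le_max_left _ _)),
    hm v' fun i j hj => hv i j (lt_of_lt_of_le hj (le_max_right _ _))]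

theorem LocZ.sum {f : ℕ → (ι → ℕ → ℕ) → ℤ} (h : ∀ k, LocZ (f k)) (s : Finset ℕ) :
    LocZ fun v => ∑ k ∈ s, f k v := by
  classical
  induction s using Finset.induction_on with
  | empty => exact LocZ.cst 0
  | insert a s ha ih =>
    have : (fun v => ∑ k ∈ insert a s, f k v) = fun v => f a v + ∑ k ∈ s, f k v := by
      funext v; rw [Finset.sum_insert ha]
    rw [this]
    exact (h a).map2 ih (fun x y => x + y)

theorem LocZ.ld {f f' : (ι → ℕ → ℕ) → ℤ} (h : LocZ f) (h' : LocZ f') (g : ℤ → ℤ → Prop) :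
    LD fun v => g (f v) (f' v) := by
  intro v
  obtain ⟨n, hn⟩ := h v
  obtain ⟨m, hm⟩ := h' v
  refine ⟨max n m, fun v' hv => ?_⟩
  show g (f v') (f' v') ↔ g (f v) (f' v)
  rw [hn v' fun i j hj => hv i j (lt_of_lt_of_le hj (le_max_left _ _)),
    hm v' fun i j hj => hv i j (lt_of_lt_of_le hj (le_max_right _ _))]

/-- A real all of whose values are local. -/
def LocR (F : (ι → ℕ → ℕ) → ℕ → ℕ) : Prop := ∀ n, LF fun v => F v n

theorem loc_id (i : ι) : LocR fun v : ι → ℕ → ℕ => v i := fun n => loc_val i n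

theorem LocR.at {F : (ι → ℕ → ℕ) → ℕ → ℕ} (hF : LocR F) {f : (ι → ℕ → ℕ) → ℕ} (hf : LF f) :
    LF fun v => F v (f v) :=
  loc_bind hf (g := fun a v => F v a) hF

theorem loc_dc {F : (ι → ℕ → ℕ) → ℕ → ℕ} (hF : LocR F) (n : ℕ) : LocZ fun v => dc (F v) n :=
  LocZ.ofLF (hF n) fun k => Equiv.intEquivNat.symm k

theorem loc_dc_at {F : (ι → ℕ → ℕ) → ℕ → ℕ} (hF : LocR F) {f : (ι → ℕ → ℕ) → ℕ} (hf : LF f) :
    LocZ fun v => dc (F v) (f v) :=
  LocZ.bind hf (g := fun a v => dc (F v) a) fun a => loc_dc hF a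

theorem loc_nseg_congr {x y : ℕ → ℕ} {k : ℕ} (h : ∀ i < k, x i = y i) : nseg x k = nseg y k := by
  unfold nseg
  congr 1
  have : (fun i : Fin k => x i) = fun i : Fin k => y i := funext fun i => h i i.2
  rw [this]

theorem loc_nseg_len {x y : ℕ → ℕ} {k l : ℕ} (h : nseg x k = nseg y l) :
    k = l ∧ ∀ i < k, x i = y i := by
  have h1 := Encodable.encode_injective h
  have h2 : k = l := by simpa using congrArg List.length h1
  subst h2
  refine ⟨rfl, fun i hi => ?_⟩
  have h3 := List.ofFn_injective h1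
  exact congrFun h3 ⟨i, hi⟩

/-- The initial segment of a local real is local. -/
theorem loc_nseg {F : (ι → ℕ → ℕ) → ℕ → ℕ} (hF : LocR F) (k : ℕ) : LF fun v => nseg (F v) k := by
  induction k with
  | zero =>
    refine loc_congr (LF.cst (nseg (fun _ => 0) 0)) fun v => loc_nseg_congr fun i hi => ?_
    exact absurd hi (Nat.not_lt_zero i)
  | succ k ih =>
    intro v
    have h : ∀ m, ∃ n, ∀ v' : ι → ℕ → ℕ, (∀ i, ∀ j < n, v' i j = v i j) →
        ∀ i < m, F v' i = F v i := by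
      intro m
      induction m with
      | zero => exact ⟨0, fun _ _ i hi => absurd hi (Nat.not_lt_zero i)⟩
      | succ m ihm =>
        obtain ⟨n, hn⟩ := ihm
        obtain ⟨n', hn'⟩ := hF m v
        refine ⟨max n n', fun v' hv i hi => ?_⟩
        rcases Nat.lt_succ_iff_lt_or_eq.1 hi with h1 | h1
        · exact hn v' (fun i j hj => hv i j (lt_of_lt_of_le hj (le_max_left _ _))) i h1
        · rw [h1]
          exact hn' v' fun i j hj => hv i j (lt_of_lt_of_le hj (le_max_right _ _))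
    obtain ⟨n, hn⟩ := h (k + 1)
    exact ⟨n, fun v' hv => loc_nseg_congr (hn v' hv)⟩

/-- The characteristic function of the initial segments of a local real is local. -/
theorem loc_dlt {F : (ι → ℕ → ℕ) → ℕ → ℕ} (hF : LocR F) (m : ℕ) : LocZ fun v => dlt (F v) m := by
  classical
  by_cases hm : ∃ (y : ℕ → ℕ) (k : ℕ), m = nseg y k
  · obtain ⟨y, k, hy⟩ := hm
    have h1 : (fun v => dlt (F v) m) = fun v => (if nseg (F v) k = m then (1 : ℤ) else 0) := by
      funext v
      unfold dlt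
      by_cases h2 : ∃ k, m = nseg (F v) k
      · obtain ⟨l, hl⟩ := h2
        have h3 := loc_nseg_len (hy.symm.trans hl)
        rw [if_pos ⟨l, hl⟩, if_pos]
        rw [h3.1]; exact hl.symm
      · rw [if_neg h2, if_neg]
        exact fun h3 => h2 ⟨k, h3.symm⟩
    rw [h1]
    exact LocZ.ofLF (loc_nseg hF k) fun a => if a = m then (1 : ℤ) else 0
  · have h1 : (fun v => dlt (F v) m) = fun _ => (0 : ℤ) := by
      funext v
      unfold dlt
      rw [if_neg]
      rintro ⟨k, hk⟩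
      exact hm ⟨_, k, hk⟩
    rw [h1]
    exact LocZ.cst 0

theorem lf_sh (i : ι) (n : ℕ) : LF fun v : ι → ℕ → ℕ => sh (v i) n := loc_val i (n + 1)

theorem loc_cns {f : (ι → ℕ → ℕ) → ℕ} (hf : LF f) {F : (ι → ℕ → ℕ) → ℕ → ℕ} (hF : LocR F) :
    LocR fun v => cns (f v) (F v) := by
  intro n
  cases n with
  | zero => exact hf
  | succ n => exact hF n

theorem lf_cns (i j : ι) (n : ℕ) : LF fun v : ι → ℕ → ℕ => cns (v j 0) (v i) n :=
  loc_cns (loc_val j 0) (loc_id i) n

theorem lf_cdl (i : ι) (n : ℕ) : LF fun v : ι → ℕ → ℕ => cd (dlt (v i)) n :=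
  (loc_dlt (loc_id i) n).toLF fun a => Equiv.intEquivNat a

theorem lf_add (i j : ι) (n : ℕ) :
    LF fun v : ι → ℕ → ℕ => cd (fun m => dc (v i) m + dc (v j) m) n :=
  ((loc_dc (loc_id i) n).map2 (loc_dc (loc_id j) n) (fun a b => a + b)).toLF
    fun a => Equiv.intEquivNat a

theorem lf_neg (i : ι) (n : ℕ) : LF fun v : ι → ℕ → ℕ => cd (fun m => - dc (v i) m) n :=
  (loc_dc (loc_id i) n).toLF fun a => Equiv.intEquivNat (-a)

theorem lf_app (i j : ι) (n : ℕ) : LF fun v : ι → ℕ → ℕ => app (v i) (v j) n := by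
  unfold app
  refine loc_bind (loc_val i 0) (g := fun a v => if n = 0 then a + 1 else
    if (n - 1).unpair.1 = a then v j (n - 1).unpair.2 else v i n) fun a => ?_
  by_cases h : n = 0
  · simp only [if_pos h]
    exact LF.cst _
  · simp only [if_neg h]
    by_cases h' : (n - 1).unpair.1 = a
    · simp only [if_pos h']
      exact loc_val _ _
    · simp only [if_neg h']
      exact loc_val _ _

theorem loc_blk (i : ι) (k : ℕ) : LocR fun v : ι → ℕ → ℕ => blk (v i) k :=
  fun n => loc_val i (1 + Nat.pair k n)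

theorem loc_bu {F : (ι → ℕ → ℕ) → ℕ → ℕ} (hF : LocR F) : LocR fun v => bu (F v) :=
  fun n => hF (2 + 2 * n)

theorem loc_bv {F : (ι → ℕ → ℕ) → ℕ → ℕ} (hF : LocR F) : LocR fun v => bv (F v) :=
  fun n => hF (3 + 2 * n)

theorem lf_bu (i j : ι) (n : ℕ) : LF fun v : ι → ℕ → ℕ => bu (blk (v i) (v j 0)) n :=
  loc_bind (loc_val j 0) (g := fun a v => bu (blk (v i) a) n) fun a => loc_bu (loc_blk i a) n

theorem lf_bv (i j : ι) (n : ℕ) : LF fun v : ι → ℕ → ℕ => bv (blk (v i) (v j 0)) n :=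
  loc_bind (loc_val j 0) (g := fun a v => bv (blk (v i) a) n) fun a => loc_bv (loc_blk i a) n

theorem lf_mkd (i j k : ι) (n : ℕ) :
    LF fun v : ι → ℕ → ℕ => mkd (v k 0) (v k 1) (v i) (v j) n := by
  unfold mkd
  by_cases h0 : n = 0
  · simp only [if_pos h0]
    exact loc_val _ _
  · simp only [if_neg h0]
    by_cases h1 : n = 1
    · simp only [if_pos h1]
      exact loc_val _ _
    · simp only [if_neg h1]
      by_cases h2 : n % 2 = 0
      · simp only [if_pos h2]
        exact loc_val _ _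
      · simp only [if_neg h2]
        exact loc_val _ _

theorem loc_cp_eq {F G : (ι → ℕ → ℕ) → ℕ → ℤ} (hF : ∀ n, LocZ fun v => F v n)
    (hG : ∀ n, LocZ fun v => G v n) : CP fun v => ∀ n, F v n = G v n :=
  CP.all fun n => CP.of ((hF n).ld (hG n) fun a b => a = b)

theorem cp_K1 (i j : ι) : CP fun v : ι → ℕ → ℕ => K1 (v i) (v j) := by
  unfold K1
  refine loc_cp_eq (fun n => loc_dc (loc_id j) n) fun n => ?_
  exact (LocZ.cst 2).map2 (loc_dlt (loc_id i) n) (fun a b => a * b)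

theorem cp_K2 (i j : ι) : CP fun v : ι → ℕ → ℕ => K2 (v i) (v j) := by
  unfold K2
  refine CP.and (CP.of (LD.of (loc_val i 0) fun a => a ≠ 0)) ?_
  refine loc_cp_eq (fun n => loc_dc (loc_id j) n) fun n => ?_
  refine (LocZ.cst 2).map2 (loc_dlt ?_ n) (fun a b => a * b)
  exact loc_cns ((loc_val i 0).map fun a => a - 1) fun n => lf_sh i n

theorem cp_K3 (i j : ι) : CP fun v : ι → ℕ → ℕ => K3 (v i) (v j) := by
  unfold K3
  refine CP.and (CP.of (LD.of (loc_val i 0) fun a => a = 0)) ?_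
  exact CP.all fun n => CP.of (LD.of2 (loc_val j n) (loc_val i (n + 1)) fun a b => a = b)

theorem cp_K4 (i j k : ι) : CP fun v : ι → ℕ → ℕ => K4 (v i) (v j) (v k) := by
  unfold K4
  refine loc_cp_eq (fun n => ?_) fun n => loc_dc (loc_id k) n
  exact (loc_dc (loc_id i) n).map2 (loc_dc (loc_id j) n) (fun a b => a + b)

theorem cp_sh (i j : ι) : CP fun v : ι → ℕ → ℕ => v j = sh (v i) := by
  have h : (fun v : ι → ℕ → ℕ => v j = sh (v i)) = fun v => ∀ n, v j n = sh (v i) n := by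
    funext v
    exact propext funext_iff
  rw [h]
  exact CP.all fun n => CP.of (LD.of2 (loc_val j n) (lf_sh i n) fun a b => a = b)

theorem loc_bval (i : ι) (k s : ℕ) : LocZ fun v : ι → ℕ → ℕ => bval (blk (v i) k) s := by
  unfold bval
  refine LocZ.map2 (LocZ.ofLF (loc_blk i k 0) fun a => if a = 0 then (1 : ℤ) else -1) ?_
    (fun a b => a * b)
  exact (loc_dlt (loc_bu (loc_blk i k)) s).map2 (loc_dlt (loc_bv (loc_blk i k)) s)
    (fun a b => a + b)

theorem cp_K7 (i j : ι) : CP fun v : ι → ℕ → ℕ => K7 (v i) (v j) := by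
  unfold K7
  refine CP.and (loc_cp_eq (fun n => loc_dc (loc_id i) n) fun n => ?_) ?_
  · exact LocZ.bind (loc_val j 0)
      (g := fun a v => ∑ k ∈ Finset.range a, bval (blk (v j) k) n)
      fun a => LocZ.sum (fun k => loc_bval j k n) _
  · refine CP.all fun k => CP.all fun n => CP.of ?_
    refine (LD.of (loc_val j 0) fun a => k < a).imp ?_
    refine (LD.of (loc_blk j k 1) fun a => a ≤ n).imp ?_
    exact LD.of2 (loc_bu (loc_blk j k) n) (loc_bv (loc_blk j k) n) fun a b => a = b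

theorem cp_K9 (i j k l : ι) : CP fun v : ι → ℕ → ℕ => K9 (v i) (v j) (v k) (v l) := by
  unfold K9
  refine CP.all fun m => CP.of ?_
  refine (LD.of (loc_val l 0) fun a => a ≤ m).imp ?_
  exact (loc_dc_at (loc_id i) (loc_nseg (loc_id k) m)).ld
    (loc_dc_at (loc_id j) (loc_nseg (loc_id k) m)) fun a b => a ≤ b

theorem loc_all_lt {P : ℕ → (ι → ℕ → ℕ) → Prop} (h : ∀ k, LD (P k)) (n : ℕ) :
    LD fun v => ∀ k < n, P k v := by
  induction n with
  | zero => exact fun v => ⟨0, fun v' _ => ⟨fun _ k hk => absurd hk (Nat.not_lt_zero k),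
      fun _ k hk => absurd hk (Nat.not_lt_zero k)⟩⟩
  | succ n ih =>
    refine (ih.and (h n)).congr fun v => ?_
    constructor
    · rintro ⟨h1, h2⟩ k hk
      rcases Nat.lt_succ_iff_lt_or_eq.1 hk with h3 | h3
      · exact h1 k h3
      · rw [h3]; exact h2
    · intro h1
      exact ⟨fun k hk => h1 k (Nat.lt_succ_of_lt hk), h1 n (Nat.lt_succ_self n)⟩

theorem cp_lex (i j : ι) : CP fun v : ι → ℕ → ℕ => ¬ lexlt (v j) (v i) := by
  have h : (fun v : ι → ℕ → ℕ => ¬ lexlt (v j) (v i)) =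
      fun v => ∀ n, ¬ ((∀ k < n, v j k = v i k) ∧ v j n < v i n) := by
    funext v
    unfold lexlt
    exact propext not_exists
  rw [h]
  refine CP.all fun n => CP.of (LD.not (LD.and ?_ ?_))
  · exact loc_all_lt (P := fun k v => v j k = v i k)
      (fun k => LD.of2 (loc_val j k) (loc_val i k) fun a b => a = b) n
  · exact LD.of2 (loc_val j n) (loc_val i n) fun a b => a < b

end Pool.Agent.Helper71.LR
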