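import Pool.Agent.Helper71.LR.Prj
import Pool.Agent.Helper71.LR.Loc
import Pool.Agent.Helper71.LR.Cod2

/-!
# The data set, the closure properties of the reals, and the projective relations
-/

set_option autoImplicit false
set_option linter.unreachableTactic false
set_option linter.unusedTactic false
set_option linter.unusedSectionVars false

namespace Pool.Agent.Helper71.LR

open Pool.Agent.W868 Pool.Agent.Y588 Pool.Agent.H158_PC
open ZFSet (pair)

/-- The data. -/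
noncomputable def Yt : ℕ → ZFSet.{0}
  | 0 => tbl (n := 1) fun v => sh (v 0)
  | 1 => tbl (n := 2) fun v => cns (v 1 0) (v 0)
  | 2 => tbl (n := 1) fun v => cd (dlt (v 0))
  | 3 => tbl (n := 2) fun v => cd (fun m => dc (v 0) m + dc (v 1) m)
  | 4 => tbl (n := 1) fun v => cd (fun m => - dc (v 0) m)
  | 5 => tbl (n := 2) fun v => app (v 0) (v 1)
  | 6 => tbl (n := 2) fun v => bu (blk (v 0) (v 1 0))
  | 7 => tbl (n := 2) fun v => bv (blk (v 0) (v 1 0))
  | 8 => tbl (n := 3) fun v => mkd (v 2 0) (v 2 1) (v 0) (v 1)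
  | 9 => trP (n := 2) fun v => K1 (v 0) (v 1)
  | 10 => trP (n := 2) fun v => K2 (v 0) (v 1)
  | 11 => trP (n := 2) fun v => K3 (v 0) (v 1)
  | 12 => trP (n := 3) fun v => K4 (v 0) (v 1) (v 2)
  | 13 => trP (n := 2) fun v => v 1 = sh (v 0)
  | 14 => trP (n := 2) fun v => K7 (v 0) (v 1)
  | 15 => trP (n := 4) fun v => K9 (v 0) (v 1) (v 2) (v 3)
  | 16 => trP (n := 2) fun v => ¬ lexlt (v 1) (v 0)
  | _ => ∅

theorem isHF_Yt : ∀ j, ∀ z ∈ Yt j, IsHF z
  | 0, _, h => isHF_tbl h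
  | 1, _, h => isHF_tbl h
  | 2, _, h => isHF_tbl h
  | 3, _, h => isHF_tbl h
  | 4, _, h => isHF_tbl h
  | 5, _, h => isHF_tbl h
  | 6, _, h => isHF_tbl h
  | 7, _, h => isHF_tbl h
  | 8, _, h => isHF_tbl h
  | 9, _, h => isHF_trP (n := 2) (P := fun v => K1 (v 0) (v 1)) h
  | 10, _, h => isHF_trP (n := 2) (P := fun v => K2 (v 0) (v 1)) h
  | 11, _, h => isHF_trP (n := 2) (P := fun v => K3 (v 0) (v 1)) h
  | 12, _, h => isHF_trP (n := 3) (P := fun v => K4 (v 0) (v 1) (v 2)) h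
  | 13, _, h => isHF_trP (n := 2) (P := fun v => v 1 = sh (v 0)) h
  | 14, _, h => isHF_trP (n := 2) (P := fun v => K7 (v 0) (v 1)) h
  | 15, _, h => isHF_trP (n := 4) (P := fun v => K9 (v 0) (v 1) (v 2) (v 3)) h
  | 16, _, h => isHF_trP (n := 2) (P := fun v => ¬ lexlt (v 1) (v 0)) h
  | (_ + 17), z, h => absurd h (ZFSet.notMem_empty z)

variable {N : Set ZFSet.{0}} (hN : IsZF N) (hY : ∀ j, Yt j ∈ N)

include hN

theorem const_Rls (a : ℕ) : (fun _ => a) ∈ Rls N := by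
  refine mkR hN (Q := fun _ b => b = nat a) _ ?_ ?_
  · exact Dfn.eq (DfnF.proj 1) (DfnF.const (hN.nat_mem a))
  · intro n l
    exact ⟨fun h => nat_injective h, fun h => h ▸ rfl⟩

include hY

theorem cls_Rls : Cls (Rls N) := by
  have hc := const_Rls hN
  have hcns : ∀ a : ℕ, ∀ x ∈ Rls N, cns a x ∈ Rls N := by
    intro a x hx
    have h := tbl_closed hN (n := 2) (F := fun v => cns (v 1 0) (v 0))
      (fun l => lf_cns 0 1 l) (hY 1) (x := ![x, fun _ => a]) (by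
        intro i
        fin_cases i
        · exact hx
        · exact hc a)
    exact h
  refine ⟨hc, ?_, hcns, ?_, ?_, ?_, ?_, ?_, ?_, ?_⟩
  · intro x hx
    exact tbl_closed hN (n := 1) (F := fun v => sh (v 0)) (fun l => lf_sh 0 l) (hY 0)
      (x := ![x]) (by
        intro i
        fin_cases i
        exact hx)
  · intro x hx
    exact tbl_closed hN (n := 1) (F := fun v => cd (dlt (v 0))) (fun l => lf_cdl 0 l) (hY 2)
      (x := ![x]) (by
        intro i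
        fin_cases i
        exact hx)
  · intro x hx y hy
    exact tbl_closed hN (n := 2) (F := fun v => cd (fun m => dc (v 0) m + dc (v 1) m))
      (fun l => lf_add 0 1 l) (hY 3) (x := ![x, y]) (by
        intro i
        fin_cases i
        · exact hx
        · exact hy)
  · intro x hx
    exact tbl_closed hN (n := 1) (F := fun v => cd (fun m => - dc (v 0) m))
      (fun l => lf_neg 0 l) (hY 4) (x := ![x]) (by
        intro i
        fin_cases i
        exact hx)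
  · intro w hw d hd
    exact tbl_closed hN (n := 2) (F := fun v => app (v 0) (v 1))
      (fun l => lf_app 0 1 l) (hY 5) (x := ![w, d]) (by
        intro i
        fin_cases i
        · exact hw
        · exact hd)
  · intro w hw a
    exact tbl_closed hN (n := 2) (F := fun v => bu (blk (v 0) (v 1 0)))
      (fun l => lf_bu 0 1 l) (hY 6) (x := ![w, fun _ => a]) (by
        intro i
        fin_cases i
        · exact hw
        · exact hc a)
  · intro w hw a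
    exact tbl_closed hN (n := 2) (F := fun v => bv (blk (v 0) (v 1 0)))
      (fun l => lf_bv 0 1 l) (hY 7) (x := ![w, fun _ => a]) (by
        intro i
        fin_cases i
        · exact hw
        · exact hc a)
  · intro a b x hx y hy
    exact tbl_closed hN (n := 3) (F := fun v => mkd (v 2 0) (v 2 1) (v 0) (v 1))
      (fun l => lf_mkd 0 1 2 l) (hY 8) (x := ![x, y, cns a fun _ => b]) (by
        intro i
        fin_cases i
        · exact hx
        · exact hy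
        · exact hcns a _ (hc b))

/-! ### Projective relations -/

section pj

variable {n : ℕ}

theorem pK1 (i j : Fin n) : Pj N fun v : Fin n → ℕ → ℕ => K1 (v i) (v j) :=
  (Pj.cp (cp_K1 (0 : Fin 2) 1) (hY 9)).comp ![i, j]

theorem pK2 (i j : Fin n) : Pj N fun v : Fin n → ℕ → ℕ => K2 (v i) (v j) :=
  (Pj.cp (cp_K2 (0 : Fin 2) 1) (hY 10)).comp ![i, j]

theorem pK3 (i j : Fin n) : Pj N fun v : Fin n → ℕ → ℕ => K3 (v i) (v j) :=
  (Pj.cp (cp_K3 (0 : Fin 2) 1) (hY 11)).comp ![i, j]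

theorem pK4 (i j k : Fin n) : Pj N fun v : Fin n → ℕ → ℕ => K4 (v i) (v j) (v k) :=
  (Pj.cp (cp_K4 (0 : Fin 3) 1 2) (hY 12)).comp ![i, j, k]

theorem pSh (i j : Fin n) : Pj N fun v : Fin n → ℕ → ℕ => v j = sh (v i) :=
  (Pj.cp (cp_sh (0 : Fin 2) 1) (hY 13)).comp ![i, j]

theorem pK7 (i j : Fin n) : Pj N fun v : Fin n → ℕ → ℕ => K7 (v i) (v j) :=
  (Pj.cp (cp_K7 (0 : Fin 2) 1) (hY 14)).comp ![i, j]

theorem pK9 (i j k l : Fin n) : Pj N fun v : Fin n → ℕ → ℕ => K9 (v i) (v j) (v k) (v l) :=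
  (Pj.cp (cp_K9 (0 : Fin 4) 1 2 3) (hY 15)).comp ![i, j, k, l]

theorem pLex (i j : Fin n) : Pj N fun v : Fin n → ℕ → ℕ => lexlt (v i) (v j) := by
  have h := (Pj.cp (N := N) (cp_lex (0 : Fin 2) 1) (hY 16)).comp ![j, i]
  exact h.not.congr fun v _ => not_not

theorem pQr (i : Fin n) : Pj N fun v : Fin n → ℕ → ℕ => Qr (Rls N) (v i) := by
  refine Pj.and ?_ (Pj.not ?_)
  · exact Pj.ex (Q := fun w v => K7 (v i) w) (pK7 hN hY i.succ 0)
  · exact Pj.ex (Q := fun y v => K1 y (v i)) (pK1 hN hY 0 i.succ)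

theorem pQrs (i : Fin n) : Pj N fun v : Fin n → ℕ → ℕ => Qr (Rls N) (sh (v i)) := by
  have h : Pj N fun v : Fin n → ℕ → ℕ => ∃ t ∈ Rls N, t = sh (v i) ∧ Qr (Rls N) t :=
    Pj.ex (Q := fun t v => t = sh (v i) ∧ Qr (Rls N) t) ((pSh hN hY i.succ 0).and (pQr hN hY 0))
  refine h.congr fun v hv => ?_
  constructor
  · rintro ⟨t, -, rfl, h1⟩
    exact h1
  · intro h1
    exact ⟨_, (cls_Rls hN hY).sh _ (hv i), rfl, h1⟩

theorem pGrF (i j : Fin n) : Pj N fun v : Fin n → ℕ → ℕ => GrF (Rls N) (v i) (v j) :=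
  ((pQrs hN hY i).not.and (pK1 hN hY i j)).or
    ((pQrs hN hY i).and ((pK3 hN hY i j).or (pK2 hN hY i j)))

/-- The sum of the group. -/
theorem pAdd (i j k : Fin n) : Pj N fun v : Fin n → ℕ → ℕ =>
    ∃ a ∈ Rls N, ∃ b ∈ Rls N, ∃ c ∈ Rls N, GrF (Rls N) (v i) a ∧ GrF (Rls N) (v j) b ∧
      GrF (Rls N) (v k) c ∧ K4 a b c := by
  refine Pj.ex (Q := fun a v => ∃ b ∈ Rls N, ∃ c ∈ Rls N, GrF (Rls N) (v i) a ∧
    GrF (Rls N) (v j) b ∧ GrF (Rls N) (v k) c ∧ K4 a b c) ?_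
  refine Pj.ex (Q := fun b (v : Fin (n + 1) → ℕ → ℕ) => ∃ c ∈ Rls N,
    GrF (Rls N) (v i.succ) (v 0) ∧ GrF (Rls N) (v j.succ) b ∧ GrF (Rls N) (v k.succ) c ∧
      K4 (v 0) b c) ?_
  refine Pj.ex (Q := fun c (v : Fin (n + 2) → ℕ → ℕ) =>
    GrF (Rls N) (v i.succ.succ) (v 1) ∧ GrF (Rls N) (v j.succ.succ) (v 0) ∧
      GrF (Rls N) (v k.succ.succ) c ∧ K4 (v 1) (v 0) c) ?_
  exact (pGrF hN hY i.succ.succ.succ 2).and ((pGrF hN hY j.succ.succ.succ 1).and
    ((pGrF hN hY k.succ.succ.succ 0).and (pK4 hN hY 2 1 0)))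

/-- The comparison of coefficients. -/
theorem pLE (i j k : Fin n) : Pj N fun v : Fin n → ℕ → ℕ =>
    ∃ a ∈ Rls N, ∃ b ∈ Rls N, ∃ r ∈ Rls N, GrF (Rls N) (v i) a ∧ GrF (Rls N) (v j) b ∧
      K9 a b (v k) r := by
  refine Pj.ex (Q := fun a v => ∃ b ∈ Rls N, ∃ r ∈ Rls N, GrF (Rls N) (v i) a ∧
    GrF (Rls N) (v j) b ∧ K9 a b (v k) r) ?_
  refine Pj.ex (Q := fun b (v : Fin (n + 1) → ℕ → ℕ) => ∃ r ∈ Rls N,
    GrF (Rls N) (v i.succ) (v 0) ∧ GrF (Rls N) (v j.succ) b ∧ K9 (v 0) b (v k.succ) r) ?_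
  refine Pj.ex (Q := fun r (v : Fin (n + 2) → ℕ → ℕ) =>
    GrF (Rls N) (v i.succ.succ) (v 1) ∧ GrF (Rls N) (v j.succ.succ) (v 0) ∧
      K9 (v 1) (v 0) (v k.succ.succ) r) ?_
  exact (pGrF hN hY i.succ.succ.succ 2).and ((pGrF hN hY j.succ.succ.succ 1).and
    (pK9 hN hY 2 1 k.succ.succ.succ 0))

/-- The elements of the group that correspond to two times a generator. -/
theorem pTw (i j : Fin n) : Pj N fun v : Fin n → ℕ → ℕ =>
    ∃ c ∈ Rls N, GrF (Rls N) (v j) c ∧ K1 (v i) c := by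
  refine Pj.ex (Q := fun c v => GrF (Rls N) (v j) c ∧ K1 (v i) c) ?_
  exact (pGrF hN hY j.succ 0).and (pK1 hN hY i.succ 0)

end pj

end Pool.Agent.Helper71.LR
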