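import Mathlib

/-!
# The coding of finitely supported functions on the reals by reals: the definitions

A real is a function from `ℕ` to `ℕ`. The free abelian group on the reals is `Fr`. Its elements
are coded by functions from `ℕ` to `ℤ` (`evl`) and by reals (`cd`, `dc`).
-/

set_option autoImplicit false

namespace Pool.Agent.Helper71.LR

/-- The free abelian group on the reals. -/
abbrev Fr : Type := (ℕ → ℕ) →₀ ℤ

/-- Eventual equality. -/
def Ev (x y : ℕ → ℕ) : Prop := ∃ m, ∀ n, m ≤ n → x n = y n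

/-- The number of the initial segment of `x` of length `k`. -/
def nseg (x : ℕ → ℕ) (k : ℕ) : ℕ := Encodable.encode (List.ofFn fun i : Fin k => x i)

open Classical in
/-- The function on the numbers of the finite sequences that is one on the numbers of the initial
segments of `x` and zero elsewhere. -/
noncomputable def dlt (x : ℕ → ℕ) (m : ℕ) : ℤ := if ∃ k, m = nseg x k then 1 else 0

/-- The function that is coded by an element of the free group. -/
noncomputable def evl (g : Fr) (m : ℕ) : ℤ := g.sum fun x a => a * dlt x m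

/-- The real that codes a function from `ℕ` to `ℤ`. -/
def cd (f : ℕ → ℤ) (n : ℕ) : ℕ := Equiv.intEquivNat (f n)

/-- The function from `ℕ` to `ℤ` that is coded by a real. -/
def dc (c : ℕ → ℕ) (n : ℕ) : ℤ := Equiv.intEquivNat.symm (c n)

/-- The subgroup of the free group that is generated by the sums of two generators of `S` that are
eventually equal. -/
noncomputable def G0 (S : Set (ℕ → ℕ)) : AddSubgroup Fr :=
  AddSubgroup.closure
    {g | ∃ x ∈ S, ∃ y ∈ S, Ev x y ∧ g = Finsupp.single x 1 + Finsupp.single y 1}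

/-- The shift. -/
def sh (x : ℕ → ℕ) (n : ℕ) : ℕ := x (n + 1)

/-- The sequence `x` with the new first element `a`. -/
def cns (a : ℕ) (x : ℕ → ℕ) : ℕ → ℕ
  | 0 => a
  | n + 1 => x n

/-- The block with the number `i` of the real `w`. -/
def blk (w : ℕ → ℕ) (i n : ℕ) : ℕ := w (1 + Nat.pair i n)

/-- The first real of a block. -/
def bu (d : ℕ → ℕ) (n : ℕ) : ℕ := d (2 + 2 * n)

/-- The second real of a block. -/
def bv (d : ℕ → ℕ) (n : ℕ) : ℕ := d (3 + 2 * n)

/-- The block with the sign `a`, the modulus `b` and the reals `x` and `y`. -/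
def mkd (a b : ℕ) (x y : ℕ → ℕ) (n : ℕ) : ℕ :=
  if n = 0 then a else if n = 1 then b else if n % 2 = 0 then x (n / 2 - 1) else y (n / 2 - 1)

/-- The function that is coded by a block. -/
noncomputable def bval (d : ℕ → ℕ) (s : ℕ) : ℤ :=
  (if d 0 = 0 then 1 else -1) * (dlt (bu d) s + dlt (bv d) s)

/-- The list of blocks `w` with the new block `d`. -/
def app (w d : ℕ → ℕ) (n : ℕ) : ℕ :=
  if n = 0 then w 0 + 1 else if (n - 1).unpair.1 = w 0 then d (n - 1).unpair.2 else w n

/-- The real `t` codes two times the generator `x`. -/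
def K1 (x t : ℕ → ℕ) : Prop := ∀ m, dc t m = 2 * dlt x m

/-- The real `c` codes two times the generator that is obtained from `x` by the subtraction of one
at the first place. -/
def K2 (x c : ℕ → ℕ) : Prop := x 0 ≠ 0 ∧ ∀ m, dc c m = 2 * dlt (cns (x 0 - 1) (sh x)) m

/-- The first value of `x` is zero and `c` is the shift of `x`. -/
def K3 (x c : ℕ → ℕ) : Prop := x 0 = 0 ∧ ∀ n, c n = x (n + 1)

/-- The code `c` is the sum of the codes `a` and `b`. -/
def K4 (a b c : ℕ → ℕ) : Prop := ∀ n, dc a n + dc b n = dc c n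

/-- The list of blocks `w` shows that `t` is the code of an element of the subgroup `G0`. -/
def K7 (t w : ℕ → ℕ) : Prop := (∀ s, dc t s = ∑ i ∈ Finset.range (w 0), bval (blk w i) s) ∧
  ∀ i n, i < w 0 → blk w i 1 ≤ n → bu (blk w i) n = bv (blk w i) n

/-- The comparison of the values at `s` of the elements with the codes `c` and `c'`. -/
def K9 (c c' s r : ℕ → ℕ) : Prop := ∀ m, r 0 ≤ m → dc c (nseg s m) ≤ dc c' (nseg s m)

/-- The strict lexicographic order. -/
def lexlt (x y : ℕ → ℕ) : Prop := ∃ n, (∀ i < n, x i = y i) ∧ x n < y n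

/-- The real `t` is the code of an element of `G0 S` that is not two times a generator. -/
def Qr (S : Set (ℕ → ℕ)) (t : ℕ → ℕ) : Prop := (∃ w ∈ S, K7 t w) ∧ ¬ ∃ y ∈ S, K1 y t

/-- The relation between a real `x` and the code `c` of the element of `G0 S` that corresponds to
it. -/
def GrF (S : Set (ℕ → ℕ)) (x c : ℕ → ℕ) : Prop :=
  (¬ Qr S (sh x) ∧ K1 x c) ∨ (Qr S (sh x) ∧ (K3 x c ∨ K2 x c))

/-- The closure properties of the set `S` of reals. -/
structure Cls (S : Set (ℕ → ℕ)) : Prop where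
  cst : ∀ a : ℕ, (fun _ => a) ∈ S
  sh : ∀ x ∈ S, sh x ∈ S
  cns : ∀ a : ℕ, ∀ x ∈ S, cns a x ∈ S
  cdl : ∀ x ∈ S, cd (dlt x) ∈ S
  add : ∀ x ∈ S, ∀ y ∈ S, cd (fun n => dc x n + dc y n) ∈ S
  neg : ∀ x ∈ S, cd (fun n => - dc x n) ∈ S
  app : ∀ w ∈ S, ∀ d ∈ S, app w d ∈ S
  bu : ∀ w ∈ S, ∀ i : ℕ, bu (blk w i) ∈ S
  bv : ∀ w ∈ S, ∀ i : ℕ, bv (blk w i) ∈ S
  mkd : ∀ a b : ℕ, ∀ x ∈ S, ∀ y ∈ S, mkd a b x y ∈ S

/-! ### The basis of a well-ordered subgroup -/

section basis

variable {G : Type} [AddCommGroup G] (φ : G →+ Fr) (H : AddSubgroup G) {α : Type 1}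
  [LinearOrder α] (f : G → α)

/-- The element `h` of `H` is the first one that has `s` in its support. -/
def Mn (s : ℕ → ℕ) (h : G) : Prop :=
  h ∈ H ∧ φ h s ≠ 0 ∧ ∀ h' ∈ H, φ h' s ≠ 0 → f h ≤ f h'

/-- The order of the points of the supports. -/
def Ltp (s' s : ℕ → ℕ) : Prop :=
  ∃ h' h, Mn φ H f s' h' ∧ Mn φ H f s h ∧ (f h' < f h ∨ (f h' = f h ∧ lexlt s' s))

/-- The point `s` is the last point of the support of `h`. -/
def Ldp (h : G) (s : ℕ → ℕ) : Prop :=
  φ h s ≠ 0 ∧ ∀ s', φ h s' ≠ 0 → s' = s ∨ Ltp φ H f s' s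

/-- The basis. -/
def Bsis : Set G := {b | b ∈ H ∧ ∃ s, Ldp φ H f b s ∧ 0 < φ b s ∧
  ∀ h ∈ H, Ldp φ H f h s → 0 < φ h s → φ b s < φ h s ∨ (φ b s = φ h s ∧ f b ≤ f h)}

end basis

/-! ### The parities of the coefficients -/

section parity

variable {G : Type} [AddCommGroup G] (B : Set G) (KK : Set (Set G))

/-- The submonoid of the elements whose coefficient at `b` is even. -/
def Kcl (b : G) : Set G :=
  (AddSubmonoid.closure ((B \ {b}) ∪ Set.range fun g : G => g + g) : AddSubmonoid G)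

/-- The coefficient of `g` at `b` is odd, expressed by means of the sets in `KK`. -/
def Odc (b g : G) : Prop := b ∈ B ∧ ∃ K ∈ KK, (∀ x ∈ K, ∀ y ∈ K, x + y ∈ K) ∧ B \ {b} ⊆ K ∧
  (∀ x, x + x ∈ K) ∧ g ∉ K

end parity

end Pool.Agent.Helper71.LR
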