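import Pool.Agent.Helper71.LR.Cod

/-!
# The coding of finitely supported functions on the reals by reals: the basic properties
-/

set_option autoImplicit false

namespace Pool.Agent.Helper71.LR

theorem evl_zero (m : ℕ) : evl 0 m = 0 := by
  unfold evl
  exact Finsupp.sum_zero_index

theorem evl_add (g h : Fr) (m : ℕ) : evl (g + h) m = evl g m + evl h m := by
  unfold evl
  exact Finsupp.sum_add_index' (fun _ => zero_mul _) (fun _ _ _ => add_mul _ _ _)

theorem evl_neg (g : Fr) (m : ℕ) : evl (-g) m = - evl g m := by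
  have h := evl_add g (-g) m
  rw [add_neg_cancel, evl_zero] at h
  omega

theorem evl_single (x : ℕ → ℕ) (a : ℤ) (m : ℕ) :
    evl (Finsupp.single x a) m = a * dlt x m := by
  unfold evl
  exact Finsupp.sum_single_index (zero_mul _)

theorem dc_cd (f : ℕ → ℤ) : dc (cd f) = f := by
  funext n
  unfold dc cd
  exact Equiv.symm_apply_apply _ _

theorem cd_dc (c : ℕ → ℕ) : cd (dc c) = c := by
  funext n
  unfold dc cd
  exact Equiv.apply_symm_apply _ _

theorem nseg_inj {x y : ℕ → ℕ} {k l : ℕ} (h : nseg x k = nseg y l) :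
    k = l ∧ ∀ i < k, x i = y i := by
  unfold nseg at h
  have h1 := Encodable.encode_injective h
  have h2 : k = l := by
    have := congrArg List.length h1
    simpa using this
  subst h2
  refine ⟨rfl, fun i hi => ?_⟩
  have h3 := List.ofFn_injective h1
  exact congrFun h3 ⟨i, hi⟩

theorem cod1_dlt_self (s : ℕ → ℕ) (k : ℕ) : dlt s (nseg s k) = 1 := by
  unfold dlt
  rw [if_pos ⟨k, rfl⟩]

theorem cod1_dlt_ne {x s : ℕ → ℕ} {n k : ℕ} (hn : x n ≠ s n) (hk : n < k) :
    dlt x (nseg s k) = 0 := by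
  unfold dlt
  rw [if_neg]
  rintro ⟨l, hl⟩
  exact hn ((nseg_inj hl).2 n hk).symm

theorem evl_lim (g : Fr) (s : ℕ → ℕ) : ∃ k0, ∀ k, k0 ≤ k → evl g (nseg s k) = g s := by
  induction g using Finsupp.induction_linear with
  | zero => exact ⟨0, fun k _ => evl_zero _⟩
  | add f g hf hg =>
    obtain ⟨a, ha⟩ := hf
    obtain ⟨b, hb⟩ := hg
    refine ⟨max a b, fun k hk => ?_⟩
    rw [evl_add, ha k (le_trans (le_max_left _ _) hk), hb k (le_trans (le_max_right _ _) hk),
      Finsupp.add_apply]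
  | single x a =>
    by_cases h : x = s
    · subst h
      refine ⟨0, fun k _ => ?_⟩
      rw [evl_single, cod1_dlt_self, Finsupp.single_eq_same, mul_one]
    · obtain ⟨n, hn⟩ := Function.ne_iff.1 h
      refine ⟨n + 1, fun k hk => ?_⟩
      rw [evl_single, cod1_dlt_ne hn hk, mul_zero, Finsupp.single_eq_of_ne (Ne.symm h)]

theorem evl_injective : Function.Injective evl := by
  intro g g' h
  ext s
  obtain ⟨a, ha⟩ := evl_lim g s
  obtain ⟨b, hb⟩ := evl_lim g' s
  rw [← ha (max a b) (le_max_left _ _), ← hb (max a b) (le_max_right _ _), h]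

theorem K9_iff {S : Set (ℕ → ℕ)} (hS : ∀ a : ℕ, (fun _ => a) ∈ S) {g g' : Fr} {c c' : ℕ → ℕ}
    (h : dc c = evl g) (h' : dc c' = evl g') (s : ℕ → ℕ) :
    (∃ r ∈ S, K9 c c' s r) ↔ g s ≤ g' s := by
  obtain ⟨a, ha⟩ := evl_lim g s
  obtain ⟨b, hb⟩ := evl_lim g' s
  constructor
  · rintro ⟨r, _, hr⟩
    have h1 := hr (max (r 0) (max a b)) (le_max_left _ _)
    rw [h, h', ha _ (le_trans (le_max_left _ _) (le_max_right _ _)),
      hb _ (le_trans (le_max_right _ _) (le_max_right _ _))] at h1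
    exact h1
  · intro h1
    refine ⟨fun _ => max a b, hS _, fun m hm => ?_⟩
    rw [h, h', ha _ (le_trans (le_max_left _ _) hm), hb _ (le_trans (le_max_right _ _) hm)]
    exact h1

theorem K1_iff {x t : ℕ → ℕ} : K1 x t ↔ dc t = evl (Finsupp.single x 2) := by
  constructor
  · intro h
    funext m
    rw [evl_single]
    exact h m
  · intro h m
    rw [h, evl_single]

theorem single_inj2 {x y : ℕ → ℕ} (h : (Finsupp.single x 2 : Fr) = Finsupp.single y 2) :
    x = y :=
  (Finsupp.single_left_inj (by norm_num)).1 h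

/-- the map `evl` as a homomorphism -/
noncomputable def cod1Hom : Fr →+ (ℕ → ℤ) where
  toFun := evl
  map_zero' := by funext m; exact evl_zero m
  map_add' := by intro g h; funext m; exact evl_add g h m

theorem cod1Hom_apply (g : Fr) : cod1Hom g = evl g := rfl

theorem cod1_blk_lt {w d : ℕ → ℕ} {i : ℕ} (hi : i < w 0) : blk (app w d) i = blk w i := by
  funext n
  unfold blk app
  rw [if_neg (by omega), if_neg]
  rw [Nat.add_sub_cancel_left, Nat.unpair_pair]
  exact hi.ne

theorem cod1_blk_eq {w d : ℕ → ℕ} : blk (app w d) (w 0) = d := by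
  funext n
  unfold blk app
  rw [if_neg (by omega), Nat.add_sub_cancel_left, Nat.unpair_pair, if_pos rfl]

theorem cod1_app_zero {w d : ℕ → ℕ} : app w d 0 = w 0 + 1 := by
  unfold app
  rw [if_pos rfl]

theorem cod1_bu_mkd {a b : ℕ} {x y : ℕ → ℕ} : bu (mkd a b x y) = x := by
  funext n
  unfold bu mkd
  rw [if_neg (by omega), if_neg (by omega), if_pos (by omega)]
  congr 1
  omega

theorem cod1_bv_mkd {a b : ℕ} {x y : ℕ → ℕ} : bv (mkd a b x y) = y := by
  funext n
  unfold bv mkd
  rw [if_neg (by omega), if_neg (by omega), if_neg (by omega)]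
  congr 1
  omega

theorem cod1_mkd_zero {a b : ℕ} {x y : ℕ → ℕ} : mkd a b x y 0 = a := by
  unfold mkd
  rw [if_pos rfl]

theorem cod1_mkd_one {a b : ℕ} {x y : ℕ → ℕ} : mkd a b x y 1 = b := by
  unfold mkd
  rw [if_neg (by omega), if_pos rfl]

/-- the list of blocks `w` shows that `f` is the function of an element of `G0` -/
def Cod1L (f : ℕ → ℤ) (w : ℕ → ℕ) : Prop :=
  (∀ s, f s = ∑ i ∈ Finset.range (w 0), bval (blk w i) s) ∧
  ∀ i n, i < w 0 → blk w i 1 ≤ n → bu (blk w i) n = bv (blk w i) n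

theorem cod1_step {f : ℕ → ℤ} {w x y : ℕ → ℕ} (h : Cod1L f w) (a m : ℕ)
    (hm : ∀ n, m ≤ n → x n = y n) :
    Cod1L (fun s => f s + (if a = 0 then 1 else -1) * (dlt x s + dlt y s))
      (app w (mkd a m x y)) := by
  constructor
  · intro s
    show f s + (if a = 0 then 1 else -1) * (dlt x s + dlt y s) = _
    rw [cod1_app_zero, Finset.sum_range_succ, cod1_blk_eq, h.1 s]
    congr 1
    · refine Finset.sum_congr rfl fun i hi => ?_
      rw [cod1_blk_lt (Finset.mem_range.1 hi)]
    · unfold bval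
      rw [cod1_mkd_zero, cod1_bu_mkd, cod1_bv_mkd]
  · intro i n hi hn
    rw [cod1_app_zero] at hi
    rcases Nat.lt_succ_iff_lt_or_eq.1 hi with h1 | h1
    · rw [cod1_blk_lt h1] at hn ⊢
      exact h.2 i n h1 hn
    · subst h1
      rw [cod1_blk_eq, cod1_mkd_one] at hn
      rw [cod1_blk_eq, cod1_bu_mkd, cod1_bv_mkd]
      exact hm n hn

theorem cod1_list {S : Set (ℕ → ℕ)} (hS : Cls S) {g : Fr} (hg : g ∈ G0 S) :
    ∃ w ∈ S, Cod1L (evl g) w := by
  unfold G0 at hg
  induction hg using AddSubgroup.closure_induction_right with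
  | zero =>
    refine ⟨fun _ => 0, hS.cst 0, ?_, ?_⟩
    · intro s
      rw [evl_zero]
      simp
    · intro i n hi
      exact absurd hi (Nat.not_lt_zero _)
  | add_right g hg h hh ih =>
    obtain ⟨w, hw, hwL⟩ := ih
    obtain ⟨x, hx, y, hy, ⟨m, hm⟩, rfl⟩ := hh
    refine ⟨_, hS.app w hw _ (hS.mkd 0 m x hx y hy), ?_⟩
    have h1 := cod1_step hwL 0 m hm
    convert h1 using 1
    funext s
    rw [evl_add, evl_add, evl_single, evl_single, if_pos rfl]
    ring
  | add_neg_cancel g hg h hh ih =>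
    obtain ⟨w, hw, hwL⟩ := ih
    obtain ⟨x, hx, y, hy, ⟨m, hm⟩, rfl⟩ := hh
    refine ⟨_, hS.app w hw _ (hS.mkd 1 m x hx y hy), ?_⟩
    have h1 := cod1_step hwL 1 m hm
    convert h1 using 1
    funext s
    rw [evl_add, evl_neg, evl_add, evl_single, evl_single, if_neg one_ne_zero]
    ring

theorem K7_iff {S : Set (ℕ → ℕ)} (hS : Cls S) (t : ℕ → ℕ) :
    (∃ w ∈ S, K7 t w) ↔ ∃ g ∈ G0 S, dc t = evl g := by
  constructor
  · rintro ⟨w, hw, h1, h2⟩
    refine ⟨∑ i ∈ Finset.range (w 0), (if blk w i 0 = 0 then (1 : ℤ) else -1) •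
      (Finsupp.single (bu (blk w i)) 1 + Finsupp.single (bv (blk w i)) 1), ?_, ?_⟩
    · refine AddSubgroup.sum_mem _ fun i hi => AddSubgroup.zsmul_mem _ ?_ _
      exact AddSubgroup.subset_closure ⟨_, hS.bu w hw i, _, hS.bv w hw i,
        ⟨blk w i 1, fun n hn => h2 i n (Finset.mem_range.1 hi) hn⟩, rfl⟩
    · funext s
      rw [h1 s, ← cod1Hom_apply, map_sum, Finset.sum_apply]
      refine Finset.sum_congr rfl fun i _ => ?_
      rw [map_zsmul, map_add, Pi.smul_apply, Pi.add_apply, cod1Hom_apply, cod1Hom_apply,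
        evl_single, evl_single, smul_eq_mul]
      unfold bval
      ring
  · rintro ⟨g, hg, h⟩
    obtain ⟨w, hw, h1⟩ := cod1_list hS hg
    refine ⟨w, hw, ?_⟩
    rw [← h] at h1
    exact h1

theorem code_mem {S : Set (ℕ → ℕ)} (hS : Cls S) {g : Fr} (hg : g ∈ G0 S) :
    cd (evl g) ∈ S := by
  unfold G0 at hg
  induction hg using AddSubgroup.closure_induction with
  | mem g hg =>
    obtain ⟨x, hx, y, hy, _, rfl⟩ := hg
    have h1 := hS.add _ (hS.cdl x hx) _ (hS.cdl y hy)
    rw [dc_cd, dc_cd] at h1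
    convert h1 using 2
    funext s
    rw [evl_add, evl_single, evl_single, one_mul, one_mul]
  | zero =>
    have h1 : cd (evl 0) = fun _ => Equiv.intEquivNat 0 := by
      funext n
      unfold cd
      rw [evl_zero]
    rw [h1]
    exact hS.cst _
  | add g h _ _ hg hh =>
    have h1 := hS.add _ hg _ hh
    rw [dc_cd, dc_cd] at h1
    convert h1 using 2
    funext s
    exact evl_add g h s
  | neg g _ hg =>
    have h1 := hS.neg _ hg
    rw [dc_cd] at h1
    convert h1 using 2
    funext s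
    exact evl_neg g s

end Pool.Agent.Helper71.LR
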