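import Pool.Agent.W868.GDefs
import Pool.Agent.H158_PC.Defs

/-!
# Projective abelian groups on the reals in `L(ℝ)`: the definitions

Everything takes place inside the type `ZFSet.{0}` of all sets. A set `M : Set ZFSet.{0}` is viewed
as the structure `(M, ∈)`. Transitive models of ZF and ZFC (`IsZF`, `IsZFC`), the natural numbers
as sets (`nat`), injective functions (`IsInj`) and the alephs of a model (`IsAleph`) are the ones of
`Pool.Agent.W868.Defs` and `Pool.Agent.W868.GDefs`. A real is a function from `ℕ` to `ℕ`, it is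
viewed as the set `code x` of pairs; `Rls M` is the set of the reals of `M`
(`Pool.Agent.H158_PC.Defs`).
-/

set_option autoImplicit false

namespace Pool.Agent.Helper71.LR

open ZFSet (pair)
open Pool.Agent.W868 (IsZF IsZFC IsAleph IsInj nat)
open Pool.Agent.H158_PC (code rs Rls)

/-- `N` is the inner model `L(ℝ)` of `W`: the smallest transitive model of ZF that is contained in
`W` and contains all ordinals and all reals of `W`. -/
structure IsLR (W N : Set ZFSet.{0}) : Prop where
  zf : IsZF N
  sub : N ⊆ W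
  ord : ∀ x ∈ W, x.IsOrdinal → x ∈ N
  rls : Rls W ⊆ Rls N
  least : ∀ N' : Set ZFSet.{0}, IsZF N' → N' ⊆ W → (∀ x ∈ W, x.IsOrdinal → x ∈ N') →
    Rls W ⊆ Rls N' → N ⊆ N'

/-- The tuple of the restrictions of the reals `x 0, ..., x (n - 1)` to `{0, ..., k - 1}`. -/
noncomputable def rst (k : ℕ) : {n : ℕ} → (Fin n → ℕ → ℕ) → ZFSet.{0}
  | 0, _ => ∅
  | _ + 1, x => pair (rs (x 0) k) (rst k (Fin.tail x))

/-- The projective sets of `M`, as sets of `n`-tuples of reals: the smallest family of sets that
contains the closed sets that are given by trees in `M`, and is closed under complements,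
intersections, projections along the reals of `M`, and substitutions of variables. -/
inductive Prj (M : Set ZFSet.{0}) : {n : ℕ} → Set (Fin n → ℕ → ℕ) → Prop
  | closed {n : ℕ} (T : ZFSet.{0}) (hT : T ∈ M) :
      Prj M {x : Fin n → ℕ → ℕ | (∀ i, x i ∈ Rls M) ∧ ∀ k, rst k x ∈ T}
  | compl {n : ℕ} {A : Set (Fin n → ℕ → ℕ)} (hA : Prj M A) :
      Prj M {x | (∀ i, x i ∈ Rls M) ∧ x ∉ A}
  | inter {n : ℕ} {A B : Set (Fin n → ℕ → ℕ)} (hA : Prj M A) (hB : Prj M B) : Prj M (A ∩ B)
  | proj {n : ℕ} {A : Set (Fin (n + 1) → ℕ → ℕ)} (hA : Prj M A) :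
      Prj M {x : Fin n → ℕ → ℕ | ∃ y ∈ Rls M, (Fin.cons y x : Fin (n + 1) → ℕ → ℕ) ∈ A}
  | subst {n m : ℕ} (ρ : Fin n → Fin m) {A : Set (Fin n → ℕ → ℕ)} (hA : Prj M A) :
      Prj M {x : Fin m → ℕ → ℕ | (∀ i, x i ∈ Rls M) ∧ (fun i => x (ρ i)) ∈ A}

/-- A set of reals, as a set of sets. -/
noncomputable def cset (S : Set (ℕ → ℕ)) : ZFSet.{0} := ZFSet.range fun x : S => code x.1

variable {M : Set ZFSet.{0}}

/-- The graph of the addition of a group whose underlying set is the set of all reals of `M`. -/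
def grp (G : AddCommGroup (Rls M)) : Set (Fin 3 → ℕ → ℕ) :=
  {x | ∃ a b : Rls M, x 0 = a.1 ∧ x 1 = b.1 ∧ x 2 = (a + b).1}

/-- The reals in a set `H` of elements of the group, as a set of sets. -/
noncomputable def gset (H : Set (Rls M)) : ZFSet.{0} := cset (Subtype.val '' H)

/-- In `M`, the subgroup `H` is free: there is in `M` a basis `B` of `H`, that is, a linearly
independent set that generates `H`. -/
def FreeIn (G : AddCommGroup (Rls M)) (H : AddSubgroup (Rls M)) : Prop :=
  ∃ B : Set (Rls M), gset B ∈ M ∧ LinearIndependent ℤ (fun b : B => (b.1 : Rls M)) ∧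
    AddSubgroup.closure B = H

/-- In `M`, the set `H` has cardinality less than `ℵ_ω`: there is in `M` an injective function
from `H` to some `ℵ_n`, where `n` is a natural number. -/
def SmallIn (M : Set ZFSet.{0}) (H : Set (Rls M)) : Prop :=
  ∃ (n : ℕ) (κ : ZFSet.{0}), IsAleph M (nat n) κ ∧ ∃ f ∈ M, IsInj (gset H) κ f

/-- In `M`, the group `G` on the reals is `ℵ_ω`-free: every subgroup in `M` of cardinality less
than `ℵ_ω` is free. -/
def OmegaFreeIn (G : AddCommGroup (Rls M)) : Prop :=
  ∀ H : AddSubgroup (Rls M), gset (H : Set (Rls M)) ∈ M → SmallIn M (H : Set (Rls M)) → FreeIn G H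

/-- The statement `S_(d)`, interpreted in `M`: every abelian group on the reals with a projective
graph that is `ℵ_ω`-free is free. -/
def SD (M : Set ZFSet.{0}) : Prop :=
  ∀ G : AddCommGroup (Rls M), Prj M (grp G) → OmegaFreeIn G → FreeIn G ⊤

end Pool.Agent.Helper71.LR
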