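import Pool.Agent.Helper71.LR.Grz

/-!
# The well-ordered subgroups of the group are free in the model
-/

set_option autoImplicit false
set_option linter.unreachableTactic false
set_option linter.unusedTactic false
set_option linter.unusedSectionVars false

namespace Pool.Agent.Helper71.LR

open Pool.Agent.W868 Pool.Agent.Y588 Pool.Agent.H158_PC
open ZFSet (pair)

section defs

variable (N : Set ZFSet.{0}) (Hz fz o : ZFSet.{0})

/-- The value of `h` at `s` is not zero. -/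
def nzz (s h : ZFSet.{0}) : Prop := ¬ (Cz (PL N) ![h, o, s] ∧ Cz (PL N) ![o, h, s])

/-- `h` is the first element with `s` in the support. -/
def Mnz (s h : ZFSet.{0}) : Prop :=
  h ∈ Hz ∧ nzz N o s h ∧ ∀ h' ∈ Hz, nzz N o s h' → ¬ ap fz h' ∈ ap fz h

/-- The order of the points. -/
def Ltz (s' s : ZFSet.{0}) : Prop := ∃ h' ∈ Hz, ∃ h ∈ Hz, Mnz N Hz fz o s' h' ∧
  Mnz N Hz fz o s h ∧ (ap fz h' ∈ ap fz h ∨ (ap fz h' = ap fz h ∧
    Cz (fun v : Fin 2 → ℕ → ℕ => lexlt (v 0) (v 1)) ![s', s]))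

/-- The last point of the support. -/
def Ldz (h s : ZFSet.{0}) : Prop :=
  nzz N o s h ∧ ∀ s' ∈ Rz N, nzz N o s' h → s' = s ∨ Ltz N Hz fz o s' s

/-- The elements of the basis. -/
def Bsz (b : ZFSet.{0}) : Prop := b ∈ Hz ∧ ∃ s ∈ Rz N, Ldz N Hz fz o b s ∧
  ¬ Cz (PL N) ![b, o, s] ∧ ∀ h ∈ Hz, Ldz N Hz fz o h s → ¬ Cz (PL N) ![h, o, s] →
    ¬ Cz (PL N) ![h, b, s] ∨ ((Cz (PL N) ![b, h, s] ∧ Cz (PL N) ![h, b, s]) ∧
      ¬ ap fz h ∈ ap fz b)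

end defs

section dfn

variable {N : Set ZFSet.{0}} (hN : IsZF N) (hY : ∀ j, Yt j ∈ N) {Hz fz o : ZFSet.{0}}
  (hH : Hz ∈ N) (hf : fz ∈ N) (ho : o ∈ N) {m : ℕ} {F G : (Fin m → ZFSet.{0}) → ZFSet.{0}}
  (hF : DfnF N N F) (hG : DfnF N N G)

theorem pj_PL {N : Set ZFSet.{0}} (hN : IsZF N) (hY : ∀ j, Yt j ∈ N) : Pj N (PL N) :=
  pLE hN hY (0 : Fin 3) 1 2

theorem pj_PA {N : Set ZFSet.{0}} (hN : IsZF N) (hY : ∀ j, Yt j ∈ N) : Pj N (PA N) :=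
  pAdd hN hY (0 : Fin 3) 1 2

theorem pj_PT {N : Set ZFSet.{0}} (hN : IsZF N) (hY : ∀ j, Yt j ∈ N) : Pj N (PT N) :=
  pTw hN hY (0 : Fin 2) 1

include hN hY hF hG

theorem dfn_nzz (ho : o ∈ N) : Dfn N N fun v => nzz N o (F v) (G v) :=
  ((dfn_cz3 hN (pj_PL hN hY) hG (DfnF.const ho) hF).and
    (dfn_cz3 hN (pj_PL hN hY) (DfnF.const ho) hG hF)).not

include hH hf ho

theorem dfn_Mnz : Dfn N N fun v => Mnz N Hz fz o (F v) (G v) := by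
  refine (Dfn.mem hG (DfnF.const hH)).and ((dfn_nzz hN hY hF hG ho).and ?_)
  refine hN.base.ball (Q := fun h' v => nzz N o (F v) h' → ¬ ap fz h' ∈ ap fz (G v))
    (DfnF.const hH) ?_
  refine (dfn_nzz hN hY hF.tail (DfnF.proj 0) ho).imp (Dfn.not ?_)
  exact Dfn.mem (hN.ap' (DfnF.const hf) (DfnF.proj 0)) (hN.ap' (DfnF.const hf) hG.tail)

theorem dfn_Ltz : Dfn N N fun v => Ltz N Hz fz o (F v) (G v) := by
  refine hN.base.bex (Q := fun h' v => ∃ h ∈ Hz, Mnz N Hz fz o (F v) h' ∧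
    Mnz N Hz fz o (G v) h ∧ (ap fz h' ∈ ap fz h ∨ (ap fz h' = ap fz h ∧
    Cz (fun v : Fin 2 → ℕ → ℕ => lexlt (v 0) (v 1)) ![F v, G v]))) (DfnF.const hH) ?_
  refine hN.base.bex (Q := fun h (v : Fin (m + 1) → ZFSet.{0}) =>
    Mnz N Hz fz o (F (Fin.tail v)) (v 0) ∧
    Mnz N Hz fz o (G (Fin.tail v)) h ∧ (ap fz (v 0) ∈ ap fz h ∨ (ap fz (v 0) = ap fz h ∧
    Cz (fun v : Fin 2 → ℕ → ℕ => lexlt (v 0) (v 1)) ![F (Fin.tail v), G (Fin.tail v)])))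
    (DfnF.const hH) ?_
  refine (dfn_Mnz hN hY hH hf ho hF.tail.tail (DfnF.proj 1)).and
    ((dfn_Mnz hN hY hH hf ho hG.tail.tail (DfnF.proj 0)).and (Dfn.or ?_ (Dfn.and ?_ ?_)))
  · exact Dfn.mem (hN.ap' (DfnF.const hf) (DfnF.proj 1)) (hN.ap' (DfnF.const hf) (DfnF.proj 0))
  · exact Dfn.eq (hN.ap' (DfnF.const hf) (DfnF.proj 1)) (hN.ap' (DfnF.const hf) (DfnF.proj 0))
  · exact dfn_cz2 hN (pLex hN hY (0 : Fin 2) 1) hF.tail.tail hG.tail.tail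

theorem dfn_Ldz : Dfn N N fun v => Ldz N Hz fz o (F v) (G v) := by
  refine (dfn_nzz hN hY hG hF ho).and ?_
  refine hN.base.ball (Q := fun s' v => nzz N o s' (F v) → s' = G v ∨ Ltz N Hz fz o s' (G v))
    (DfnF.const (Rz_mem hN)) ?_
  refine (dfn_nzz hN hY (DfnF.proj 0) hF.tail ho).imp (Dfn.or ?_ ?_)
  · exact Dfn.eq (DfnF.proj 0) hG.tail
  · exact dfn_Ltz hN hY hH hf ho (DfnF.proj 0) hG.tail

omit hG in
theorem dfn_Bsz : Dfn N N fun v => Bsz N Hz fz o (F v) := by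
  refine (Dfn.mem hF (DfnF.const hH)).and ?_
  refine hN.base.bex (Q := fun s v => Ldz N Hz fz o (F v) s ∧
    ¬ Cz (PL N) ![F v, o, s] ∧ ∀ h ∈ Hz, Ldz N Hz fz o h s → ¬ Cz (PL N) ![h, o, s] →
    ¬ Cz (PL N) ![h, F v, s] ∨ ((Cz (PL N) ![F v, h, s] ∧ Cz (PL N) ![h, F v, s]) ∧
      ¬ ap fz h ∈ ap fz (F v))) (DfnF.const (Rz_mem hN)) ?_
  refine (dfn_Ldz hN hY hH hf ho hF.tail (DfnF.proj 0)).and
    ((dfn_cz3 hN (pj_PL hN hY) hF.tail (DfnF.const ho) (DfnF.proj 0)).not.and ?_)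
  refine hN.base.ball (Q := fun h (v : Fin (m + 1) → ZFSet.{0}) =>
    Ldz N Hz fz o h (v 0) → ¬ Cz (PL N) ![h, o, v 0] →
    ¬ Cz (PL N) ![h, F (Fin.tail v), v 0] ∨ ((Cz (PL N) ![F (Fin.tail v), h, v 0] ∧
      Cz (PL N) ![h, F (Fin.tail v), v 0]) ∧ ¬ ap fz h ∈ ap fz (F (Fin.tail v))))
    (DfnF.const hH) ?_
  refine (dfn_Ldz hN hY hH hf ho (DfnF.proj 0) (DfnF.proj 1)).imp
    ((dfn_cz3 hN (pj_PL hN hY) (DfnF.proj 0) (DfnF.const ho) (DfnF.proj 1)).not.imp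
    (Dfn.or ?_ (Dfn.and (Dfn.and ?_ ?_) (Dfn.not ?_))))
  · exact (dfn_cz3 hN (pj_PL hN hY) (DfnF.proj 0) hF.tail.tail (DfnF.proj 1)).not
  · exact dfn_cz3 hN (pj_PL hN hY) hF.tail.tail (DfnF.proj 0) (DfnF.proj 1)
  · exact dfn_cz3 hN (pj_PL hN hY) (DfnF.proj 0) hF.tail.tail (DfnF.proj 1)
  · exact Dfn.mem (hN.ap' (DfnF.const hf) (DfnF.proj 0)) (hN.ap' (DfnF.const hf) hF.tail.tail)

end dfn

section free

variable {N : Set ZFSet.{0}} (hN : IsZF N) (hY : ∀ j, Yt j ∈ N) [hG : AddCommGroup (Rls N)]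
  (e : Rls N ≃+ G0 (Rls N))
  (he : ∀ (x : Rls N) (c : ℕ → ℕ), c ∈ Rls N →
    (dc c = evl ((e x : G0 (Rls N)) : Fr) ↔ GrF (Rls N) x c))

/-- The embedding of the group into the free group. -/
noncomputable def phi {N : Set ZFSet.{0}} [AddCommGroup (Rls N)] (e : Rls N ≃+ G0 (Rls N)) : Rls N →+ Fr :=
  (G0 (Rls N)).subtype.comp e.toAddMonoidHom

theorem phi_apply {N : Set ZFSet.{0}} [AddCommGroup (Rls N)] (e : Rls N ≃+ G0 (Rls N))
    (x : Rls N) : phi e x = ((e x : G0 (Rls N)) : Fr) := rfl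

theorem phi_inj {N : Set ZFSet.{0}} [AddCommGroup (Rls N)] (e : Rls N ≃+ G0 (Rls N)) :
    Function.Injective (phi e) := fun _ _ h => e.injective (Subtype.ext h)

variable (H : AddSubgroup (Rls N)) (fz : ZFSet.{0})

/-- The order of the elements. -/
noncomputable def fo {N : Set ZFSet.{0}} (fz : ZFSet.{0}) (x : Rls N) : Ordinal.{0} :=
  (ap fz (code x.1)).rank

include hN hY he

theorem nzz_iff {s : ℕ → ℕ} (h : Rls N) :
    nzz N (code (0 : Rls N).1) (code s) (code h.1) ↔ phi e h s ≠ 0 := by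
  unfold nzz
  rw [cz3, cz3, PL_iff hN hY e he h.2 (0 : Rls N).2, PL_iff hN hY e he (0 : Rls N).2 h.2]
  have h0 : ((e ⟨(0 : Rls N).1, (0 : Rls N).2⟩ : G0 (Rls N)) : Fr) = 0 := by
    show ((e 0 : G0 (Rls N)) : Fr) = 0
    rw [map_zero]
    rfl
  rw [h0, phi_apply]
  show ¬ (((e h : G0 (Rls N)) : Fr) s ≤ (0 : ℤ) ∧ (0 : ℤ) ≤ ((e h : G0 (Rls N)) : Fr) s) ↔ _
  omega

theorem pos_iff {s : ℕ → ℕ} (h : Rls N) :
    ¬ Cz (PL N) ![code h.1, code (0 : Rls N).1, code s] ↔ 0 < phi e h s := by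
  rw [cz3, PL_iff hN hY e he h.2 (0 : Rls N).2]
  have h0 : ((e ⟨(0 : Rls N).1, (0 : Rls N).2⟩ : G0 (Rls N)) : Fr) = 0 := by
    show ((e 0 : G0 (Rls N)) : Fr) = 0
    rw [map_zero]
    rfl
  rw [h0, phi_apply]
  show ¬ (((e h : G0 (Rls N)) : Fr) s ≤ (0 : ℤ)) ↔ _
  omega

theorem le_iff' {s : ℕ → ℕ} (g h : Rls N) :
    Cz (PL N) ![code g.1, code h.1, code s] ↔ phi e g s ≤ phi e h s := by
  rw [cz3, PL_iff hN hY e he g.2 h.2]
  rfl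

variable {κ : ZFSet.{0}} (hκ : κ.IsOrdinal) (hf : IsInj (gset (H : Set (Rls N))) κ fz)

include hκ hf

omit hN hY he in
theorem ap_ord {h : Rls N} (hh : h ∈ H) : (ap fz (code h.1)).IsOrdinal := by
  obtain ⟨b, hb, h1⟩ := fun_exists hf.1 (code_mem_gset.2 hh)
  rw [ap_func hf.1 h1]
  exact hκ.mem hb

omit hN hY he in
theorem fo_lt {g h : Rls N} (hg : g ∈ H) (hh : h ∈ H) :
    fo fz g < fo fz h ↔ ap fz (code g.1) ∈ ap fz (code h.1) :=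
  (ap_ord H fz hκ hf hg).rank_lt_iff_mem (ap_ord H fz hκ hf hh)

omit hN hY he in
theorem fo_le {g h : Rls N} (hg : g ∈ H) (hh : h ∈ H) :
    fo fz g ≤ fo fz h ↔ ¬ ap fz (code h.1) ∈ ap fz (code g.1) := by
  rw [← fo_lt H fz hκ hf hh hg, not_lt]

omit hN hY he in
theorem fo_eq {g h : Rls N} (hg : g ∈ H) (hh : h ∈ H) :
    fo fz g = fo fz h ↔ ap fz (code g.1) = ap fz (code h.1) := by
  constructor
  · intro h1
    have h2 := (ap_ord H fz hκ hf hg).toZFSet_rank_eq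
    have h3 := (ap_ord H fz hκ hf hh).toZFSet_rank_eq
    rw [← h2, ← h3]
    exact congrArg Ordinal.toZFSet h1
  · intro h1
    unfold fo
    rw [h1]

omit hN hY he in
theorem fo_inj : Set.InjOn (fo fz) (H : Set (Rls N)) := by
  intro g hg h hh h1
  have h2 := (fo_eq H fz hκ hf hg hh).1 h1
  obtain ⟨b, hb, h3⟩ := fun_exists hf.1 (code_mem_gset.2 hg)
  obtain ⟨c, hc, h4⟩ := fun_exists hf.1 (code_mem_gset.2 hh)
  rw [ap_func hf.1 h3, ap_func hf.1 h4] at h2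
  subst h2
  exact Subtype.ext (code_inj (hf.2 _ _ _ h3 h4))

theorem Mnz_iff {s : ℕ → ℕ} (h : Rls N) :
    Mnz N (gset (H : Set (Rls N))) fz (code (0 : Rls N).1) (code s) (code h.1) ↔
      Mn (phi e) H (fo fz) s h := by
  unfold Mnz Mn
  rw [code_mem_gset, nzz_iff hN hY e he]
  refine and_congr_right fun hh => and_congr_right fun _ => ?_
  constructor
  · intro h1 h' hh' h2
    exact (fo_le H fz hκ hf hh hh').2 (h1 _ (code_mem_gset.2 hh') ((nzz_iff hN hY e he h').2 h2))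
  · intro h1 z hz h2
    obtain ⟨h', hh', rfl⟩ := mem_gset.1 hz
    exact (fo_le H fz hκ hf hh hh').1 (h1 h' hh' ((nzz_iff hN hY e he h').1 h2))

theorem Ltz_iff {s' s : ℕ → ℕ} :
    Ltz N (gset (H : Set (Rls N))) fz (code (0 : Rls N).1) (code s') (code s) ↔
      Ltp (phi e) H (fo fz) s' s := by
  unfold Ltz Ltp
  rw [cz2]
  constructor
  · rintro ⟨z', hz', z, hz, h1, h2, h3⟩
    obtain ⟨h', hh', rfl⟩ := mem_gset.1 hz'
    obtain ⟨h, hh, rfl⟩ := mem_gset.1 hz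
    refine ⟨h', h, (Mnz_iff hN hY e he H fz hκ hf h').1 h1,
      (Mnz_iff hN hY e he H fz hκ hf h).1 h2, ?_⟩
    rw [fo_lt H fz hκ hf hh' hh, fo_eq H fz hκ hf hh' hh]
    exact h3
  · rintro ⟨h', h, h1, h2, h3⟩
    rw [fo_lt H fz hκ hf h1.1 h2.1, fo_eq H fz hκ hf h1.1 h2.1] at h3
    exact ⟨_, code_mem_gset.2 h1.1, _, code_mem_gset.2 h2.1,
      (Mnz_iff hN hY e he H fz hκ hf h').2 h1, (Mnz_iff hN hY e he H fz hκ hf h).2 h2, h3⟩

theorem Ldz_iff {s : ℕ → ℕ} (h : Rls N) :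
    Ldz N (gset (H : Set (Rls N))) fz (code (0 : Rls N).1) (code h.1) (code s) ↔
      Ldp (phi e) H (fo fz) h s := by
  unfold Ldz Ldp
  rw [nzz_iff hN hY e he]
  refine and_congr_right fun _ => ?_
  constructor
  · intro h1 s' h2
    have h3 : s' ∈ Rls N := G0_supp (e h).2 h2
    rcases h1 _ (mem_Rz.2 ⟨s', h3, rfl⟩) ((nzz_iff hN hY e he h).2 h2) with h4 | h4
    · exact Or.inl (code_inj h4)
    · exact Or.inr ((Ltz_iff hN hY e he H fz hκ hf).1 h4)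
  · intro h1 z hz h2
    obtain ⟨s', hs', rfl⟩ := mem_Rz.1 hz
    rcases h1 s' ((nzz_iff hN hY e he h).1 h2) with h4 | h4
    · exact Or.inl (h4 ▸ rfl)
    · exact Or.inr ((Ltz_iff hN hY e he H fz hκ hf).2 h4)

theorem Bsz_iff (b : Rls N) :
    Bsz N (gset (H : Set (Rls N))) fz (code (0 : Rls N).1) (code b.1) ↔
      b ∈ Bsis (phi e) H (fo fz) := by
  show _ ↔ b ∈ H ∧ ∃ s, Ldp (phi e) H (fo fz) b s ∧ 0 < phi e b s ∧
    ∀ h ∈ H, Ldp (phi e) H (fo fz) h s → 0 < phi e h s →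
      phi e b s < phi e h s ∨ (phi e b s = phi e h s ∧ fo fz b ≤ fo fz h)
  unfold Bsz
  rw [code_mem_gset]
  refine and_congr_right fun hb => ?_
  constructor
  · rintro ⟨z, hz, h1, h2, h3⟩
    obtain ⟨s, hs, rfl⟩ := mem_Rz.1 hz
    refine ⟨s, (Ldz_iff hN hY e he H fz hκ hf b).1 h1, (pos_iff hN hY e he b).1 h2, ?_⟩
    intro h hh h4 h5
    have h6 := h3 _ (code_mem_gset.2 hh) ((Ldz_iff hN hY e he H fz hκ hf h).2 h4)
      ((pos_iff hN hY e he h).2 h5)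
    rw [le_iff' hN hY e he, le_iff' hN hY e he, ← fo_le H fz hκ hf hb hh] at h6
    rcases h6 with h6 | ⟨⟨h6, h7⟩, h8⟩
    · exact Or.inl (not_le.1 h6)
    · exact Or.inr ⟨le_antisymm h6 h7, h8⟩
  · rintro ⟨s, h1, h2, h3⟩
    have hs : s ∈ Rls N := G0_supp (e b).2 h1.1
    refine ⟨_, mem_Rz.2 ⟨s, hs, rfl⟩, (Ldz_iff hN hY e he H fz hκ hf b).2 h1,
      (pos_iff hN hY e he b).2 h2, ?_⟩
    intro z hz h4 h5
    obtain ⟨h, hh, rfl⟩ := mem_gset.1 hz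
    have h6 := h3 h hh ((Ldz_iff hN hY e he H fz hκ hf h).1 h4) ((pos_iff hN hY e he h).1 h5)
    rw [le_iff' hN hY e he, le_iff' hN hY e he, ← fo_le H fz hκ hf hb hh]
    rcases h6 with h6 | ⟨h6, h7⟩
    · exact Or.inl (not_le.2 h6)
    · exact Or.inr ⟨⟨h6.le, h6.ge⟩, h7⟩

/-- The subgroup is free in the model. -/
theorem freeIn_of_inj (hH : gset (H : Set (Rls N)) ∈ N) (hfN : fz ∈ N) : FreeIn hG H := by
  obtain ⟨h1, h2⟩ := bsis_basis (phi e) (phi_inj e) H (fo fz) (fo_inj H fz hκ hf)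
  refine ⟨Bsis (phi e) H (fo fz), ?_, h1, h2⟩
  have ho : code (0 : Rls N).1 ∈ N := (0 : Rls N).2
  have h3 : gset (Bsis (phi e) H (fo fz)) = ZFSet.sep (fun z =>
      Bsz N (gset (H : Set (Rls N))) fz (code (0 : Rls N).1) z) (gset (H : Set (Rls N))) := by
    ext z
    rw [ZFSet.mem_sep, mem_gset]
    constructor
    · rintro ⟨b, hb, rfl⟩
      exact ⟨code_mem_gset.2 hb.1, (Bsz_iff hN hY e he H fz hκ hf b).2 hb⟩
    · rintro ⟨hz, h4⟩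
      obtain ⟨b, hb, rfl⟩ := mem_gset.1 hz
      exact ⟨b, (Bsz_iff hN hY e he H fz hκ hf b).1 h4, rfl⟩
  rw [h3]
  exact hN.sep_mem (dfn_Bsz hN hY hH hfN ho (DfnF.proj 0)) hH

omit hκ hf in
/-- The group is `ℵ_ω`-free in the model. -/
theorem omegaFree : OmegaFreeIn hG := by
  intro H hH hs
  obtain ⟨n, κ, hκ, f, hfN, hf⟩ := hs
  exact freeIn_of_inj hN hY e he H f hκ.1.1.2.1 hf hH hfN

end free

end Pool.Agent.Helper71.LR
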