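import Pool.Agent.Helper71.LR.Real
import Pool.Agent.H158_PC.Zf
import Pool.Agent.H158_PC.Cn

/-!
# The notion of forcing that adds many Cohen reals, and its automorphisms
-/

set_option autoImplicit false
set_option linter.unreachableTactic false
set_option linter.unusedTactic false
set_option linter.unusedSectionVars false

namespace Pool.Agent.Helper71.LR

open Pool.Agent.W868 Pool.Agent.W868.GM Pool.Agent.Y588 Pool.Agent.H158_PC
open Pool.Agent.H158_PC.AM (SymSys act Sy HS Sn Nm mem_act)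
open ZFSet (pair)

/-! ### Finite sets -/

/-- The set `a` is finite. -/
def Fi (a : ZFSet.{0}) : Prop := {z | z ∈ a}.Finite

theorem fi_empty : Fi ∅ := by
  have h : {z : ZFSet.{0} | z ∈ (∅ : ZFSet.{0})} = ∅ := by
    ext z
    simp
  unfold Fi
  rw [h]
  exact Set.finite_empty

theorem Fi.subset {a b : ZFSet.{0}} (h : Fi b) (hab : a ⊆ b) : Fi a :=
  Set.Finite.subset h fun _ hz => hab hz

theorem Fi.union {a b : ZFSet.{0}} (ha : Fi a) (hb : Fi b) : Fi (a ∪ b) := by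
  have h : {z : ZFSet.{0} | z ∈ a ∪ b} = {z | z ∈ a} ∪ {z | z ∈ b} := by
    ext z
    simp
  unfold Fi
  rw [h]
  exact Set.Finite.union ha hb

theorem fi_single (x : ZFSet.{0}) : Fi {x} := by
  have h : {z : ZFSet.{0} | z ∈ ({x} : ZFSet.{0})} = {x} := by
    ext z
    simp
  unfold Fi
  rw [h]
  exact Set.finite_singleton x

theorem Fi.insert {x a : ZFSet.{0}} (h : Fi a) : Fi (Insert.insert x a) := by
  have h1 : (Insert.insert x a : ZFSet.{0}) = {x} ∪ a := by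
    ext z
    simp
  rw [h1]
  exact (fi_single x).union h

theorem Fi.im {a : ZFSet.{0}} (h : Fi a) (g : ZFSet.{0} → ZFSet.{0}) : Fi (im g a) := by
  refine (Set.Finite.image g h).subset ?_
  intro z hz
  obtain ⟨y, hy, rfl⟩ := mem_im.1 hz
  exact ⟨y, hy, rfl⟩

theorem fi_nat (n : ℕ) : Fi (nat n) := by
  induction n with
  | zero => exact fi_empty
  | succ n ih => exact ih.insert

/-- Induction on finite sets in a model. -/
theorem fi_ind {M : Set ZFSet.{0}} (hM : IsZF M) {Q : ZFSet.{0} → Prop} (h0 : Q ∅)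
    (h1 : ∀ x a, x ∈ M → a ∈ M → x ∉ a → Q a → Q (insert x a)) {a : ZFSet.{0}} (ha : a ∈ M)
    (hf : Fi a) : Q a := by
  have key : ∀ s : Set ZFSet.{0}, s.Finite → ∀ a ∈ M, {z | z ∈ a} = s → Q a := by
    intro s hs
    induction s, hs using Set.Finite.induction_on with
    | empty =>
      intro a _ h
      have h2 : a = ∅ := by
        rw [ZFSet.eq_empty]
        intro y hy
        have : y ∈ {z | z ∈ a} := hy
        rw [h] at this
        exact this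
      rw [h2]
      exact h0
    | @insert x s hx _ ih =>
      intro a ha h
      have hxa : x ∈ a := by
        have : x ∈ {z | z ∈ a} := by
          rw [h]
          exact Set.mem_insert _ _
        exact this
      have h2 : ZFSet.sep (fun z => ¬ z = x) a ∈ M :=
        hM.sep_mem (Dfn.eq (DfnF.proj 0) (DfnF.const (hM.trans _ ha _ hxa))).not ha
      have h3 : {z | z ∈ ZFSet.sep (fun z => ¬ z = x) a} = s := by
        ext z
        show z ∈ ZFSet.sep (fun z => ¬ z = x) a ↔ z ∈ s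
        rw [ZFSet.mem_sep]
        have h4 : z ∈ a ↔ z = x ∨ z ∈ s := by
          have : z ∈ {z | z ∈ a} ↔ z ∈ insert x s := by rw [h]
          exact this
        rw [h4]
        constructor
        · rintro ⟨h5 | h5, h6⟩
          · exact absurd h5 h6
          · exact h5
        · intro h5
          exact ⟨Or.inr h5, fun h6 => hx (h6 ▸ h5)⟩
      have h4 : a = insert x (ZFSet.sep (fun z => ¬ z = x) a) := by
        ext z
        rw [ZFSet.mem_insert_iff, ZFSet.mem_sep]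
        constructor
        · intro hz
          by_cases h5 : z = x
          · exact Or.inl h5
          · exact Or.inr ⟨hz, h5⟩
        · rintro (rfl | h5)
          · exact hxa
          · exact h5.1
      rw [h4]
      refine h1 _ _ (hM.trans _ ha _ hxa) h2 ?_ (ih _ h2 h3)
      rw [ZFSet.mem_sep]
      exact fun h5 => h5.2 rfl
  exact key _ hf a ha rfl

theorem exists_inj_fi {M : Set ZFSet.{0}} (hM : IsZF M) {a : ZFSet.{0}} (ha : a ∈ M)
    (hf : Fi a) : ∃ n : ℕ, ∃ f ∈ M, IsInj a (nat n) f := by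
  refine fi_ind hM (Q := fun a => ∃ n : ℕ, ∃ f ∈ M, IsInj a (nat n) f) ?_ ?_ ha hf
  · refine ⟨0, ∅, hM.empty_mem, ⟨ZFSet.empty_subset _, fun z hz => absurd hz
      (ZFSet.notMem_empty _)⟩, fun a b c h => absurd h (ZFSet.notMem_empty _)⟩
  · rintro x a hx ha hxa ⟨n, f, hfM, ⟨h1, h2⟩, h3⟩
    have hn := hM.nat_mem n
    refine ⟨n + 1, insert (pair x (nat n)) f, hM.insert_mem (hM.pair_mem hx hn) hfM,
      ⟨?_, ?_⟩, ?_⟩
    · intro p hp
      rcases ZFSet.mem_insert_iff.1 hp with rfl | hp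
      · exact ZFSet.pair_mem_prod.2 ⟨ZFSet.mem_insert _ _, ZFSet.mem_insert _ _⟩
      · obtain ⟨u, hu, v, hv, rfl⟩ := ZFSet.mem_prod.1 (h1 hp)
        exact ZFSet.pair_mem_prod.2 ⟨ZFSet.mem_insert_of_mem _ hu, ZFSet.mem_insert_of_mem _ hv⟩
    · intro z hz
      rcases ZFSet.mem_insert_iff.1 hz with rfl | hz
      · refine ⟨nat n, ZFSet.mem_insert _ _, fun w hw => ?_⟩
        rcases ZFSet.mem_insert_iff.1 hw with hw | hw
        · exact (ZFSet.pair_inj.1 hw).2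
        · exact absurd (ZFSet.pair_mem_prod.1 (h1 hw)).1 hxa
      · obtain ⟨w, hw, hu⟩ := h2 z hz
        refine ⟨w, ZFSet.mem_insert_of_mem _ hw, fun w' hw' => ?_⟩
        rcases ZFSet.mem_insert_iff.1 hw' with hw' | hw'
        · rw [(ZFSet.pair_inj.1 hw').1] at hz
          exact absurd hz hxa
        · exact hu _ hw'
    · intro u v w hu hv
      have hnn : nat n ∉ nat n := ZFSet.mem_irrefl _
      rcases ZFSet.mem_insert_iff.1 hu with hu' | hu'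
      · obtain ⟨h8, h9⟩ := ZFSet.pair_inj.1 hu'
        rcases ZFSet.mem_insert_iff.1 hv with hv' | hv'
        · exact h8.trans (ZFSet.pair_inj.1 hv').1.symm
        · exact absurd (h9 ▸ (ZFSet.pair_mem_prod.1 (h1 hv')).2) hnn
      · rcases ZFSet.mem_insert_iff.1 hv with hv' | hv'
        · obtain ⟨h8, h9⟩ := ZFSet.pair_inj.1 hv'
          exact absurd (h9 ▸ (ZFSet.pair_mem_prod.1 (h1 hu')).2) hnn
        · exact h3 _ _ _ hu' hv'

theorem fi_of_inj {a f : ZFSet.{0}} {n : ℕ} (h : IsInj a (nat n) f) : Fi a := by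
  have h1 : ∀ z : ZFSet.{0}, ∃ b, z ∈ a → b ∈ nat n ∧ pair z b ∈ f := by
    intro z
    by_cases hz : z ∈ a
    · obtain ⟨b, hb, hp⟩ := fun_exists h.1 hz
      exact ⟨b, fun _ => ⟨hb, hp⟩⟩
    · exact ⟨∅, fun h => absurd h hz⟩
  choose g hg using h1
  refine Set.Finite.of_finite_image (f := g) (Set.Finite.subset (s := {z | z ∈ nat n})
    (fi_nat n) ?_) ?_
  · rintro _ ⟨z, hz, rfl⟩
    exact (hg z hz).1
  · intro z hz w hw hzw
    have h2 := (hg z hz).2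
    have h3 := (hg w hw).2
    rw [← hzw] at h3
    exact h.2 _ _ _ h2 h3

theorem dfn_Fi {M : Set ZFSet.{0}} (hM : IsZF M) :
    Dfn M M fun w : Fin 1 → ZFSet.{0} => Fi (w 0) := by
  have hB := hM.base
  have h : Dfn M M fun w : Fin 1 → ZFSet.{0} => ∃ n ∈ (ZFSet.omega : ZFSet.{0}), ∃ f ∈ M,
      IsInj (w 0) n f := by
    refine hB.bex (DfnF.const hM.infinity) ?_
    apply Dfn.ex
    exact hB.isInj' (DfnF.proj 2) (DfnF.proj 1) (DfnF.proj 0)
  refine h.congr fun v hv => ?_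
  constructor
  · rintro ⟨n, hn, f, -, hf⟩
    obtain ⟨n, rfl⟩ := mem_omega_iff.1 hn
    exact fi_of_inj hf
  · intro hf
    obtain ⟨n, f, h1, h2⟩ := exists_inj_fi hM (hv 0) hf
    exact ⟨_, nat_mem_om n, f, h1, h2⟩

/-! ### The notion of forcing -/

/-- The set of the possible elements of the conditions. -/
noncomputable def Bs (I : ZFSet.{0}) : ZFSet.{0} :=
  ZFSet.prod (ZFSet.prod I ZFSet.omega) (nat 2)

/-- The finite partial functions from `I × ω` to `2`. -/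
noncomputable def PI (V : Set ZFSet.{0}) (I : ZFSet.{0}) : ZFSet.{0} := Pf V (Bs I) Fi

theorem mem_two {x : ZFSet.{0}} : x ∈ nat 2 ↔ x = nat 0 ∨ x = nat 1 := by
  rw [mem_natK]
  constructor
  · rintro ⟨i, hi, rfl⟩
    interval_cases i
    · exact Or.inl rfl
    · exact Or.inr rfl
  · rintro (rfl | rfl)
    · exact ⟨0, by omega, rfl⟩
    · exact ⟨1, by omega, rfl⟩

theorem nat01 : nat 0 ≠ nat 1 := nat0_ne_nat1

section

variable {V : Set ZFSet.{0}} (hV : IsZF V) {I : ZFSet.{0}} (hI : I ∈ V)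

theorem mem_PI {p : ZFSet.{0}} : p ∈ PI V I ↔ p ∈ V ∧ p ⊆ Bs I ∧ Fu p ∧ Fi (dm p) := mem_Pf

include hV hI

theorem Bs_mem : Bs I ∈ V := hV.prod_mem (hV.prod_mem hI hV.infinity) (hV.nat_mem 2)

theorem PI_mem : PI V I ∈ V := Pf_mem hV (Bs_mem hV hI) (dfn_Fi hV)

theorem forcing_PI : IsForcing V (PI V I) (Lf (PI V I)) :=
  isForcing_Pf hV (Bs_mem hV hI) (dfn_Fi hV) fi_empty

omit hV hI in
theorem fi_of_dm {p : ZFSet.{0}} (hp : p ⊆ Bs I) (hf : Fu p) (h : Fi (dm p)) : Fi p := by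
  refine Set.Finite.of_finite_image (f := fs) (Set.Finite.subset h ?_) ?_
  · rintro _ ⟨z, hz, rfl⟩
    exact mem_im.2 ⟨z, hz, rfl⟩
  · intro z hz w hw hzw
    obtain ⟨a, -, b, -, rfl⟩ := ZFSet.mem_prod.1 (hp hz)
    obtain ⟨a', -, b', -, rfl⟩ := ZFSet.mem_prod.1 (hp hw)
    simp only [fs_pair] at hzw
    subst hzw
    rw [hf _ _ _ hz hw]

omit hV hI in
theorem fi_dm {p : ZFSet.{0}} (h : Fi p) : Fi (dm p) := h.im fs

omit hV hI in
theorem mem_PI' {p : ZFSet.{0}} : p ∈ PI V I ↔ p ∈ V ∧ p ⊆ Bs I ∧ Fu p ∧ Fi p := by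
  rw [mem_PI]
  constructor
  · rintro ⟨h1, h2, h3, h4⟩
    exact ⟨h1, h2, h3, fi_of_dm h2 h3 h4⟩
  · rintro ⟨h1, h2, h3, h4⟩
    exact ⟨h1, h2, h3, fi_dm h4⟩

end

/-! ### The automorphisms -/

open Classical in
/-- The other element of `2`. -/
noncomputable def cm (v : ZFSet.{0}) : ZFSet.{0} := if v = nat 0 then nat 1 else nat 0

theorem cm_zero : cm (nat 0) = nat 1 := if_pos rfl

theorem cm_one : cm (nat 1) = nat 0 := if_neg nat01.symm

theorem cm_mem {v : ZFSet.{0}} : cm v ∈ nat 2 := by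
  unfold cm
  split_ifs
  · exact mem_two.2 (Or.inr rfl)
  · exact mem_two.2 (Or.inl rfl)

theorem cm_cm {v : ZFSet.{0}} (h : v ∈ nat 2) : cm (cm v) = v := by
  rcases mem_two.1 h with rfl | rfl
  · rw [cm_zero, cm_one]
  · rw [cm_one, cm_zero]

open Classical in
/-- The flip of the values at the places in `D`. -/
noncomputable def flp (D u : ZFSet.{0}) : ZFSet.{0} :=
  if fs u ∈ D then pair (fs u) (cm (sn u)) else u

theorem fs_flp (D u : ZFSet.{0}) : fs (flp D u) = fs u := by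
  unfold flp
  split_ifs
  · rw [fs_pair]
  · rfl

theorem flp_pos {D a b : ZFSet.{0}} (h : a ∈ D) : flp D (pair a b) = pair a (cm b) := by
  unfold flp
  rw [fs_pair, sn_pair, if_pos h]

theorem flp_neg {D a b : ZFSet.{0}} (h : a ∉ D) : flp D (pair a b) = pair a b := by
  unfold flp
  rw [fs_pair, if_neg h]

theorem flp_mem {I D u : ZFSet.{0}} (h : u ∈ Bs I) : flp D u ∈ Bs I := by
  obtain ⟨a, ha, b, hb, rfl⟩ := ZFSet.mem_prod.1 h
  by_cases h1 : a ∈ D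
  · rw [flp_pos h1]
    exact ZFSet.pair_mem_prod.2 ⟨ha, cm_mem⟩
  · rw [flp_neg h1]
    exact h

theorem flp_flp {I D u : ZFSet.{0}} (h : u ∈ Bs I) : flp D (flp D u) = u := by
  obtain ⟨a, ha, b, hb, rfl⟩ := ZFSet.mem_prod.1 h
  by_cases h1 : a ∈ D
  · rw [flp_pos h1, flp_pos h1, cm_cm hb]
  · rw [flp_neg h1, flp_neg h1]

/-- The action of `D` on the conditions. -/
noncomputable def aD (D p : ZFSet.{0}) : ZFSet.{0} := im (flp D) p

theorem aD_aD {I D p : ZFSet.{0}} (h : p ⊆ Bs I) : aD D (aD D p) = p := by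
  ext z
  rw [aD, aD, mem_im]
  constructor
  · rintro ⟨y, hy, rfl⟩
    obtain ⟨x, hx, rfl⟩ := mem_im.1 hy
    rwa [flp_flp (h hx)]
  · intro hz
    exact ⟨_, mem_im.2 ⟨z, hz, rfl⟩, (flp_flp (h hz)).symm⟩

theorem aD_fix {D p : ZFSet.{0}} (h : ∀ u ∈ p, fs u ∉ D) : aD D p = p := by
  have h1 : ∀ u ∈ p, flp D u = u := fun u hu => if_neg (h u hu)
  ext z
  rw [aD, mem_im]
  constructor
  · rintro ⟨y, hy, rfl⟩
    rwa [h1 y hy]
  · intro hz
    exact ⟨z, hz, (h1 z hz).symm⟩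

theorem aD_comm {I D E p : ZFSet.{0}} (h : p ⊆ Bs I) : aD D (aD E p) = aD E (aD D p) := by
  have h1 : ∀ u ∈ Bs I, flp D (flp E u) = flp E (flp D u) := by
    intro u hu
    obtain ⟨a, ha, b, hb, rfl⟩ := ZFSet.mem_prod.1 hu
    by_cases h1 : a ∈ D
    · by_cases h2 : a ∈ E
      · rw [flp_pos h1, flp_pos h2, flp_pos h1, flp_pos h2]
      · rw [flp_neg h2, flp_pos h1, flp_neg h2]
    · by_cases h2 : a ∈ E
      · rw [flp_neg h1, flp_pos h2, flp_neg h1]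
      · rw [flp_neg h1, flp_neg h2, flp_neg h1]
  ext z
  rw [aD, aD, aD, aD, mem_im, mem_im]
  constructor
  · rintro ⟨y, hy, rfl⟩
    obtain ⟨x, hx, rfl⟩ := mem_im.1 hy
    exact ⟨_, mem_im.2 ⟨x, hx, rfl⟩, h1 x (h hx)⟩
  · rintro ⟨y, hy, rfl⟩
    obtain ⟨x, hx, rfl⟩ := mem_im.1 hy
    exact ⟨_, mem_im.2 ⟨x, hx, rfl⟩, (h1 x (h hx)).symm⟩

/-- The group of the automorphisms. -/
noncomputable def GrI (V : Set ZFSet.{0}) (I : ZFSet.{0}) : ZFSet.{0} :=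
  pwM V (ZFSet.prod I ZFSet.omega)

theorem mem_GrI {V : Set ZFSet.{0}} {I D : ZFSet.{0}} :
    D ∈ GrI V I ↔ D ∈ V ∧ D ⊆ ZFSet.prod I ZFSet.omega := mem_pwM

/-- The automorphisms that do not move the columns in `a`. -/
noncomputable def Ha (V : Set ZFSet.{0}) (I a : ZFSet.{0}) : ZFSet.{0} :=
  ZFSet.sep (fun D => ∀ u ∈ D, ¬ fs u ∈ a) (GrI V I)

theorem mem_Ha {V : Set ZFSet.{0}} {I a D : ZFSet.{0}} :
    D ∈ Ha V I a ↔ D ∈ GrI V I ∧ ∀ u ∈ D, fs u ∉ a := by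
  rw [Ha, ZFSet.mem_sep]

/-- The countable subsets of `I`. -/
noncomputable def Cs (V : Set ZFSet.{0}) (I : ZFSet.{0}) : ZFSet.{0} :=
  ZFSet.sep (fun a => Inj V a ZFSet.omega) (pwM V I)

theorem mem_Cs {V : Set ZFSet.{0}} {I a : ZFSet.{0}} :
    a ∈ Cs V I ↔ (a ∈ V ∧ a ⊆ I) ∧ Inj V a ZFSet.omega := by
  rw [Cs, ZFSet.mem_sep, mem_pwM]

/-- The filter of subgroups. -/
noncomputable def FlI (V : Set ZFSet.{0}) (I : ZFSet.{0}) : ZFSet.{0} := im (Ha V I) (Cs V I)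

theorem mem_FlI {V : Set ZFSet.{0}} {I H : ZFSet.{0}} :
    H ∈ FlI V I ↔ ∃ a ∈ Cs V I, H = Ha V I a := mem_im

section

variable {V : Set ZFSet.{0}} {A : ZFSet.{0}} (hL : IsLA A V) {I : ZFSet.{0}} (hI : I ∈ V)

include hL

theorem dfn_flp : DfnF V V fun w : Fin 2 → ZFSet.{0} => flp (w 0) (w 1) := by
  have hV := hL.zf
  have hB := hV.base
  unfold flp cm
  refine DfnF.ite (Dfn.mem (hV.fs' (DfnF.proj 1)) (DfnF.proj 0)) ?_ (DfnF.proj 1)
  refine hB.pair' (hV.fs' (DfnF.proj 1)) ?_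
  refine DfnF.ite ?_ (DfnF.const (hV.nat_mem 1)) (DfnF.const (hV.nat_mem 0))
  exact Dfn.eq (hV.sn' (DfnF.proj 1)) (DfnF.const (hV.nat_mem 0))

theorem dfn_aD : DfnF V V fun w : Fin 2 → ZFSet.{0} => aD (w 0) (w 1) := by
  have hV := hL.zf
  refine hV.im' (h := fun u w => flp (w 0) u) (DfnF.proj 1) ?_
  exact DfnF.comp2 (f := flp) (dfn_flp hL) (DfnF.proj 1) (DfnF.proj 0)

theorem aD_mem {D p : ZFSet.{0}} (hD : D ∈ V) (hp : p ∈ V) : aD D p ∈ V :=
  (DfnF.comp2 (f := aD) (dfn_aD hL) (DfnF.const hD) (DfnF.const hp)).1 Fin.elim0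
    fun i => i.elim0

theorem aD_PI {D p : ZFSet.{0}} (hD : D ∈ V) (hp : p ∈ PI V I) : aD D p ∈ PI V I := by
  obtain ⟨h1, h2, h3, h4⟩ := mem_PI'.1 hp
  refine mem_PI'.2 ⟨aD_mem hL hD h1, ?_, ?_, h4.im _⟩
  · intro z hz
    obtain ⟨u, hu, rfl⟩ := mem_im.1 hz
    exact flp_mem (h2 hu)
  · intro a b c hb hc
    obtain ⟨u, hu, h5⟩ := mem_im.1 hb
    obtain ⟨v, hv, h6⟩ := mem_im.1 hc
    have h7 := congrArg fs h5
    have h8 := congrArg fs h6
    rw [fs_pair, fs_flp] at h7 h8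
    obtain ⟨x, -, y, -, rfl⟩ := ZFSet.mem_prod.1 (h2 hu)
    obtain ⟨x', -, y', -, rfl⟩ := ZFSet.mem_prod.1 (h2 hv)
    rw [fs_pair] at h7 h8
    subst h7
    subst h8
    rw [h3 _ _ _ hu hv] at h5
    exact (ZFSet.pair_inj.1 (h5.trans h6.symm)).2

include hI

theorem GrI_mem : GrI V I ∈ V := pwM_mem hL.zf (hL.zf.prod_mem hI hL.zf.infinity)

theorem dfn_Inj {n : ℕ} {F G : (Fin n → ZFSet.{0}) → ZFSet.{0}} (hF : DfnF V V F)
    (hG : DfnF V V G) : Dfn V V fun v => Inj V (F v) (G v) := by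
  apply Dfn.ex
  exact hL.zf.base.isInj' hF.tail hG.tail (DfnF.proj 0)

theorem Cs_mem : Cs V I ∈ V := by
  have hV := hL.zf
  refine hV.sep_mem (Q := fun a => Inj V a ZFSet.omega) ?_ (pwM_mem hV hI)
  exact dfn_Inj hL hI (DfnF.proj 0) (DfnF.const hV.infinity)

theorem FlI_mem : FlI V I ∈ V := by
  have hV := hL.zf
  have hB := hV.base
  refine hV.im_mem (Cs_mem hL hI) ?_
  refine hV.sep' (Q := fun D w => ∀ u ∈ D, ¬ fs u ∈ w 0) (DfnF.const (GrI_mem hL hI)) ?_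
  refine hB.ball (DfnF.proj 0) ?_
  exact (Dfn.mem (hV.fs' (DfnF.proj 0)) (DfnF.proj 2)).not

/-- The symmetric difference. -/
theorem mul_aD {D E : ZFSet.{0}} (hD : D ∈ GrI V I) (hE : E ∈ GrI V I) :
    ∃ K ∈ GrI V I, ∀ p ∈ PI V I, aD D (aD E p) = aD K p := by
  have hV := hL.zf
  obtain ⟨h1, h2⟩ := mem_GrI.1 hD
  obtain ⟨h3, h4⟩ := mem_GrI.1 hE
  set K : ZFSet.{0} := ZFSet.sep (fun z => ¬ (z ∈ D ↔ z ∈ E)) (ZFSet.prod I ZFSet.omega) with hK
  have hKV : K ∈ V := by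
    refine hV.sep_mem (Q := fun z => ¬ (z ∈ D ↔ z ∈ E)) ?_ (hV.prod_mem hI hV.infinity)
    exact ((Dfn.mem (DfnF.proj 0) (DfnF.const h1)).iff (Dfn.mem (DfnF.proj 0)
      (DfnF.const h3))).not
  have hmK : ∀ a, a ∈ ZFSet.prod I ZFSet.omega → (a ∈ K ↔ ¬ (a ∈ D ↔ a ∈ E)) := by
    intro a ha
    rw [hK, ZFSet.mem_sep]
    exact ⟨fun h => h.2, fun h => ⟨ha, h⟩⟩
  have key : ∀ u ∈ Bs I, flp D (flp E u) = flp K u := by
    intro u hu
    obtain ⟨a, ha, b, hb, rfl⟩ := ZFSet.mem_prod.1 hu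
    have h5 := hmK a ha
    by_cases h6 : a ∈ D
    · by_cases h7 : a ∈ E
      · have h8 : a ∉ K := by tauto
        rw [flp_pos h7, flp_pos h6, cm_cm hb, flp_neg h8]
      · have h8 : a ∈ K := by tauto
        rw [flp_neg h7, flp_pos h6, flp_pos h8]
    · by_cases h7 : a ∈ E
      · have h8 : a ∈ K := by tauto
        rw [flp_pos h7, flp_neg h6, flp_pos h8]
      · have h8 : a ∉ K := by tauto
        rw [flp_neg h7, flp_neg h6, flp_neg h8]
  refine ⟨K, mem_GrI.2 ⟨hKV, fun z hz => (ZFSet.mem_sep.1 hz).1⟩, fun p hp => ?_⟩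
  have hpB := (mem_PI'.1 hp).2.1
  ext z
  rw [aD, aD, aD, mem_im, mem_im]
  constructor
  · rintro ⟨y, hy, rfl⟩
    obtain ⟨x, hx, rfl⟩ := mem_im.1 hy
    exact ⟨x, hx, key x (hpB hx)⟩
  · rintro ⟨x, hx, rfl⟩
    exact ⟨_, mem_im.2 ⟨x, hx, rfl⟩, (key x (hpB hx)).symm⟩

theorem empty_PI : (∅ : ZFSet.{0}) ∈ PI V I := mem_PI'.2 ⟨hL.zf.empty_mem, ZFSet.empty_subset _,
  fun _ _ _ h => absurd h (ZFSet.notMem_empty _), fi_empty⟩

omit hL hI in
theorem aD_empty (D : ZFSet.{0}) : aD D ∅ = ∅ := by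
  rw [ZFSet.eq_empty]
  intro y hy
  obtain ⟨z, hz, -⟩ := mem_im.1 hy
  exact ZFSet.notMem_empty _ hz

/-- The symmetric system. -/
theorem symI : SymSys V (PI V I) (Lf (PI V I)) aD (GrI V I) (FlI V I) where
  gr := GrI_mem hL hI
  fl := FlI_mem hL hI
  dac := dfn_aD hL
  maps := fun D hD p hp => aD_PI hL (mem_GrI.1 hD).1 hp
  mono := by
    intro D hD p hp q hq h
    refine mem_Lf.2 ⟨aD_PI hL (mem_GrI.1 hD).1 hq, aD_PI hL (mem_GrI.1 hD).1 hp, ?_⟩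
    intro z hz
    obtain ⟨u, hu, rfl⟩ := mem_im.1 hz
    exact mem_im.2 ⟨u, (mem_Lf.1 h).2.2 hu, rfl⟩
  inv := fun D hD => ⟨D, hD, fun p hp => ⟨aD_aD (mem_PI'.1 hp).2.1, aD_aD (mem_PI'.1 hp).2.1⟩⟩
  mul := fun D hD E hE => mul_aD hL hI hD hE
  ne := by
    refine ⟨_, mem_FlI.2 ⟨∅, mem_Cs.2 ⟨⟨hL.zf.empty_mem, ZFSet.empty_subset _⟩, ?_⟩, rfl⟩⟩
    exact Inj.of_subset hL.zf hL.zf.empty_mem hL.zf.infinity (ZFSet.empty_subset _)
  sub := by
    intro H hH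
    obtain ⟨a, ha, rfl⟩ := mem_FlI.1 hH
    exact fun D hD => (mem_Ha.1 hD).1
  hone := by
    intro H hH
    obtain ⟨a, ha, rfl⟩ := mem_FlI.1 hH
    refine ⟨∅, mem_Ha.2 ⟨mem_GrI.2 ⟨hL.zf.empty_mem, ZFSet.empty_subset _⟩, fun u hu =>
      absurd hu (ZFSet.notMem_empty _)⟩, fun p _ => aD_fix fun u _ => ZFSet.notMem_empty _⟩
  hinv := fun H _ g hg => ⟨g, hg, fun p hp =>
    ⟨aD_aD (mem_PI'.1 hp).2.1, aD_aD (mem_PI'.1 hp).2.1⟩⟩
  dir := by
    intro H hH K hK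
    obtain ⟨a, ha, rfl⟩ := mem_FlI.1 hH
    obtain ⟨b, hb, rfl⟩ := mem_FlI.1 hK
    obtain ⟨⟨ha1, ha2⟩, ha3⟩ := mem_Cs.1 ha
    obtain ⟨⟨hb1, hb2⟩, hb3⟩ := mem_Cs.1 hb
    refine ⟨_, mem_FlI.2 ⟨a ∪ b, mem_Cs.2 ⟨⟨hL.zf.union_mem ha1 hb1, ?_⟩, ?_⟩, rfl⟩, ?_, ?_⟩
    · intro z hz
      rcases ZFSet.mem_union.1 hz with h | h
      · exact ha2 h
      · exact hb2 h
    · exact Inj.union hL.zf hL.gc hL.zf.infinity isOrdinal_omega (fun _ h => h) ha1 hb1 ha3 hb3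
    · intro D hD
      obtain ⟨h1, h2⟩ := mem_Ha.1 hD
      exact mem_Ha.2 ⟨h1, fun u hu h3 => h2 u hu (ZFSet.mem_union.2 (Or.inl h3))⟩
    · intro D hD
      obtain ⟨h1, h2⟩ := mem_Ha.1 hD
      exact mem_Ha.2 ⟨h1, fun u hu h3 => h2 u hu (ZFSet.mem_union.2 (Or.inr h3))⟩
  conj := by
    intro H hH g _
    exact ⟨H, hH, fun k hk => ⟨k, hk, fun p hp => aD_comm (mem_PI'.1 hp).2.1⟩⟩
  top := ⟨∅, empty_PI hL hI, fun p hp => mem_Lf.2 ⟨hp, empty_PI hL hI, ZFSet.empty_subset _⟩,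
    fun D _ => aD_empty D⟩

/-- The involution of the poset. -/
theorem invo_D {D : ZFSet.{0}} (hD : D ∈ V) : gr (im (flp D)) (PI V I) ∈ V ∧
    IsInvo (PI V I) (Lf (PI V I)) (gr (im (flp D)) (PI V I)) :=
  invo_of hL.zf (Bs_mem hL.zf hI) (dfn_Fi hL.zf) (fun _ h => h)
    (DfnF.comp2 (f := flp) (dfn_flp hL) (DfnF.const hD) (DfnF.proj 0))
    (fun _ hu => flp_mem hu) (fun _ hu => flp_flp hu) fun u _ => fs_flp D u

omit hL hI in
theorem ap_invo {D p : ZFSet.{0}} (hp : p ∈ PI V I) : ap (gr (im (flp D)) (PI V I)) p = aD D p :=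
  ap_gr hp

omit hL hI in
theorem im_ap_invo {D G : ZFSet.{0}} (hG : G ⊆ PI V I) :
    im (ap (gr (im (flp D)) (PI V I))) G = im (aD D) G := by
  ext z
  rw [mem_im, mem_im]
  constructor
  · rintro ⟨y, hy, rfl⟩
    exact ⟨y, hy, ap_invo (hG hy)⟩
  · rintro ⟨y, hy, rfl⟩
    exact ⟨y, hy, (ap_invo (hG hy)).symm⟩

variable {G : ZFSet.{0}} (hG : IsGeneric V (PI V I) (Lf (PI V I)) G)

include hG

theorem gen_aD {D : ZFSet.{0}} (hD : D ∈ V) :
    IsGeneric V (PI V I) (Lf (PI V I)) (im (aD D) G) := by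
  have h := invo_D hL hI hD
  have h1 := gen_image hL.zf (forcing_PI hL.zf hI) hG h.1 h.2
  rwa [im_ap_invo hG.sub] at h1

theorem ext_aD {D : ZFSet.{0}} (hD : D ∈ V) : ext V (im (aD D) G) = ext V G := by
  have h := invo_D hL hI hD
  have h1 := ext_image hL (forcing_PI hL.zf hI) hG h.1 h.2
  rwa [im_ap_invo hG.sub] at h1

omit hL hI in
theorem mem_im_aD {D p : ZFSet.{0}} (hp : p ∈ PI V I) : aD D p ∈ im (aD D) G ↔ p ∈ G := by
  rw [mem_im]
  constructor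
  · rintro ⟨q, hq, h⟩
    have h1 := congrArg (aD D) h
    rw [aD_aD (mem_PI'.1 hp).2.1, aD_aD (mem_PI'.1 (hG.sub hq)).2.1] at h1
    rwa [h1]
  · exact fun h => ⟨p, h, rfl⟩

omit hL hI in
/-- The value of a moved name. -/
theorem ev_aD {D : ZFSet.{0}} (x : ZFSet.{0}) :
    ev (im (aD D) G) (act (PI V I) aD D x) = ev G x := by
  induction x using dm_ind with
  | _ x ih =>
  ext z
  rw [mem_ev, mem_ev]
  constructor
  · rintro ⟨y, p, h1, h2, rfl⟩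
    obtain ⟨y', c, h3, h4, h5⟩ := mem_act.1 h1
    obtain ⟨rfl, rfl⟩ := ZFSet.pair_inj.1 h5
    exact ⟨y', c, h3, (mem_im_aD hG h4).1 h2, (ih y' (mem_dm h3)).symm⟩
  · rintro ⟨y, p, h1, h2, rfl⟩
    have hp := hG.sub h2
    exact ⟨_, _, mem_act.2 ⟨y, p, h1, hp, rfl⟩, (mem_im_aD hG hp).2 h2, ih y (mem_dm h1)⟩

end

end Pool.Agent.Helper71.LR
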