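import Pool.Agent.H158_PC.Gnd

/-!
# Ground models with given sets of hereditarily finite sets
-/

set_option autoImplicit false
set_option linter.unreachableTactic false
set_option linter.unusedTactic false
set_option linter.unusedSectionVars false

namespace Pool.Agent.Helper71.LR

open Pool.Agent.W868 Pool.Agent.W868.GM Pool.Agent.R597 Pool.Agent.Y588 Pool.Agent.H158_PC
open ZFSet (pair)

/-- The disjoint union of a sequence of sets of hereditarily finite sets. -/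
noncomputable def dY (Y : ℕ → ZFSet.{0}) : ZFSet.{0} :=
  ZFSet.range fun p : {p : ℕ × ℕ // hf p.2 ∈ Y p.1} => pair (nat p.1.1) (hf p.1.2)

variable {Y : ℕ → ZFSet.{0}}

theorem mem_dY (hY : ∀ j, ∀ z ∈ Y j, IsHF z) {z : ZFSet.{0}} :
    z ∈ dY Y ↔ ∃ j x, x ∈ Y j ∧ z = pair (nat j) x := by
  rw [dY, ZFSet.mem_range]
  constructor
  · rintro ⟨⟨⟨j, i⟩, h⟩, rfl⟩
    exact ⟨j, hf i, h, rfl⟩
  · rintro ⟨j, x, h, rfl⟩
    obtain ⟨i, rfl⟩ := hY j x h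
    exact ⟨⟨⟨j, i⟩, h⟩, rfl⟩

theorem isHF_dY (hY : ∀ j, ∀ z ∈ Y j, IsHF z) {z : ZFSet.{0}} (h : z ∈ dY Y) : IsHF z := by
  obtain ⟨j, x, hx, rfl⟩ := (mem_dY hY).1 h
  exact (isHF_nat j).pair (hY j x hx)

theorem Y_mem (hY : ∀ j, ∀ z ∈ Y j, IsHF z) {K : Set ZFSet.{0}} (hK : IsZF K) (hA : dY Y ∈ K)
    (j : ℕ) : Y j ∈ K := by
  refine part_mem hK hA (j := j) (fun x => ?_) fun z hz => ?_
  · rw [mem_dY hY]
    constructor
    · rintro ⟨j', x', h, h1⟩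
      obtain ⟨h2, rfl⟩ := ZFSet.pair_inj.1 h1
      rwa [nat_injective h2]
    · exact fun h => ⟨j, x, h, rfl⟩
  · obtain ⟨j', x, -, rfl⟩ := (mem_dY hY).1 hz
    exact ⟨_, _, rfl⟩

/-- The ground model. -/
theorem exists_gnd (hY : ∀ j, ∀ z ∈ Y j, IsHF z) :
    ∃ V : Set ZFSet.{0}, V.Countable ∧ IsLA (dY Y) V ∧ ∀ j, Y j ∈ V := by
  obtain ⟨π, h1, -⟩ := exists_pkg' (P := Unit) {check (dY Y)} (Set.countable_singleton _) ()
  have hdZ : dY Y ∈ π.Z := h1 rfl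
  have hN := π.isZF_V
  have hdh : π.hat (dY Y) = dY Y := hat_HF π fun z hz => isHF_dY hY hz
  have hdV : dY Y ∈ π.V := hdh ▸ π.of_hat_mem_V hdZ
  have hL := isLA_of_HF hN hdV fun z hz => isHF_dY hY hz
  exact ⟨LC π.V (dY Y), (π.countable_W.mono π.V_subset_W).mono (LC_subset hN hdV), hL,
    Y_mem hY hL.zf hL.mem⟩

end Pool.Agent.Helper71.LR
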