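import Pool.Agent.Helper71.LR.Cod

/-!
# The parities of the coefficients and eventual equality
-/

set_option autoImplicit false

namespace Pool.Agent.Helper71.LR

theorem par_ev_refl (x : ℕ → ℕ) : Ev x x := ⟨0, fun _ _ => rfl⟩

theorem par_ev_symm {x y : ℕ → ℕ} (h : Ev x y) : Ev y x := by
  obtain ⟨m, hm⟩ := h
  exact ⟨m, fun n hn => (hm n hn).symm⟩

theorem par_ev_trans {x y z : ℕ → ℕ} (h : Ev x y) (h' : Ev y z) : Ev x z := by
  obtain ⟨m, hm⟩ := h
  obtain ⟨k, hk⟩ := h'
  exact ⟨max m k, fun n hn =>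
    (hm n (le_trans (le_max_left _ _) hn)).trans (hk n (le_trans (le_max_right _ _) hn))⟩

section par

variable {G : Type} [AddCommGroup G] {B : Set G}

/-- the basis -/
noncomputable def parBas (hB : LinearIndependent ℤ (fun b : B => (b.1 : G)))
    (hB' : AddSubgroup.closure B = ⊤) : Module.Basis B ℤ G :=
  Module.Basis.mk hB (by
    have h1 : Set.range (fun b : B => (b.1 : G)) = B := Subtype.range_coe
    rw [h1]
    intro x _
    have h2 : x ∈ (Submodule.span ℤ B).toAddSubgroup := by
      rw [Submodule.span_int_eq_addSubgroupClosure, hB']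
      exact AddSubgroup.mem_top x
    exact h2)

theorem parBas_apply (hB : LinearIndependent ℤ (fun b : B => (b.1 : G)))
    (hB' : AddSubgroup.closure B = ⊤) (b : B) : parBas hB hB' b = b.1 := by
  unfold parBas
  rw [Module.Basis.mk_apply]

theorem par_even_of_mem (hB : LinearIndependent ℤ (fun b : B => (b.1 : G)))
    (hB' : AddSubgroup.closure B = ⊤) (b : B) {g : G} (hg : g ∈ Kcl B b.1) :
    Even ((parBas hB hB').repr g b) := by
  unfold Kcl at hg
  rw [SetLike.mem_coe] at hg
  induction hg using AddSubmonoid.closure_induction with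
  | mem x hx =>
    rcases hx with hx | ⟨u, rfl⟩
    · have h1 : (parBas hB hB').repr x b = 0 := by
        have h2 : parBas hB hB' ⟨x, hx.1⟩ = x := parBas_apply hB hB' ⟨x, hx.1⟩
        rw [← h2, Module.Basis.repr_self]
        apply Finsupp.single_eq_of_ne
        intro h3
        apply hx.2
        rw [h3]
        exact rfl
      rw [h1]
      exact Even.zero
    · simp only [map_add, Finsupp.add_apply]
      exact ⟨_, rfl⟩
  | zero => simp
  | add x y _ _ h1 h2 =>
    rw [map_add, Finsupp.add_apply]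
    exact h1.add h2

theorem par_mem_of_even (hB : LinearIndependent ℤ (fun b : B => (b.1 : G)))
    (hB' : AddSubgroup.closure B = ⊤) (b : B) {g : G}
    (hg : Even ((parBas hB hB').repr g b)) : g ∈ Kcl B b.1 := by
  have h1 := (parBas hB hB').linearCombination_repr g
  rw [Finsupp.linearCombination_apply, Finsupp.sum] at h1
  rw [← h1]
  unfold Kcl
  rw [SetLike.mem_coe]
  have hd : ∀ u : G, u + u ∈ AddSubmonoid.closure ((B \ {b.1}) ∪ Set.range fun g : G => g + g) :=
    fun u => AddSubmonoid.subset_closure (Or.inr ⟨u, rfl⟩)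
  refine AddSubmonoid.sum_mem _ fun c _ => ?_
  rw [parBas_apply]
  by_cases hcb : c = b
  · rw [hcb]
    obtain ⟨k, hk⟩ := hg
    rw [hk, add_smul]
    exact hd _
  · have hc : (c.1 : G) ∈ AddSubmonoid.closure ((B \ {b.1}) ∪ Set.range fun g : G => g + g) := by
      refine AddSubmonoid.subset_closure (Or.inl ⟨c.2, fun h => hcb (Subtype.ext h)⟩)
    have hn : ∀ n : ℕ, ((n : ℤ) • (c.1 : G)) ∈
        AddSubmonoid.closure ((B \ {b.1}) ∪ Set.range fun g : G => g + g) := by
      intro n
      rw [natCast_zsmul]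
      exact AddSubmonoid.nsmul_mem _ hc n
    obtain ⟨n, hn' | hn'⟩ := Int.eq_nat_or_neg ((parBas hB hB').repr g c)
    · rw [hn']
      exact hn n
    · have h3 : ((parBas hB hB').repr g c) • (c.1 : G) =
          ((n : ℤ) • (c.1 : G)) + ((-(n : ℤ)) • (c.1 : G) + (-(n : ℤ)) • (c.1 : G)) := by
        rw [hn', ← add_smul, ← add_smul]
        congr 1
        ring
      rw [h3]
      exact AddSubmonoid.add_mem _ (hn n) (hd _)

theorem par_kcl_sub {b : G} {K : Set G} (h1 : ∀ x ∈ K, ∀ y ∈ K, x + y ∈ K) (h2 : B \ {b} ⊆ K)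
    (h3 : ∀ x, x + x ∈ K) : Kcl B b ⊆ K := by
  have h0 : (0 : G) ∈ K := by
    have := h3 0
    rwa [add_zero] at this
  intro x hx
  unfold Kcl at hx
  rw [SetLike.mem_coe] at hx
  induction hx using AddSubmonoid.closure_induction with
  | mem x hx =>
    rcases hx with hx | ⟨u, rfl⟩
    · exact h2 hx
    · exact h3 u
  | zero => exact h0
  | add x y _ _ hx hy => exact h1 x hx y hy

theorem par_odd_of_odc (hB : LinearIndependent ℤ (fun b : B => (b.1 : G)))
    (hB' : AddSubgroup.closure B = ⊤) {KK : Set (Set G)} {b g : G} (h : Odc B KK b g) :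
    ∃ hb : b ∈ B, ¬ Even ((parBas hB hB').repr g ⟨b, hb⟩) := by
  obtain ⟨hb, K, _, h1, h2, h3, h4⟩ := h
  refine ⟨hb, fun he => h4 ?_⟩
  exact par_kcl_sub h1 h2 h3 (par_mem_of_even hB hB' ⟨b, hb⟩ he)

theorem par_odc_of_odd (hB : LinearIndependent ℤ (fun b : B => (b.1 : G)))
    (hB' : AddSubgroup.closure B = ⊤) {KK : Set (Set G)} (hK : ∀ b ∈ B, Kcl B b ∈ KK) {b g : G}
    (hb : b ∈ B) (h : ¬ Even ((parBas hB hB').repr g ⟨b, hb⟩)) : Odc B KK b g := by
  refine ⟨hb, Kcl B b, hK b hb, ?_, ?_, ?_, ?_⟩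
  · intro x hx y hy
    exact AddSubmonoid.add_mem _ hx hy
  · intro x hx
    exact AddSubmonoid.subset_closure (Or.inl hx)
  · intro x
    exact AddSubmonoid.subset_closure (Or.inr ⟨x, rfl⟩)
  · intro hg
    exact h (par_even_of_mem hB hB' ⟨b, hb⟩ hg)

theorem odc_finite (hB : LinearIndependent ℤ (fun b : B => (b.1 : G)))
    (hB' : AddSubgroup.closure B = ⊤) (KK : Set (Set G)) (g : G) :
    {b | Odc B KK b g}.Finite := by
  refine Set.Finite.subset
    (((parBas hB hB').repr g).support.finite_toSet.image (fun b : B => (b.1 : G))) ?_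
  intro b hb
  obtain ⟨h1, h2⟩ := par_odd_of_odc hB hB' hb
  refine ⟨⟨b, h1⟩, ?_, rfl⟩
  rw [Finset.mem_coe, Finsupp.mem_support_iff]
  intro h3
  rw [h3] at h2
  exact h2 Even.zero

theorem odc_iff (hB : LinearIndependent ℤ (fun b : B => (b.1 : G)))
    (hB' : AddSubgroup.closure B = ⊤) {KK : Set (Set G)} (hK : ∀ b ∈ B, Kcl B b ∈ KK)
    (g g' : G) : (∀ b, Odc B KK b g ↔ Odc B KK b g') ↔ ∃ y, g - g' = y + y := by
  constructor
  · intro h
    have h1 : ∀ b : B, Even ((parBas hB hB').repr (g - g') b) := by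
      intro b
      rw [map_sub, Finsupp.sub_apply, Int.even_sub]
      have h2 := h b.1
      by_contra h3
      by_cases h4 : Even ((parBas hB hB').repr g b)
      · have h5 : ¬ Even ((parBas hB hB').repr g' b) := fun h5 => h3 ⟨fun _ => h5, fun _ => h4⟩
        obtain ⟨_, h6⟩ := par_odd_of_odc hB hB' (h2.2 (par_odc_of_odd hB hB' hK b.2 h5))
        exact h6 h4
      · obtain ⟨_, h6⟩ := par_odd_of_odc hB hB' (h2.1 (par_odc_of_odd hB hB' hK b.2 h4))
        exact h3 ⟨fun h7 => absurd h7 h4, fun h7 => absurd h7 h6⟩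
    refine ⟨(parBas hB hB').repr.symm
      (((parBas hB hB').repr (g - g')).mapRange (fun n : ℤ => n / 2) (by norm_num)), ?_⟩
    apply (parBas hB hB').repr.injective
    rw [map_add, LinearEquiv.apply_symm_apply]
    ext b
    rw [Finsupp.add_apply, Finsupp.mapRange_apply]
    obtain ⟨k, hk⟩ := h1 b
    rw [hk]
    omega
  · rintro ⟨y, hy⟩ b
    have h1 : ∀ b : B, (Even ((parBas hB hB').repr g b) ↔ Even ((parBas hB hB').repr g' b)) := by
      intro b
      have h2 : (parBas hB hB').repr g b - (parBas hB hB').repr g' b =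
          (parBas hB hB').repr y b + (parBas hB hB').repr y b := by
        rw [← Finsupp.sub_apply, ← map_sub, hy, map_add, Finsupp.add_apply]
      rw [← Int.even_sub, h2]
      exact ⟨_, rfl⟩
    constructor
    · intro h
      obtain ⟨h2, h3⟩ := par_odd_of_odc hB hB' h
      exact par_odc_of_odd hB hB' hK h2 (fun h4 => h3 ((h1 _).2 h4))
    · intro h
      obtain ⟨h2, h3⟩ := par_odd_of_odc hB hB' h
      exact par_odc_of_odd hB hB' hK h2 (fun h4 => h3 ((h1 _).1 h4))

end par

open Classical in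
/-- the sum of the coefficients on the class of `x`, modulo two -/
noncomputable def parHom (x : ℕ → ℕ) : Fr →+ ZMod 2 :=
  Finsupp.liftAddHom fun z => if Ev x z then Int.castAddHom (ZMod 2) else 0

open Classical in
theorem parHom_single (x z : ℕ → ℕ) (a : ℤ) :
    parHom x (Finsupp.single z a) = if Ev x z then (a : ZMod 2) else 0 := by
  unfold parHom
  rw [Finsupp.liftAddHom_apply_single]
  split_ifs <;> simp

theorem ev_iff {S : Set (ℕ → ℕ)} {x y : ℕ → ℕ} (hx : x ∈ S) (hy : y ∈ S) :
    Ev x y ↔ (Finsupp.single x 1 - Finsupp.single y 1 : Fr) ∈ G0 S := by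
  constructor
  · intro h
    have h1 : (Finsupp.single x 1 - Finsupp.single y 1 : Fr) =
        (Finsupp.single x 1 + Finsupp.single y 1) - (Finsupp.single y 1 + Finsupp.single y 1) := by
      abel
    rw [h1]
    exact AddSubgroup.sub_mem _ (AddSubgroup.subset_closure ⟨x, hx, y, hy, h, rfl⟩)
      (AddSubgroup.subset_closure ⟨y, hy, y, hy, par_ev_refl y, rfl⟩)
  · intro h
    have h1 : ∀ g ∈ G0 S, parHom x g = 0 := by
      intro g hg
      have h2 : G0 S ≤ (parHom x).ker := by
        unfold G0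
        rw [AddSubgroup.closure_le]
        rintro _ ⟨u, _, v, _, huv, rfl⟩
        rw [SetLike.mem_coe, AddMonoidHom.mem_ker, map_add, parHom_single, parHom_single]
        by_cases h3 : Ev x u
        · rw [if_pos h3, if_pos (par_ev_trans h3 huv)]
          decide
        · rw [if_neg h3, if_neg (fun h4 => h3 (par_ev_trans h4 (par_ev_symm huv)))]
          decide
      exact h2 hg
    have h2 := h1 _ h
    rw [map_sub, parHom_single, parHom_single, if_pos (par_ev_refl x)] at h2
    by_contra h3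
    rw [if_neg h3] at h2
    exact absurd h2 (by decide)

theorem odc_ev {G : Type} [AddCommGroup G] {S : Set (ℕ → ℕ)} (e : G ≃+ G0 S) {B : Set G}
    (hB : LinearIndependent ℤ (fun b : B => (b.1 : G))) (hB' : AddSubgroup.closure B = ⊤)
    {KK : Set (Set G)} (hK : ∀ b ∈ B, Kcl B b ∈ KK) {g g' : G} {x y : ℕ → ℕ} (hx : x ∈ S)
    (hy : y ∈ S) (hg : ((e g : G0 S) : Fr) = Finsupp.single x 2)
    (hg' : ((e g' : G0 S) : Fr) = Finsupp.single y 2) :
    (∀ b, Odc B KK b g ↔ Odc B KK b g') ↔ Ev x y := by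
  rw [odc_iff hB hB' hK, ev_iff hx hy]
  have h2 : (Finsupp.single x 2 - Finsupp.single y 2 : Fr) =
      (Finsupp.single x 1 - Finsupp.single y 1) + (Finsupp.single x 1 - Finsupp.single y 1) := by
    have h3 : ∀ z : ℕ → ℕ, (Finsupp.single z 2 : Fr) = Finsupp.single z 1 + Finsupp.single z 1 := by
      intro z
      rw [← Finsupp.single_add]
      norm_num
    rw [h3, h3]
    abel
  constructor
  · rintro ⟨w, hw⟩
    have h1 : ((e (g - g') : G0 S) : Fr) = ((e w : G0 S) : Fr) + ((e w : G0 S) : Fr) := by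
      rw [hw, map_add, AddSubgroup.coe_add]
    rw [map_sub, AddSubgroup.coe_sub, hg, hg', h2] at h1
    have h4 : (Finsupp.single x 1 - Finsupp.single y 1 : Fr) = ((e w : G0 S) : Fr) := by
      ext z
      have h5 := DFunLike.congr_fun h1 z
      rw [Finsupp.add_apply, Finsupp.add_apply] at h5
      omega
    rw [h4]
    exact (e w).2
  · intro h
    refine ⟨e.symm ⟨_, h⟩, ?_⟩
    apply e.injective
    rw [map_add, AddEquiv.apply_symm_apply]
    apply Subtype.ext
    rw [map_sub, AddSubgroup.coe_sub, hg, hg', h2]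
    rfl

end Pool.Agent.Helper71.LR
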