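import Pool.Agent.Helper71.LR.Clz
import Pool.Agent.Helper71.LR.Bas
import Pool.Agent.Helper71.LR.Par

/-!
# The group, seen from the model
-/

set_option autoImplicit false
set_option linter.unreachableTactic false
set_option linter.unusedTactic false
set_option linter.unusedSectionVars false

namespace Pool.Agent.Helper71.LR

open Pool.Agent.W868 Pool.Agent.Y588 Pool.Agent.H158_PC
open ZFSet (pair)

/-! ### Relations on codes -/

/-- The relation on sets that corresponds to a relation on reals. -/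
def Cz {n : ℕ} (P : (Fin n → ℕ → ℕ) → Prop) (v : Fin n → ZFSet.{0}) : Prop :=
  ∃ x, P x ∧ v = fun i => code (x i)

theorem cz3 {P : (Fin 3 → ℕ → ℕ) → Prop} (x y z : ℕ → ℕ) :
    Cz P ![code x, code y, code z] ↔ P ![x, y, z] := by
  have h1 : (![code x, code y, code z] : Fin 3 → ZFSet.{0}) = fun i => code (![x, y, z] i) := by
    funext i
    fin_cases i <;> rfl
  rw [h1]
  constructor
  · rintro ⟨w, hw, h⟩
    rwa [code_fun_inj h]
  · exact fun h => ⟨_, h, rfl⟩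

theorem cz2 {P : (Fin 2 → ℕ → ℕ) → Prop} (x y : ℕ → ℕ) :
    Cz P ![code x, code y] ↔ P ![x, y] := by
  have h1 : (![code x, code y] : Fin 2 → ZFSet.{0}) = fun i => code (![x, y] i) := by
    funext i
    fin_cases i <;> rfl
  rw [h1]
  constructor
  · rintro ⟨w, hw, h⟩
    rwa [code_fun_inj h]
  · exact fun h => ⟨_, h, rfl⟩

section dfn

variable {N : Set ZFSet.{0}} (hN : IsZF N)

include hN

theorem dfn_cz3 {P : (Fin 3 → ℕ → ℕ) → Prop} (h : Pj N P) {m : ℕ}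
    {F G H : (Fin m → ZFSet.{0}) → ZFSet.{0}} (hF : DfnF N N F) (hG : DfnF N N G)
    (hH : DfnF N N H) : Dfn N N fun v => Cz P ![F v, G v, H v] := by
  refine Dfn.comp3 (Q := fun a b c => Cz P ![a, b, c]) ?_ hF hG hH
  refine (h.dfn hN).congr fun v _ => ?_
  have h1 : (![v 0, v 1, v 2] : Fin 3 → ZFSet.{0}) = v := by
    funext i
    fin_cases i <;> rfl
  rw [h1]
  rfl

theorem dfn_cz2 {P : (Fin 2 → ℕ → ℕ) → Prop} (h : Pj N P) {m : ℕ}
    {F G : (Fin m → ZFSet.{0}) → ZFSet.{0}} (hF : DfnF N N F) (hG : DfnF N N G) :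
    Dfn N N fun v => Cz P ![F v, G v] := by
  refine Dfn.comp2 (Q := fun a b => Cz P ![a, b]) ?_ hF hG
  refine (h.dfn hN).congr fun v _ => ?_
  have h1 : (![v 0, v 1] : Fin 2 → ZFSet.{0}) = v := by
    funext i
    fin_cases i <;> rfl
  rw [h1]
  rfl

end dfn

/-- The set of the codes of the reals. -/
noncomputable def Rz (N : Set ZFSet.{0}) : ZFSet.{0} :=
  ZFSet.sep (fun z => ZFSet.IsFunc ZFSet.omega ZFSet.omega z)
    (pwM N (ZFSet.prod ZFSet.omega ZFSet.omega))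

theorem mem_Rz {N : Set ZFSet.{0}} {z : ZFSet.{0}} : z ∈ Rz N ↔ ∃ x ∈ Rls N, z = code x := by
  rw [Rz, ZFSet.mem_sep, mem_pwM]
  constructor
  · rintro ⟨⟨h1, -⟩, h2⟩
    obtain ⟨x, rfl⟩ := exists_code h2
    exact ⟨x, h1, rfl⟩
  · rintro ⟨x, hx, rfl⟩
    exact ⟨⟨hx, (isFunc_code x).1⟩, isFunc_code x⟩

theorem Rz_mem {N : Set ZFSet.{0}} (hN : IsZF N) : Rz N ∈ N := by
  have hω := hN.infinity
  refine hN.sep_mem ?_ (pwM_mem hN (hN.prod_mem hω hω))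
  exact hN.base.isFunc' (DfnF.const hω) (DfnF.const hω) (DfnF.proj 0)

theorem mem_cset {S : Set (ℕ → ℕ)} {z : ZFSet.{0}} : z ∈ cset S ↔ ∃ x ∈ S, z = code x := by
  rw [cset, ZFSet.mem_range]
  constructor
  · rintro ⟨⟨x, hx⟩, rfl⟩
    exact ⟨x, hx, rfl⟩
  · rintro ⟨x, hx, rfl⟩
    exact ⟨⟨x, hx⟩, rfl⟩

theorem mem_gset {N : Set ZFSet.{0}} {H : Set (Rls N)} {z : ZFSet.{0}} :
    z ∈ gset H ↔ ∃ h ∈ H, z = code h.1 := by
  rw [gset, mem_cset]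
  constructor
  · rintro ⟨_, ⟨h, hh, rfl⟩, rfl⟩
    exact ⟨h, hh, rfl⟩
  · rintro ⟨h, hh, rfl⟩
    exact ⟨_, ⟨h, hh, rfl⟩, rfl⟩

theorem code_mem_gset {N : Set ZFSet.{0}} {H : Set (Rls N)} {h : Rls N} :
    code h.1 ∈ gset H ↔ h ∈ H := by
  rw [mem_gset]
  constructor
  · rintro ⟨h', hh', h1⟩
    rw [Subtype.ext (code_inj h1)]
    exact hh'
  · exact fun hh => ⟨h, hh, rfl⟩

theorem gset_sub {N : Set ZFSet.{0}} {H : Set (Rls N)} : gset H ⊆ Rz N := by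
  intro z hz
  obtain ⟨h, -, rfl⟩ := mem_gset.1 hz
  exact mem_Rz.2 ⟨h.1, h.2, rfl⟩

theorem G0_supp {S : Set (ℕ → ℕ)} {g : Fr} (hg : g ∈ G0 S) {s : ℕ → ℕ} (hs : g s ≠ 0) :
    s ∈ S := by
  by_contra h
  apply hs
  refine AddSubgroup.closure_induction (p := fun g _ => g s = 0) ?_ ?_ ?_ ?_ hg
  · rintro g ⟨x, hx, y, hy, -, rfl⟩
    have h1 : x ≠ s := fun h1 => h (h1 ▸ hx)
    have h2 : y ≠ s := fun h2 => h (h2 ▸ hy)
    rw [Finsupp.add_apply, Finsupp.single_eq_of_ne' h1, Finsupp.single_eq_of_ne' h2, add_zero]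
  · rfl
  · intro g g' _ _ h1 h2
    rw [Finsupp.add_apply, h1, h2, add_zero]
  · intro g _ h1
    rw [Finsupp.neg_apply, h1, neg_zero]

/-! ### The relations of the group -/

/-- The relation of the addition. -/
def PA (N : Set ZFSet.{0}) (v : Fin 3 → ℕ → ℕ) : Prop :=
  ∃ a ∈ Rls N, ∃ b ∈ Rls N, ∃ c ∈ Rls N, GrF (Rls N) (v 0) a ∧ GrF (Rls N) (v 1) b ∧
      GrF (Rls N) (v 2) c ∧ K4 a b c

/-- The relation of the comparison of the values at a point. -/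
def PL (N : Set ZFSet.{0}) (v : Fin 3 → ℕ → ℕ) : Prop :=
  ∃ a ∈ Rls N, ∃ b ∈ Rls N, ∃ r ∈ Rls N, GrF (Rls N) (v 0) a ∧ GrF (Rls N) (v 1) b ∧
      K9 a b (v 2) r

/-- The relation between a real `x` and the element of the group that corresponds to `2 x`. -/
def PT (N : Set ZFSet.{0}) (v : Fin 2 → ℕ → ℕ) : Prop :=
  ∃ c ∈ Rls N, GrF (Rls N) (v 1) c ∧ K1 (v 0) c

section grp

variable {N : Set ZFSet.{0}} (hN : IsZF N) (hY : ∀ j, Yt j ∈ N) [hG : AddCommGroup (Rls N)]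
  (e : Rls N ≃+ G0 (Rls N))
  (he : ∀ (x : Rls N) (c : ℕ → ℕ), c ∈ Rls N →
    (dc c = evl ((e x : G0 (Rls N)) : Fr) ↔ GrF (Rls N) x c))

include hN hY e he

theorem exists_cod (x : Rls N) :
    ∃ c ∈ Rls N, dc c = evl ((e x : G0 (Rls N)) : Fr) ∧ GrF (Rls N) x c := by
  have h := code_mem (cls_Rls hN hY) (e x).2
  exact ⟨_, h, dc_cd _, (he x _ h).1 (dc_cd _)⟩

theorem PA_iff {a b c : ℕ → ℕ} (ha : a ∈ Rls N) (hb : b ∈ Rls N) (hc : c ∈ Rls N) :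
    PA N ![a, b, c] ↔ (⟨a, ha⟩ : Rls N) + ⟨b, hb⟩ = ⟨c, hc⟩ := by
  have hadd : ∀ (g h : Fr), evl (g + h) = fun m => evl g m + evl h m := fun g h =>
    funext fun m => evl_add g h m
  constructor
  · rintro ⟨x, hx, y, hy, z, hz, h1, h2, h3, h4⟩
    have h1' := (he ⟨a, ha⟩ x hx).2 h1
    have h2' := (he ⟨b, hb⟩ y hy).2 h2
    have h3' := (he ⟨c, hc⟩ z hz).2 h3
    apply e.injective
    apply Subtype.ext
    apply evl_injective
    rw [map_add, AddSubgroup.coe_add, hadd, ← h1', ← h2', ← h3']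
    exact funext h4
  · intro h
    obtain ⟨x, hx, h1, h1'⟩ := exists_cod hN hY e he ⟨a, ha⟩
    obtain ⟨y, hy, h2, h2'⟩ := exists_cod hN hY e he ⟨b, hb⟩
    obtain ⟨z, hz, h3, h3'⟩ := exists_cod hN hY e he ⟨c, hc⟩
    refine ⟨x, hx, y, hy, z, hz, h1', h2', h3', fun n => ?_⟩
    rw [h1, h2, h3, ← h, map_add, AddSubgroup.coe_add, hadd]

theorem PL_iff {a b s : ℕ → ℕ} (ha : a ∈ Rls N) (hb : b ∈ Rls N) :
    PL N ![a, b, s] ↔ ((e ⟨a, ha⟩ : G0 (Rls N)) : Fr) s ≤ ((e ⟨b, hb⟩ : G0 (Rls N)) : Fr) s := by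
  have hS := cls_Rls hN hY
  constructor
  · rintro ⟨x, hx, y, hy, r, hr, h1, h2, h3⟩
    have h1' := (he ⟨a, ha⟩ x hx).2 h1
    have h2' := (he ⟨b, hb⟩ y hy).2 h2
    exact (K9_iff hS.cst h1' h2' s).1 ⟨r, hr, h3⟩
  · intro h
    obtain ⟨x, hx, h1, h1'⟩ := exists_cod hN hY e he ⟨a, ha⟩
    obtain ⟨y, hy, h2, h2'⟩ := exists_cod hN hY e he ⟨b, hb⟩
    obtain ⟨r, hr, h3⟩ := (K9_iff hS.cst h1 h2 s).2 h
    exact ⟨x, hx, y, hy, r, hr, h1', h2', h3⟩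

theorem PT_iff {x g : ℕ → ℕ} (hg : g ∈ Rls N) :
    PT N ![x, g] ↔ ((e ⟨g, hg⟩ : G0 (Rls N)) : Fr) = Finsupp.single x 2 := by
  constructor
  · rintro ⟨c, hc, h1, h2⟩
    have h1' := (he ⟨g, hg⟩ c hc).2 h1
    have h2' := K1_iff.1 h2
    exact evl_injective (h1'.symm.trans h2')
  · intro h
    obtain ⟨c, hc, h1, h1'⟩ := exists_cod hN hY e he ⟨g, hg⟩
    refine ⟨c, hc, h1', K1_iff.2 ?_⟩
    rw [h1, h]
    rfl

/-- The graph of the addition is projective. -/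
theorem prj_grp : Prj N (grp hG) := by
  have h := pAdd hN hY (0 : Fin 3) 1 2
  have h1 : {x : Fin 3 → ℕ → ℕ | (∀ i, x i ∈ Rls N) ∧ ∃ a ∈ Rls N, ∃ b ∈ Rls N, ∃ c ∈ Rls N,
      GrF (Rls N) (x 0) a ∧ GrF (Rls N) (x 1) b ∧ GrF (Rls N) (x 2) c ∧ K4 a b c} = grp hG := by
    ext x
    have hx : ![x 0, x 1, x 2] = x := by
      funext i
      fin_cases i <;> rfl
    constructor
    · rintro ⟨h2, h3⟩
      have h4 := (PA_iff hN hY e he (h2 0) (h2 1) (h2 2)).1 h3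
      refine ⟨⟨x 0, h2 0⟩, ⟨x 1, h2 1⟩, rfl, rfl, ?_⟩
      rw [h4]
    · rintro ⟨a, b, h2, h3, h4⟩
      have h0 : x 0 ∈ Rls N := h2 ▸ a.2
      have h1 : x 1 ∈ Rls N := h3 ▸ b.2
      have h5 : x 2 ∈ Rls N := h4 ▸ (a + b).2
      refine ⟨fun i => ?_, (PA_iff hN hY e he h0 h1 h5).2 ?_⟩
      · fin_cases i
        · exact h0
        · exact h1
        · exact h5
      · have e1 : (⟨x 0, h0⟩ : Rls N) = a := Subtype.ext h2
        have e2 : (⟨x 1, h1⟩ : Rls N) = b := Subtype.ext h3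
        rw [e1, e2]
        exact Subtype.ext h4.symm
  unfold Pj at h
  rw [h1] at h
  exact h

end grp

end Pool.Agent.Helper71.LR
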