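import Pool.Agent.W868.Small

/-!
# Countable sets that are closed under witnesses for definable relations
-/

set_option autoImplicit false
set_option linter.unreachableTactic false
set_option linter.unusedTactic false
set_option linter.unusedSectionVars false

namespace Pool.Agent.Helper71.LR

open Pool.Agent.W868
open ZFSet (pair)

theorem exists_fml {V : Set ZFSet.{0}} (Qs : List ((Fin 3 → ZFSet.{0}) → Prop))
    (hQ : ∀ Q ∈ Qs, Dfn V V Q) : ∃ φ : Fml ZFSet.{0} 2, φ.Over V ∧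
      ∀ X : Set ZFSet.{0}, X ⊆ V → CL V X φ → ∀ Q ∈ Qs, ∀ p ∈ X, ∀ z ∈ X,
        (∃ x ∈ V, Q ![x, p, z]) → ∃ x ∈ X, Q ![x, p, z] := by
  induction Qs with
  | nil => exact ⟨.mem (Sum.inl 0) (Sum.inl 0), ⟨TOver.inl _, TOver.inl _⟩,
      fun _ _ _ Q hQ => absurd hQ List.not_mem_nil⟩
  | cons Q Qs ih =>
    obtain ⟨φ, h1, h2⟩ := ih fun Q' hQ' => hQ Q' (List.mem_cons_of_mem _ hQ')
    obtain ⟨ψ, h3, h4⟩ := hQ Q List.mem_cons_self
    refine ⟨.and (.ex ψ) φ, ⟨h3, h1⟩, fun X hX hCL Q' hQ' p hp z hz hx => ?_⟩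
    rcases List.mem_cons.1 hQ' with rfl | hQ'
    · have hv : ∀ x : ZFSet.{0}, (Fin.cons x ![p, z] : Fin 3 → ZFSet.{0}) = ![x, p, z] := by
        intro x
        funext i
        fin_cases i <;> rfl
      have hmem : ∀ x ∈ V, ∀ i, (![x, p, z] : Fin 3 → ZFSet.{0}) i ∈ V := by
        intro x hx i
        fin_cases i
        · exact hx
        · exact hX hp
        · exact hX hz
      obtain ⟨x, hxV, hx⟩ := hx
      obtain ⟨x', hx', h5⟩ := hCL.1.2 ![p, z] (by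
        intro i
        fin_cases i
        · exact hp
        · exact hz) ⟨x, hxV, by
          rw [hv]
          exact (h4 _ (hmem x hxV)).2 hx⟩
      rw [hv] at h5
      exact ⟨x', hx', (h4 _ (hmem x' (hX hx'))).1 h5⟩
    · exact h2 X hX hCL.2 Q' hQ' p hp z hz hx

/-- Countable sets that are closed under witnesses for finitely many relations. -/
theorem exists_hull {V : Set ZFSet.{0}} (hV : IsZF V) {e : ZFSet.{0} → ZFSet.{0}} (hg : GC V e)
    {a : ZFSet.{0}} (ha : a ∈ V) (hi : Inj V a ZFSet.omega)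
    (Qs : List ((Fin 3 → ZFSet.{0}) → Prop)) (hQ : ∀ Q ∈ Qs, Dfn V V Q) :
    ∃ X ∈ V, a ⊆ X ∧ Inj V X ZFSet.omega ∧ ∀ Q ∈ Qs, ∀ p ∈ X, ∀ z ∈ X,
      (∃ x ∈ V, Q ![x, p, z]) → ∃ x ∈ X, Q ![x, p, z] := by
  obtain ⟨φ, h1, h2⟩ := exists_fml Qs hQ
  obtain ⟨X, h3, h4, h5, h6⟩ := exists_small_hull hV hg hV.infinity isOrdinal_omega
    (fun _ h => h) ha hi φ h1
  exact ⟨X, h3, h4, h5, h2 {x | x ∈ X} (fun x hx => hV.trans _ h3 _ hx) h6⟩

end Pool.Agent.Helper71.LR
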