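import Pool.Agent.Helper71.LR.Rea
import Pool.Agent.Helper71.LR.Cod

/-!
# In `L(ℝ)` of the extension there is no injection of the classes of eventually equal reals into
the finite sets of reals
-/

set_option autoImplicit false
set_option linter.unreachableTactic false
set_option linter.unusedTactic false
set_option linter.unusedSectionVars false

namespace Pool.Agent.Helper71.LR

open Pool.Agent.W868 Pool.Agent.W868.GM Pool.Agent.Y588 Pool.Agent.H158_PC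
open Pool.Agent.H158_PC.AM (SymSys act Sy HS Sn Nm mem_act mk_sn chk_sn sub_nm nm_sub isZF_nm
  map_eq hs_iff)
open ZFSet (pair)

/-- The interpretation of the parameters is irrelevant for formulas without parameters. -/
theorem sat_noparam {W : Set ZFSet.{0}} (i : ZFSet.{0} → ZFSet.{0}) {n : ℕ}
    {φ : Fml ZFSet.{0} n} (hφ : φ.Over ∅) (v : Fin n → ZFSet.{0}) :
    Sat W i φ v ↔ Sat W id φ v := by
  have h1 : φ.map i = φ := map_eq (S := ∅) (fun a ha => absurd ha (Set.notMem_empty a)) φ hφ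
  have h2 := sat_map (M := W) (i := id) (f := i) φ v
  rw [h1] at h2
  exact h2.symm

open Classical in
/-- The Cohen real with the index `β`. -/
noncomputable def col (G β : ZFSet.{0}) (n : ℕ) : ℕ :=
  if {pair (pair β (nat n)) (nat 1)} ∈ G then 1 else 0

/-- The name of the Cohen real. -/
noncomputable def cnm (β : ZFSet.{0}) : ZFSet.{0} :=
  im (fun u => pair (chk ∅ u) {pair (pair β (fs u)) (sn u)}) (ZFSet.prod ZFSet.omega (nat 2))

section

variable {V : Set ZFSet.{0}} {A : ZFSet.{0}} (hL : IsLA A V) {I : ZFSet.{0}} (hI : I ∈ V)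

include hL hI

theorem cnm_mem {β : ZFSet.{0}} (hβ : β ∈ I) : cnm β ∈ V := by
  have hV := hL.zf
  have hB := hV.base
  refine hV.im_mem (hV.prod_mem hV.infinity (hV.nat_mem 2)) ?_
  refine hB.pair' (DfnF.comp1 (f := chk ∅) (dfn_chk hV hV.empty_mem) (DfnF.proj 0))
    (hB.single' (hB.pair' (hB.pair' (DfnF.const (hV.trans _ hI _ hβ)) (hV.fs' (DfnF.proj 0)))
    (hV.sn' (DfnF.proj 0))))

theorem single_PI {β i : ZFSet.{0}} (hβ : β ∈ I) (n : ℕ) (hi : i ∈ nat 2) :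
    ({pair (pair β (nat n)) i} : ZFSet.{0}) ∈ PI V I := by
  have hV := hL.zf
  have hβV := hV.trans _ hI _ hβ
  have hiV := hV.trans _ (hV.nat_mem 2) _ hi
  refine mem_PI'.2 ⟨hV.single_mem (hV.pair_mem (hV.pair_mem hβV (hV.nat_mem n)) hiV), ?_, ?_,
    fi_single _⟩
  · intro z hz
    rw [ZFSet.mem_singleton] at hz
    rw [hz]
    exact ZFSet.pair_mem_prod.2 ⟨ZFSet.pair_mem_prod.2 ⟨hβ, nat_mem_om n⟩, hi⟩
  · intro a b c h1 h2
    rw [ZFSet.mem_singleton] at h1 h2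
    exact (ZFSet.pair_inj.1 (h1.trans h2.symm)).2

variable {G : ZFSet.{0}} (hG : IsGeneric V (PI V I) (Lf (PI V I)) G)

include hG

/-- The places of the filter. -/
theorem single_mem_G {p u : ZFSet.{0}} (hp : p ∈ G) (hu : u ∈ p) : ({u} : ZFSet.{0}) ∈ G := by
  obtain ⟨h1, h2, h3, h4⟩ := mem_PI'.1 (hG.sub hp)
  have h5 := h2 hu
  obtain ⟨b, hb, i, hi, rfl⟩ := ZFSet.mem_prod.1 h5
  obtain ⟨β, hβ, n, hn, rfl⟩ := ZFSet.mem_prod.1 hb
  obtain ⟨n, rfl⟩ := mem_omega_iff.1 hn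
  refine hG.up p hp _ (single_PI hL hI hβ n hi) (mem_Lf.2 ⟨hG.sub hp, single_PI hL hI hβ n hi, ?_⟩)
  intro z hz
  rw [ZFSet.mem_singleton] at hz
  rwa [hz]

theorem single_unique {a i j : ZFSet.{0}} (h1 : ({pair a i} : ZFSet.{0}) ∈ G)
    (h2 : ({pair a j} : ZFSet.{0}) ∈ G) : i = j := by
  obtain ⟨r, hr, h3, h4⟩ := hG.dir _ h1 _ h2
  obtain ⟨h5, h6, h7, h8⟩ := mem_PI'.1 (hG.sub hr)
  exact h7 a i j ((mem_Lf.1 h3).2.2 (ZFSet.mem_singleton.2 rfl))
    ((mem_Lf.1 h4).2.2 (ZFSet.mem_singleton.2 rfl))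

/-- All places are decided. -/
theorem exists_single {β : ZFSet.{0}} (hβ : β ∈ I) (n : ℕ) :
    ({pair (pair β (nat n)) (nat 0)} : ZFSet.{0}) ∈ G ∨
      ({pair (pair β (nat n)) (nat 1)} : ZFSet.{0}) ∈ G := by
  have hV := hL.zf
  have hB := hV.base
  have hP := PI_mem hV hI
  have hβV := hV.trans _ hI _ hβ
  have haV : pair β (nat n) ∈ V := hV.pair_mem hβV (hV.nat_mem n)
  have h0 := hV.nat_mem 0
  have h1 := hV.nat_mem 1
  obtain ⟨q, hq, hqG⟩ := hG.meet (ZFSet.sep (fun p => pair (pair β (nat n)) (nat 0) ∈ p ∨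
      pair (pair β (nat n)) (nat 1) ∈ p) (PI V I)) (hV.sep_mem (Dfn.or
      (Dfn.mem (hB.pair' (DfnF.const haV) (DfnF.const h0)) (DfnF.proj 0))
      (Dfn.mem (hB.pair' (DfnF.const haV) (DfnF.const h1)) (DfnF.proj 0))) hP)
      (fun z hz => (ZFSet.mem_sep.1 hz).1) (by
    intro p hp
    obtain ⟨hpV, hpB, hpf, hpF⟩ := mem_PI'.1 hp
    by_cases h : pair (pair β (nat n)) (nat 1) ∈ p
    · exact ⟨p, ZFSet.mem_sep.2 ⟨hp, Or.inr h⟩, mem_Lf.2 ⟨hp, hp, fun _ h => h⟩⟩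
    have hs := single_PI hL hI hβ n (mem_two.2 (Or.inl rfl))
    have hsB := (mem_PI'.1 hs).2.1
    have hr : insert (pair (pair β (nat n)) (nat 0)) p ∈ PI V I := by
      refine mem_PI'.2 ⟨hV.insert_mem (hV.pair_mem haV h0) hpV, ?_, ?_, hpF.insert⟩
      · intro u hu
        rcases ZFSet.mem_insert_iff.1 hu with rfl | hu
        · exact hsB (ZFSet.mem_singleton.2 rfl)
        · exact hpB hu
      · have key : ∀ y, pair (pair β (nat n)) y ∈ p → y = nat 0 := by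
          intro y hy
          rcases mem_two.1 (ZFSet.pair_mem_prod.1 (hpB hy)).2 with rfl | rfl
          · rfl
          · exact absurd hy h
        intro x y z hy hz
        rcases ZFSet.mem_insert_iff.1 hy with hy | hy
        · obtain ⟨rfl, rfl⟩ := ZFSet.pair_inj.1 hy
          rcases ZFSet.mem_insert_iff.1 hz with hz | hz
          · exact (ZFSet.pair_inj.1 hz).2.symm
          · exact (key z hz).symm
        · rcases ZFSet.mem_insert_iff.1 hz with hz | hz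
          · obtain ⟨rfl, rfl⟩ := ZFSet.pair_inj.1 hz
            exact key y hy
          · exact hpf x y z hy hz
    exact ⟨_, ZFSet.mem_sep.2 ⟨hr, Or.inl (ZFSet.mem_insert _ _)⟩, mem_Lf.2 ⟨hr, hp, fun u hu =>
      ZFSet.mem_insert_of_mem _ hu⟩⟩)
  rcases (ZFSet.mem_sep.1 hq).2 with h | h
  · exact Or.inl (single_mem_G hL hI hG hqG h)
  · exact Or.inr (single_mem_G hL hI hG hqG h)

theorem col_iff {β : ZFSet.{0}} (hβ : β ∈ I) (n i : ℕ) : col G β n = i ↔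
    i < 2 ∧ ({pair (pair β (nat n)) (nat i)} : ZFSet.{0}) ∈ G := by
  unfold col
  split_ifs with h
  · constructor
    · rintro rfl
      exact ⟨by omega, h⟩
    · rintro ⟨-, h1⟩
      exact (nat_injective (single_unique hL hI hG h1 h)).symm
  · constructor
    · rintro rfl
      exact ⟨by omega, (exists_single hL hI hG hβ n).resolve_right h⟩
    · rintro ⟨h0, h1⟩
      interval_cases i
      · rfl
      · exact absurd h1 h

theorem ev_cnm {β : ZFSet.{0}} (hβ : β ∈ I) : ev G (cnm β) = code (col G β) := by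
  have h0G := empty_mem_G hL hG hI
  ext z
  rw [mem_ev, mem_code]
  constructor
  · rintro ⟨y, p, h1, h2, rfl⟩
    obtain ⟨u, hu, h3⟩ := mem_im.1 h1
    obtain ⟨rfl, rfl⟩ := ZFSet.pair_inj.1 h3
    obtain ⟨m, hm, i, hi, rfl⟩ := ZFSet.mem_prod.1 hu
    obtain ⟨n, rfl⟩ := mem_omega_iff.1 hm
    obtain ⟨i, hi2, rfl⟩ := mem_natK.1 hi
    rw [fs_pair, sn_pair] at h2
    refine ⟨n, ?_⟩
    rw [ev_chk h0G, (col_iff hL hI hG hβ n i).2 ⟨hi2, h2⟩]
  · rintro ⟨n, rfl⟩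
    obtain ⟨h1, h2⟩ := (col_iff hL hI hG hβ n _).1 rfl
    refine ⟨chk ∅ (pair (nat n) (nat (col G β n))), _, mem_im.2 ⟨pair (nat n)
      (nat (col G β n)), ZFSet.pair_mem_prod.2 ⟨nat_mem_om n, mem_natK.2 ⟨_, h1, rfl⟩⟩, rfl⟩, ?_,
      ev_chk h0G _⟩
    rw [fs_pair, sn_pair]
    exact h2

/-- The Cohen reals of the moved filter. -/
theorem col_aD {β D : ZFSet.{0}} (hβ : β ∈ I) (hD : D ∈ V) (n : ℕ) :
    (pair β (nat n) ∈ D → col (im (aD D) G) β n = 1 - col G β n) ∧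
    (pair β (nat n) ∉ D → col (im (aD D) G) β n = col G β n) := by
  have hG' := gen_aD hL hI hG hD
  have h2 := (col_iff hL hI hG hβ n _).1 rfl
  have hs := single_PI hL hI hβ n (mem_natK.2 ⟨_, h2.1, rfl⟩)
  have h3 := (mem_im_aD (D := D) hG hs).2 h2.2
  have h4 : aD D {pair (pair β (nat n)) (nat (col G β n))} =
      {flp D (pair (pair β (nat n)) (nat (col G β n)))} := by
    ext z
    rw [aD, mem_im, ZFSet.mem_singleton]
    constructor
    · rintro ⟨y, hy, rfl⟩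
      rw [ZFSet.mem_singleton.1 hy]
    · rintro rfl
      exact ⟨_, ZFSet.mem_singleton.2 rfl, rfl⟩
  rw [h4] at h3
  constructor
  · intro h
    rw [flp_pos h] at h3
    refine (col_iff hL hI hG' hβ n _).2 ⟨by omega, ?_⟩
    have h5 : cm (nat (col G β n)) = nat (1 - col G β n) := by
      have h6 := h2.1
      rcases Nat.lt_succ_iff.1 h6 |>.lt_or_eq with h7 | h7
      · have h8 : col G β n = 0 := by omega
        rw [h8, cm_zero]
      · rw [h7, cm_one]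
    rwa [h5] at h3
  · intro h
    rw [flp_neg h] at h3
    exact (col_iff hL hI hG' hβ n _).2 ⟨h2.1, h3⟩

/-- The places of the column `β` that are not in the domain of `p`. -/
theorem exists_D {a β p : ZFSet.{0}} (hβ : β ∈ I) (hβa : β ∉ a) (hp : p ∈ PI V I) :
    ∃ D ∈ Ha V I a, aD D p = p ∧ ∃ m : ℕ, ∀ n, m ≤ n → pair β (nat n) ∈ D := by
  have hV := hL.zf
  have hB := hV.base
  have hβV := hV.trans _ hI _ hβ
  obtain ⟨hpV, hpB, hpf, hpF⟩ := mem_PI'.1 hp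
  set D : ZFSet.{0} := ZFSet.sep (fun u => fs u = β ∧ ¬ u ∈ dm p)
    (ZFSet.prod I ZFSet.omega) with hD
  have hDV : D ∈ V := hV.sep_mem ((Dfn.eq (hV.fs' (DfnF.proj 0)) (DfnF.const hβV)).and
    (Dfn.mem (DfnF.proj 0) (DfnF.const (dm_mem hV hpV))).not) (hV.prod_mem hI hV.infinity)
  refine ⟨D, mem_Ha.2 ⟨mem_GrI.2 ⟨hDV, fun z hz => (ZFSet.mem_sep.1 hz).1⟩, fun u hu => ?_⟩,
    aD_fix fun u hu h => (ZFSet.mem_sep.1 h).2.2 (mem_im.2 ⟨u, hu, rfl⟩), ?_⟩
  · rw [(ZFSet.mem_sep.1 hu).2.1]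
    exact hβa
  · have h1 : {n : ℕ | pair β (nat n) ∈ dm p}.Finite := by
      refine Set.Finite.of_finite_image (f := fun n : ℕ => pair β (nat n))
        (Set.Finite.subset (fi_dm hpF) ?_) ?_
      · rintro _ ⟨n, hn, rfl⟩
        exact hn
      · intro n _ m _ h
        exact nat_injective (ZFSet.pair_inj.1 h).2
    obtain ⟨m, hm⟩ := h1.bddAbove
    refine ⟨m + 1, fun n hn => ZFSet.mem_sep.2 ⟨ZFSet.pair_mem_prod.2 ⟨hβ, nat_mem_om n⟩,
      fs_pair _ _, fun h => ?_⟩⟩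
    have h2 : n ≤ m := hm h
    omega

/-- The traces of the Cohen real. -/
theorem half {a β σ : ZFSet.{0}} (hβ : β ∈ I) (hβa : β ∉ a) (hσ : σ ∈ V)
    (hfix : ∀ D ∈ Ha V I a, act (PI V I) aD D σ = σ) {s : ZFSet.{0}} (hs : s ∈ V)
    (h : ∃ b ∈ ext V G, s ⊆ b ∧ pair b (code (col G β)) ∈ ev G σ) :
    ∃ D ∈ Ha V I a, (∃ m : ℕ, ∀ n, m ≤ n → pair β (nat n) ∈ D) ∧
      ∃ b ∈ ext V G, s ⊆ b ∧ pair b (code (col (im (aD D) G) β)) ∈ ev G σ := by
  have hV := hL.zf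
  have hP := forcing_PI hV hI
  have h0 := hV.empty_mem
  have hW := zf_ext hL hP hG
  obtain ⟨φ, h1, h2⟩ : Dfn ∅ (ext V G) fun w : Fin 3 → ZFSet.{0} =>
      ∃ b ∈ ext V G, w 0 ⊆ b ∧ pair b (w 1) ∈ w 2 := by
    apply Dfn.ex
    exact (hW.base.subset' (DfnF.proj 1) (DfnF.proj 0)).and
      (Dfn.mem (hW.base.pair' (DfnF.proj 0) (DfnF.proj 2)) (DfnF.proj 3))
  have hφV : φ.Over V := h1.mono (Set.empty_subset V)
  -- the truth lemma
  have key : ∀ {K : ZFSet.{0}}, IsGeneric V (PI V I) (Lf (PI V I)) K → ext V K = ext V G →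
      ((∃ b ∈ ext V G, s ⊆ b ∧ pair b (code (col K β)) ∈ ev K σ) ↔
        ∃ p ∈ K, Frc (PI V I) (Lf (PI V I)) V φ ![chk ∅ s, cnm β, σ] p) := by
    intro K hK hKG
    have h0K := empty_mem_G hL hK hI
    have hmem : ∀ i, (![chk ∅ s, cnm β, σ] : Fin 3 → ZFSet.{0}) i ∈ V := by
      intro i
      fin_cases i
      · exact chk_mem hV h0 hs
      · exact cnm_mem hL hI hβ
      · exact hσ
    have h3 := truth hV hP hK φ hφV ![chk ∅ s, cnm β, σ] hmem
    rw [sat_noparam _ h1] at h3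
    rw [← h3]
    have h4 : (ev K ∘ ![chk ∅ s, cnm β, σ] : Fin 3 → ZFSet.{0}) =
        ![s, code (col K β), ev K σ] := by
      funext i
      fin_cases i
      · exact ev_chk h0K s
      · exact ev_cnm hL hI hK hβ
      · rfl
    rw [hKG, h2 _ (fun i => by
      rw [← hKG]
      exact ⟨_, hmem i, rfl⟩), h4]
    rfl
  obtain ⟨p, hp, h3⟩ := (key hG rfl).1 h
  obtain ⟨D, hD, hDp, hm⟩ := exists_D hL hI hG hβ hβa (hG.sub hp)
  have hDV := (mem_GrI.1 (mem_Ha.1 hD).1).1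
  have hG' := gen_aD hL hI hG hDV
  have hpG' : p ∈ im (aD D) G := mem_im.2 ⟨p, hp, hDp.symm⟩
  have h4 := (key hG' (ext_aD hL hI hG hDV)).2 ⟨p, hpG', h3⟩
  have h5 := ev_aD (D := D) hG σ
  rw [hfix D hD] at h5
  rw [h5] at h4
  exact ⟨D, hD, hm, h4⟩

/-- The main lemma on the extension. -/
theorem no_inv (hIu : ¬ Inj V I ZFSet.omega) {F : ZFSet.{0}} (hF : F ∈ LRm (ext V G))
    (hpr : ∀ z ∈ F, ∃ b x : ℕ → ℕ, z = pair (code b) (code x))
    (hfin : ∀ x ∈ Rls (ext V G), {b | pair (code b) (code x) ∈ F}.Finite)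
    (hev : ∀ x ∈ Rls (ext V G), ∀ y ∈ Rls (ext V G),
      (∀ b, pair (code b) (code x) ∈ F ↔ pair (code b) (code y) ∈ F) ↔ Ev x y) : False := by
  have hV := hL.zf
  have hP := forcing_PI hV hI
  have hW := zf_ext hL hP hG
  have hFW : F ∈ ext V G := LRm_sub hW hF
  obtain ⟨σ, ⟨hσV, hσS⟩, rfl⟩ := LRm_sub_Nm hL hI hG hF
  obtain ⟨H, hH, hfix⟩ := (hs_iff.1 hσS).1
  obtain ⟨a, ha, rfl⟩ := mem_FlI.1 hH
  obtain ⟨⟨haV, haI⟩, hai⟩ := mem_Cs.1 ha
  obtain ⟨β, hβ, hβa⟩ : ∃ β ∈ I, β ∉ a := by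
    by_contra hcon
    push Not at hcon
    have : a = I := by
      ext z
      exact ⟨fun h => haI h, fun h => hcon z h⟩
    rw [this] at hai
    exact hIu hai
  have hcol : ∀ {K : ZFSet.{0}}, IsGeneric V (PI V I) (Lf (PI V I)) K → ext V K = ext V G →
      col K β ∈ Rls (ext V G) := by
    intro K hK hKG
    show code (col K β) ∈ ext V G
    rw [← ev_cnm hL hI hK hβ, ← hKG]
    exact ⟨_, cnm_mem hL hI hβ, rfl⟩
  -- the full flip
  obtain ⟨D0, hD0, -, -⟩ := exists_D hL hI hG hβ hβa (empty_PI hL hI)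
  have hD0V := (mem_GrI.1 (mem_Ha.1 hD0).1).1
  set E : ZFSet.{0} := ZFSet.sep (fun u => fs u = β) (ZFSet.prod I ZFSet.omega) with hE
  have hEV : E ∈ V := hV.sep_mem (Q := fun u => fs u = β) (Dfn.eq (hV.fs' (DfnF.proj 0))
    (DfnF.const (hV.trans _ hI _ hβ))) (hV.prod_mem hI hV.infinity)
  have hEm : ∀ n : ℕ, pair β (nat n) ∈ E := fun n => ZFSet.mem_sep.2
    ⟨ZFSet.pair_mem_prod.2 ⟨hβ, nat_mem_om n⟩, fs_pair _ _⟩
  have hEH : E ∈ Ha V I a := mem_Ha.2 ⟨mem_GrI.2 ⟨hEV, fun z hz => (ZFSet.mem_sep.1 hz).1⟩,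
    fun u hu => by rw [(ZFSet.mem_sep.1 hu).2]; exact hβa⟩
  -- one inclusion of the traces
  have tr : ∀ {K : ZFSet.{0}}, IsGeneric V (PI V I) (Lf (PI V I)) K → ext V K = ext V G →
      ev K σ = ev G σ → ∀ s, IsHF s → (∃ b, s ⊆ code b ∧ pair (code b) (code (col K β)) ∈ ev G σ) →
        ∃ b, s ⊆ code b ∧ pair (code b) (code (col (im (aD E) K) β)) ∈ ev G σ := by
    intro K hK hKG hKσ s hs h
    have hK1 := gen_aD hL hI hK hEV
    have hK2 := ext_aD hL hI hK hEV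
    have hmemW : ∀ {b x : ZFSet.{0}}, pair b x ∈ ev G σ → b ∈ ext V K := by
      intro b x hbx
      rw [hKG]
      exact (hW.of_pair_mem (hW.trans _ hFW _ hbx)).1
    obtain ⟨b, hsb, hb⟩ := h
    obtain ⟨D, hD, ⟨m, hm⟩, b', -, hsb', hb'⟩ := half hL hI hK hβ hβa hσV hfix
      (hf_memK hV hs) ⟨code b, hmemW hb, hsb, by rw [hKσ]; exact hb⟩
    rw [hKσ] at hb'
    have hDV := (mem_GrI.1 (mem_Ha.1 hD).1).1
    obtain ⟨c, x, hcx⟩ := hpr _ hb'
    obtain ⟨rfl, hx⟩ := ZFSet.pair_inj.1 hcx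
    refine ⟨c, hsb', ?_⟩
    have h6 := (hev (col (im (aD D) K) β)
      (hcol (gen_aD hL hI hK hDV) ((ext_aD hL hI hK hDV).trans hKG))
      (col (im (aD E) K) β) (hcol hK1 (hK2.trans hKG))).2 ⟨m, fun n hn => by
        rw [(col_aD hL hI hK hβ hDV n).1 (hm n hn), (col_aD hL hI hK hβ hEV n).1 (hEm n)]⟩
    exact (h6 c).1 hb'
  have hG1 := gen_aD hL hI hG hEV
  have hG2 := ext_aD hL hI hG hEV
  have hG3 : ev (im (aD E) G) σ = ev G σ := by
    have h := ev_aD (D := E) hG σ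
    rwa [hfix E hEH] at h
  have hG4 : im (aD E) (im (aD E) G) = G := by
    ext z
    rw [mem_im]
    constructor
    · rintro ⟨y, hy, rfl⟩
      obtain ⟨x, hx, rfl⟩ := mem_im.1 hy
      rw [aD_aD (mem_PI'.1 (hG.sub hx)).2.1]
      exact hx
    · intro hz
      exact ⟨_, mem_im.2 ⟨z, hz, rfl⟩, (aD_aD (mem_PI'.1 (hG.sub hz)).2.1).symm⟩
  have t1 := tr hG rfl rfl
  have t2 := tr hG1 hG2 hG3
  rw [hG4] at t2
  -- finite sets of reals are determined by their traces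
  have fin : ∀ {S T : Set (ℕ → ℕ)}, T.Finite →
      (∀ s, IsHF s → (∃ b ∈ S, s ⊆ code b) → ∃ b ∈ T, s ⊆ code b) → S ⊆ T := by
    intro S T hT h b hb
    by_contra hbT
    have h7 : ∀ c ∈ T, ∃ n, b n ≠ c n := by
      intro c hc
      by_contra hcon
      push Not at hcon
      have : b = c := funext hcon
      exact hbT (this ▸ hc)
    choose! f hf using h7
    obtain ⟨m, hm⟩ := (hT.image f).bddAbove
    obtain ⟨c, hc, h8⟩ := h (rs b (m + 1)) (isHF_rs b (m + 1)) ⟨b, hb, fun z hz => by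
      obtain ⟨i, -, rfl⟩ := mem_rs.1 hz
      exact pair_mem_code.2 rfl⟩
    have h9 : f c ≤ m := hm ⟨c, hc, rfl⟩
    have h10 : pair (nat (f c)) (nat (b (f c))) ∈ code c :=
      h8 (pair_mem_rs.2 ⟨by omega, rfl⟩)
    exact hf c hc (pair_mem_code.1 h10).symm
  have hx := hcol hG rfl
  have hx' := hcol hG1 hG2
  have s1 := fin (S := {b | pair (code b) (code (col G β)) ∈ ev G σ})
    (T := {b | pair (code b) (code (col (im (aD E) G) β)) ∈ ev G σ}) (hfin _ hx') (by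
      rintro s hs ⟨b, hb, hsb⟩
      obtain ⟨c, hc, hc'⟩ := t1 s hs ⟨b, hsb, hb⟩
      exact ⟨c, hc', hc⟩)
  have s2 := fin (S := {b | pair (code b) (code (col (im (aD E) G) β)) ∈ ev G σ})
    (T := {b | pair (code b) (code (col G β)) ∈ ev G σ}) (hfin _ hx) (by
      rintro s hs ⟨b, hb, hsb⟩
      obtain ⟨c, hc, hc'⟩ := t2 s hs ⟨b, hsb, hb⟩
      exact ⟨c, hc', hc⟩)
  obtain ⟨m, hm⟩ := (hev _ hx _ hx').1 fun b => ⟨fun h => s1 h, fun h => s2 h⟩
  have h11 := hm m le_rfl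
  rw [(col_aD hL hI hG hβ hEV m).1 (hEm m)] at h11
  have h12 := ((col_iff hL hI hG hβ m _).1 rfl).1
  omega

end

end Pool.Agent.Helper71.LR
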