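import Pool.Agent.W868.LZF

/-!
# The constructible hierarchy over a transitive set
-/

set_option autoImplicit false
set_option linter.unreachableTactic false
set_option linter.unusedTactic false
set_option linter.unusedSectionVars false

namespace Pool.Agent.Helper71.LR

open Pool.Agent.W868
open ZFSet (pair)

/-- The levels of the hierarchy. -/
noncomputable def Lb (B ξ : ZFSet.{0}) : ZFSet.{0} := itr (step ∅) B ξ

/-- The sets of `M` that are constructible over `B`. -/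
def LB (M : Set ZFSet.{0}) (B : ZFSet.{0}) : Set ZFSet.{0} :=
  {x | ∃ ξ ∈ M, ξ.IsOrdinal ∧ x ∈ Lb B ξ}

theorem mem_Lb {B z y : ZFSet.{0}} : y ∈ Lb B z ↔ y ∈ B ∨ ∃ u ∈ z, y ∈ step ∅ (Lb B u) := mem_itr

theorem base_sub_Lb {B z : ZFSet.{0}} : B ⊆ Lb B z := itr_base

theorem step_subset_Lb {B z u : ZFSet.{0}} (h : u ∈ z) : step ∅ (Lb B u) ⊆ Lb B z := itr_step h

theorem Lb_subset {B z u : ZFSet.{0}} (h : u ∈ z) : Lb B u ⊆ Lb B z :=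
  fun _ hy => step_subset_Lb h (subset_step hy)

theorem Lb_mem {B z u : ZFSet.{0}} (h : u ∈ z) : Lb B u ∈ Lb B z :=
  step_subset_Lb h self_mem_step

theorem Lb_mono {B z z' : ZFSet.{0}} (h : z ⊆ z') : Lb B z ⊆ Lb B z' := itr_mono h

theorem Lb_trans {B : ZFSet.{0}} (hB : ∀ x ∈ B, ∀ y ∈ x, y ∈ B) (z : ZFSet.{0}) :
    ∀ y ∈ Lb B z, ∀ w ∈ y, w ∈ Lb B z := by
  induction z using ZFSet.inductionOn with
  | _ z ih =>
  intro y hy w hw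
  rcases mem_Lb.1 hy with hy | ⟨u, hu, h⟩
  · exact base_sub_Lb (hB y hy w hw)
  rcases step_cases h with h | h
  · exact Lb_subset hu (ih u hu y h w hw)
  · exact Lb_subset hu (h hw)

theorem Lb_sc {B z : ZFSet.{0}} : Lb B (sc z) = step ∅ (Lb B z) := by
  ext y
  rw [mem_Lb]
  constructor
  · rintro (h | ⟨u, hu, h⟩)
    · exact subset_step (base_sub_Lb h)
    · rcases ZFSet.mem_insert_iff.1 hu with rfl | hu
      · exact h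
      · exact subset_step (mem_Lb.2 (Or.inr ⟨u, hu, h⟩))
  · intro h
    exact Or.inr ⟨z, ZFSet.mem_insert _ _, h⟩

section dfn

variable {M : Set ZFSet.{0}} (hM : IsZF M) {B : ZFSet.{0}} (hB : B ∈ M)

include hM hB

theorem dfn_Lb : DfnF M M fun w : Fin 1 → ZFSet.{0} => Lb B (w 0) :=
  dfn_itr hM hB (dfn_step hM hM.empty_mem)

theorem Lb_mem_M {z : ZFSet.{0}} (hz : z ∈ M) : Lb B z ∈ M :=
  (dfn_Lb hM hB).1 (fun _ => z) fun _ => hz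

end dfn

/-! ### Closure under the basic operations -/

theorem upair_mem_Lb {B ξ x y : ZFSet.{0}} (hx : x ∈ Lb B ξ) (hy : y ∈ Lb B ξ) :
    ({x, y} : ZFSet.{0}) ∈ Lb B (sc ξ) := by
  rw [Lb_sc]
  refine mem_step.2 (Or.inr ⟨1, by omega, x, ZFSet.mem_insert_of_mem _ hx, y,
    ZFSet.mem_insert_of_mem _ hy, fun u => ?_⟩)
  rw [ZFSet.mem_pair]
  constructor
  · rintro (rfl | rfl)
    · exact ⟨hx, Or.inl rfl⟩
    · exact ⟨hy, Or.inr rfl⟩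
  · exact fun h => h.2

theorem pair_mem_Lb {B ξ x y : ZFSet.{0}} (hx : x ∈ Lb B ξ) (hy : y ∈ Lb B ξ) :
    pair x y ∈ Lb B (sc (sc ξ)) := by
  have h1 := upair_mem_Lb hx hx
  rw [ZFSet.pair_eq_singleton] at h1
  exact upair_mem_Lb h1 (upair_mem_Lb hx hy)

theorem Lb_sub_sc {B ξ : ZFSet.{0}} : Lb B ξ ⊆ Lb B (sc ξ) := Lb_subset (ZFSet.mem_insert _ _)

theorem Lb_sub_sc2 {B ξ : ZFSet.{0}} : Lb B ξ ⊆ Lb B (sc (sc ξ)) :=
  fun _ h => Lb_sub_sc (Lb_sub_sc h)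

theorem of_pair_mem_Lb {B ξ x y : ZFSet.{0}} (hB : ∀ x ∈ B, ∀ y ∈ x, y ∈ B)
    (h : pair x y ∈ Lb B ξ) : x ∈ Lb B ξ ∧ y ∈ Lb B ξ := by
  have h1 : ({x, y} : ZFSet.{0}) ∈ Lb B ξ := Lb_trans hB _ _ h _ (by simp [pair])
  exact ⟨Lb_trans hB _ _ h1 _ (by simp), Lb_trans hB _ _ h1 _ (by simp)⟩

theorem GR_bound_Lb {B ξ a b u : ZFSet.{0}} (hB : ∀ x ∈ B, ∀ y ∈ x, y ∈ B) (ha : a ∈ Lb B ξ)
    (hb : b ∈ Lb B ξ) : ∀ i < 10, GR ∅ i u a b → u ∈ Lb B (sc (sc (sc (sc ξ)))) := by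
  intro i hi h
  have tr : ∀ {x y : ZFSet.{0}}, x ∈ y → y ∈ Lb B ξ → x ∈ Lb B ξ := fun hx hy =>
    Lb_trans hB _ _ hy _ hx
  have up : ∀ {x : ZFSet.{0}}, x ∈ Lb B ξ → x ∈ Lb B (sc (sc (sc (sc ξ)))) := fun hx =>
    Lb_sub_sc2 (Lb_sub_sc2 hx)
  match i, hi, h with
  | 0, _, h => exact up (tr h ha)
  | 1, _, h =>
    rcases h with rfl | rfl
    · exact up ha
    · exact up hb
  | 2, _, h =>
    obtain ⟨x, hx, h⟩ := h
    exact up (tr h (tr hx ha))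
  | 3, _, h => exact up (tr h.1 ha)
  | 4, _, h =>
    obtain ⟨x, hx, y, hy, rfl⟩ := h
    exact Lb_sub_sc2 (pair_mem_Lb (tr hx ha) (tr hy hb))
  | 5, _, h =>
    obtain ⟨p, hp, x, y, rfl, rfl⟩ := h
    exact up (of_pair_mem_Lb hB (tr hp ha)).2
  | 6, _, h =>
    obtain ⟨p, hp, x, y, rfl, rfl⟩ := h
    exact up (of_pair_mem_Lb hB (tr hp ha)).1
  | 7, _, h =>
    obtain ⟨x, hx, y, hy, c, d, rfl, rfl, rfl⟩ := h
    exact pair_mem_Lb (Lb_sub_sc2 (tr hx ha)) (pair_mem_Lb (tr hx ha) (tr hy hb))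
  | 8, _, h =>
    obtain ⟨z, hz, p, hp, x, y, rfl, c, d, rfl, rfl, rfl⟩ := h
    have h1 := of_pair_mem_Lb hB (tr hp hb)
    exact pair_mem_Lb (Lb_sub_sc2 h1.1) (pair_mem_Lb (tr hz ha) h1.2)
  | 9, _, h =>
    obtain ⟨p, hp, q, hq, x, y, rfl, rfl, -⟩ := h
    exact up (of_pair_mem_Lb hB (tr hp ha)).2

section LB

variable {M : Set ZFSet.{0}} (hM : IsZF M) {A : ZFSet.{0}} (hT : ∀ x ∈ A, ∀ y ∈ x, y ∈ A)

include hM hT

theorem gd_LB : Gd ∅ (LB M A) := by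
  have hsc : ∀ ξ ∈ M, sc ξ ∈ M := fun ξ h => hM.sc_mem h
  have hso : ∀ {ξ : ZFSet.{0}}, ξ.IsOrdinal → (sc ξ).IsOrdinal := fun h => ZFSet.isOrdinal_succ h
  refine ⟨?_, ?_, ?_⟩
  · rintro x ⟨ξ, h1, h2, h3⟩ y hy
    exact ⟨ξ, h1, h2, Lb_trans hT _ _ h3 _ hy⟩
  · refine ⟨Lb A ∅, sc ∅, hsc _ hM.empty_mem, hso ZFSet.isOrdinal_empty,
      Lb_mem (ZFSet.mem_insert _ _)⟩
  · rintro i hi a ⟨ξ, h1, h2, ha⟩ b ⟨η, h3, h4, hb⟩
    obtain ⟨ζ, hζ, hζo, ha', hb'⟩ : ∃ ζ ∈ M, ζ.IsOrdinal ∧ a ∈ Lb A ζ ∧ b ∈ Lb A ζ := by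
      rcases h2.subset_total h4 with h5 | h5
      · exact ⟨η, h3, h4, Lb_mono h5 ha, hb⟩
      · exact ⟨ξ, h1, h2, ha, Lb_mono h5 hb⟩
    set δ := sc (sc (sc (sc ζ))) with hδ
    have hδM : δ ∈ M := hsc _ (hsc _ (hsc _ (hsc _ hζ)))
    have hδo : δ.IsOrdinal := hso (hso (hso (hso hζo)))
    have up : ∀ {x : ZFSet.{0}}, x ∈ Lb A ζ → x ∈ Lb A δ := fun hx =>
      Lb_sub_sc2 (Lb_sub_sc2 hx)
    refine ⟨ZFSet.sep (fun u => GR ∅ i u a b) (Lb A δ), ⟨sc δ, hsc _ hδM, hso hδo, ?_⟩, ?_⟩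
    · rw [Lb_sc]
      refine mem_step.2 (Or.inr ⟨i, by omega, a, ZFSet.mem_insert_of_mem _ (up ha'), b,
        ZFSet.mem_insert_of_mem _ (up hb'), fun u => ?_⟩)
      rw [ZFSet.mem_sep]
    · intro u
      rw [ZFSet.mem_sep]
      exact ⟨fun h => h.2, fun h => ⟨GR_bound_Lb hT ha' hb' i hi h, h⟩⟩

end LB

end Pool.Agent.Helper71.LR
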