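import Pool.Agent.Helper71.LR.Fre
import Pool.Agent.Helper71.LR.Key
import Pool.Agent.Helper71.LR.Grd

/-!
# The group is not free in `L(ℝ)` of the extension, and the main theorem
-/

set_option autoImplicit false
set_option linter.unreachableTactic false
set_option linter.unusedTactic false
set_option linter.unusedSectionVars false

namespace Pool.Agent.Helper71.LR

open Pool.Agent.W868 Pool.Agent.W868.GM Pool.Agent.Y588 Pool.Agent.H158_PC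
open ZFSet (pair)

section

variable {N : Set ZFSet.{0}} (hN : IsZF N) (hY : ∀ j, Yt j ∈ N) [hG : AddCommGroup (Rls N)]
  (e : Rls N ≃+ G0 (Rls N))
  (he : ∀ (x : Rls N) (c : ℕ → ℕ), c ∈ Rls N →
    (dc c = evl ((e x : G0 (Rls N)) : Fr) ↔ GrF (Rls N) x c))

/-- The sets of elements of the group that are in the model. -/
def KN {N : Set ZFSet.{0}} : Set (Set (Rls N)) := {K | gset K ∈ N}

/-- The step of the construction of a submonoid. -/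
noncomputable def Ts (N : Set ZFSet.{0}) (X : ZFSet.{0}) : ZFSet.{0} :=
  X ∪ ZFSet.sep (fun c => ∃ a ∈ X, ∃ b ∈ X, Cz (PA N) ![a, b, c]) (Rz N)

/-- The start of the construction of a submonoid. -/
noncomputable def X0 (N : Set ZFSet.{0}) (Bz b : ZFSet.{0}) : ZFSet.{0} :=
  ZFSet.sep (fun z => ¬ z = b) Bz ∪ ZFSet.sep (fun c => ∃ a ∈ Rz N, Cz (PA N) ![a, a, c]) (Rz N)

include hN hY e he

theorem PA_iff' (a b c : Rls N) : Cz (PA N) ![code a.1, code b.1, code c.1] ↔ a + b = c := by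
  rw [cz3]
  exact PA_iff hN hY e he a.2 b.2 c.2

theorem mem_Ts_code {X : ZFSet.{0}} {S : Set (Rls N)} (hX : X = gset S) :
    Ts N X = gset (S ∪ {c | ∃ a ∈ S, ∃ b ∈ S, a + b = c}) := by
  subst hX
  ext z
  rw [Ts, ZFSet.mem_union, ZFSet.mem_sep, mem_gset, mem_gset]
  constructor
  · rintro (⟨h, hh, rfl⟩ | ⟨hz, a', ha', b', hb', h⟩)
    · exact ⟨h, Or.inl hh, rfl⟩
    · obtain ⟨c, hc, rfl⟩ := mem_Rz.1 hz
      obtain ⟨a, ha, rfl⟩ := mem_gset.1 ha'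
      obtain ⟨b, hb, rfl⟩ := mem_gset.1 hb'
      exact ⟨⟨c, hc⟩, Or.inr ⟨a, ha, b, hb, (PA_iff' hN hY e he a b ⟨c, hc⟩).1 h⟩, rfl⟩
  · rintro ⟨c, hc | ⟨a, ha, b, hb, h⟩, rfl⟩
    · exact Or.inl ⟨c, hc, rfl⟩
    · exact Or.inr ⟨mem_Rz.2 ⟨c.1, c.2, rfl⟩, _, code_mem_gset.2 ha, _, code_mem_gset.2 hb,
        (PA_iff' hN hY e he a b c).2 h⟩

theorem X0_eq (B : Set (Rls N)) (b : Rls N) :
    X0 N (gset B) (code b.1) = gset ((B \ {b}) ∪ Set.range fun g : Rls N => g + g) := by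
  ext z
  rw [X0, ZFSet.mem_union, ZFSet.mem_sep, ZFSet.mem_sep, mem_gset, mem_gset]
  constructor
  · rintro (⟨⟨g, hg, rfl⟩, h⟩ | ⟨hz, a', ha', h⟩)
    · exact ⟨g, Or.inl ⟨hg, fun h1 => h (by rw [h1])⟩, rfl⟩
    · obtain ⟨c, hc, rfl⟩ := mem_Rz.1 hz
      obtain ⟨a, ha, rfl⟩ := mem_Rz.1 ha'
      exact ⟨⟨c, hc⟩, Or.inr ⟨⟨a, ha⟩, (PA_iff' hN hY e he ⟨a, ha⟩ ⟨a, ha⟩ ⟨c, hc⟩).1 h⟩, rfl⟩
  · rintro ⟨c, ⟨hc, hcb⟩ | ⟨a, h⟩, rfl⟩
    · exact Or.inl ⟨⟨c, hc, rfl⟩, fun h1 => hcb (Subtype.ext (code_inj h1))⟩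
    · exact Or.inr ⟨mem_Rz.2 ⟨c.1, c.2, rfl⟩, _, mem_Rz.2 ⟨a.1, a.2, rfl⟩,
        (PA_iff' hN hY e he a a c).2 h⟩

theorem dfn_Ts : DfnF N N fun w : Fin 1 → ZFSet.{0} => Ts N (w 0) := by
  have hB := hN.base
  refine hB.union' (DfnF.proj 0) ?_
  refine hN.sep' (Q := fun c w => ∃ a ∈ w 0, ∃ b ∈ w 0, Cz (PA N) ![a, b, c])
    (DfnF.const (Rz_mem hN)) ?_
  refine hB.bex (Q := fun a (w : Fin 2 → ZFSet.{0}) => ∃ b ∈ w 1, Cz (PA N) ![a, b, w 0])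
    (DfnF.proj 1) ?_
  refine hB.bex (Q := fun b (w : Fin 3 → ZFSet.{0}) => Cz (PA N) ![w 0, b, w 1])
    (DfnF.proj 2) ?_
  exact dfn_cz3 hN (pj_PA hN hY) (DfnF.proj 1) (DfnF.proj 0) (DfnF.proj 2)

theorem X0_mem {B b : ZFSet.{0}} (hB' : B ∈ N) (hb : b ∈ N) : X0 N B b ∈ N := by
  have hB := hN.base
  refine hN.union_mem (hN.sep_mem (Dfn.eq (DfnF.proj 0) (DfnF.const hb)).not hB')
    (hN.sep_mem ?_ (Rz_mem hN))
  refine hB.bex (Q := fun a (w : Fin 1 → ZFSet.{0}) => Cz (PA N) ![a, a, w 0])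
    (DfnF.const (Rz_mem hN)) ?_
  exact dfn_cz3 hN (pj_PA hN hY) (DfnF.proj 0) (DfnF.proj 0) (DfnF.proj 1)

theorem X0_code (B : Set (Rls N)) (b : Rls N) {x : Rls N}
    (hx : x ∈ (B \ {b}) ∪ Set.range fun g : Rls N => g + g) :
    code x.1 ∈ X0 N (gset B) (code b.1) := by
  rw [X0_eq hN hY e he B b]
  exact mem_gset.2 ⟨x, hx, rfl⟩

theorem Ts_code {X : ZFSet.{0}} {x y : Rls N} (hx : code x.1 ∈ X) (hy : code y.1 ∈ X) :
    code (x + y).1 ∈ Ts N X := by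
  rw [Ts]
  refine ZFSet.mem_union.2 (Or.inr (ZFSet.mem_sep.2 ⟨mem_Rz.2 ⟨_, (x + y).2, rfl⟩, _,
    hx, _, hy, ?_⟩))
  exact (PA_iff' hN hY e he x y (x + y)).2 rfl

theorem stage_code (B : Set (Rls N)) (b : Rls N) (g : Rls N)
    (hg : g ∈ AddSubmonoid.closure ((B \ {b}) ∪ Set.range fun g : Rls N => g + g)) :
    ∃ k : ℕ, code g.1 ∈ itr (Ts N) (X0 N (gset B) (code b.1)) (nat k) := by
  induction hg using AddSubmonoid.closure_induction with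
  | mem x hx => exact ⟨0, itr_base (X0_code hN hY e he B b hx)⟩
  | zero =>
    refine ⟨0, itr_base (X0_code hN hY e he B b (x := 0) ?_)⟩
    exact Or.inr ⟨(0 : Rls N), add_zero 0⟩
  | add x y hx' hy' hx hy =>
    obtain ⟨k, hk⟩ := hx
    obtain ⟨l, hl⟩ := hy
    refine ⟨max k l + 1, itr_step (u := nat (max k l)) (ZFSet.mem_insert _ _) ?_⟩
    exact Ts_code hN hY e he (itr_mono (nat_subset (le_max_left k l)) hk)
      (itr_mono (nat_subset (le_max_right k l)) hl)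

theorem stage_set (B : Set (Rls N)) (b : Rls N) (k : ℕ) :
    ∃ S : Set (Rls N), S ⊆ Kcl B b ∧
      itr (Ts N) (X0 N (gset B) (code b.1)) (nat k) = gset S := by
  induction k with
  | zero =>
    refine ⟨_, AddSubmonoid.subset_closure, ?_⟩
    rw [← X0_eq hN hY e he B b]
    ext y
    rw [mem_itr]
    constructor
    · rintro (h | ⟨u, hu, -⟩)
      · exact h
      · exact absurd hu (ZFSet.notMem_empty u)
    · exact Or.inl
  | succ k ih =>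
    obtain ⟨S, hS, h⟩ := ih
    refine ⟨S ∪ {c | ∃ a ∈ S, ∃ b ∈ S, a + b = c}, ?_, ?_⟩
    · rintro c (hc | ⟨a', ha', b', hb', rfl⟩)
      · exact hS hc
      · exact (AddSubmonoid.closure _).add_mem (hS ha') (hS hb')
    · rw [← mem_Ts_code hN hY e he h]
      ext y
      rw [mem_itr]
      constructor
      · rintro (h2 | ⟨u, hu, h2⟩)
        · exact ZFSet.mem_union.2 (Or.inl (itr_base h2))
        · obtain ⟨j, hj, rfl⟩ := mem_natK.1 hu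
          have h3 : itr (Ts N) (X0 N (gset B) (code b.1)) (nat j) ⊆
            itr (Ts N) (X0 N (gset B) (code b.1)) (nat k) := itr_mono (nat_subset (by omega))
          rw [Ts, ZFSet.mem_union] at h2
          rcases h2 with h2 | h2
          · exact ZFSet.mem_union.2 (Or.inl (h3 h2))
          · obtain ⟨h4, x, hx, y', hy', h5⟩ := ZFSet.mem_sep.1 h2
            exact ZFSet.mem_union.2 (Or.inr (ZFSet.mem_sep.2 ⟨h4, x, h3 hx, y', h3 hy', h5⟩))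
      · intro h2
        exact Or.inr ⟨nat k, ZFSet.mem_insert _ _, h2⟩

theorem gset_Kcl (B : Set (Rls N)) (b : Rls N) :
    gset (Kcl B b) = itr (Ts N) (X0 N (gset B) (code b.1)) ZFSet.omega := by
  ext z
  constructor
  · intro hz
    obtain ⟨g, hg, rfl⟩ := mem_gset.1 hz
    obtain ⟨k, hk⟩ := stage_code hN hY e he B b g hg
    exact itr_mono nat_subset_omega hk
  · intro hz
    obtain ⟨k, hk⟩ := mem_itr_omega hz
    obtain ⟨S, hS, h⟩ := stage_set hN hY e he B b k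
    rw [h] at hk
    obtain ⟨g, hg, rfl⟩ := mem_gset.1 hk
    exact mem_gset.2 ⟨g, hS hg, rfl⟩

/-- The submonoids are in the model. -/
theorem Kcl_mem {B : Set (Rls N)} (hB : gset B ∈ N) (b : Rls N) : Kcl B b ∈ KN (N := N) := by
  show gset (Kcl B b) ∈ N
  rw [gset_Kcl hN hY e he B b]
  exact itr_mem_M hN (X0_mem hN hY e he hB b.2) hN.infinity (dfn_Ts hN hY e he)

/-- The relation of the odd coefficients, seen from the model. -/
def Odz (N : Set ZFSet.{0}) (Bz b g : ZFSet.{0}) : Prop := ∃ K ∈ N, K ⊆ Rz N ∧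
  (∀ x ∈ K, ∀ y ∈ K, ∀ z ∈ Rz N, Cz (PA N) ![x, y, z] → z ∈ K) ∧
  (∀ x ∈ Bz, ¬ x = b → x ∈ K) ∧ (∀ x ∈ Rz N, ∀ z ∈ Rz N, Cz (PA N) ![x, x, z] → z ∈ K) ∧
  ¬ g ∈ K

omit e he hG in
theorem dfn_Odz {m : ℕ} {Bz : ZFSet.{0}} (hBz : Bz ∈ N)
    {F G : (Fin m → ZFSet.{0}) → ZFSet.{0}}
    (hF : DfnF N N F) (hG' : DfnF N N G) : Dfn N N fun v => Odz N Bz (F v) (G v) := by
  have hB := hN.base
  have hR := Rz_mem hN
  have h : Dfn N N fun w : Fin 2 → ZFSet.{0} => ∃ K ∈ N, K ⊆ Rz N ∧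
      (∀ x ∈ K, ∀ y ∈ K, ∀ z ∈ Rz N, Cz (PA N) ![x, y, z] → z ∈ K) ∧
      (∀ x ∈ Bz, ¬ x = w 0 → x ∈ K) ∧
      (∀ x ∈ Rz N, ∀ z ∈ Rz N, Cz (PA N) ![x, x, z] → z ∈ K) ∧ ¬ w 1 ∈ K := by
    apply Dfn.ex
    refine (hB.subset' (DfnF.proj 0) (DfnF.const hR)).and (Dfn.and ?_ (Dfn.and ?_ (Dfn.and ?_
      (Dfn.mem (DfnF.proj 2) (DfnF.proj 0)).not)))
    · refine hB.ball (Q := fun x (w : Fin 3 → ZFSet.{0}) => ∀ y ∈ w 0, ∀ z ∈ Rz N,
        Cz (PA N) ![x, y, z] → z ∈ w 0) (DfnF.proj 0) ?_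
      refine hB.ball (Q := fun y (w : Fin 4 → ZFSet.{0}) => ∀ z ∈ Rz N,
        Cz (PA N) ![w 0, y, z] → z ∈ w 1) (DfnF.proj 1) ?_
      refine hB.ball (Q := fun z (w : Fin 5 → ZFSet.{0}) =>
        Cz (PA N) ![w 1, w 0, z] → z ∈ w 2) (DfnF.const hR) ?_
      exact (dfn_cz3 hN (pj_PA hN hY) (DfnF.proj 2) (DfnF.proj 1) (DfnF.proj 0)).imp
        (Dfn.mem (DfnF.proj 0) (DfnF.proj 3))
    · refine hB.ball (Q := fun x (w : Fin 3 → ZFSet.{0}) => ¬ x = w 1 → x ∈ w 0)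
        (DfnF.const hBz) ?_
      exact (Dfn.eq (DfnF.proj 0) (DfnF.proj 2)).not.imp (Dfn.mem (DfnF.proj 0) (DfnF.proj 1))
    · refine hB.ball (Q := fun x (w : Fin 3 → ZFSet.{0}) => ∀ z ∈ Rz N,
        Cz (PA N) ![x, x, z] → z ∈ w 0) (DfnF.const hR) ?_
      refine hB.ball (Q := fun z (w : Fin 4 → ZFSet.{0}) =>
        Cz (PA N) ![w 0, w 0, z] → z ∈ w 1) (DfnF.const hR) ?_
      exact (dfn_cz3 hN (pj_PA hN hY) (DfnF.proj 1) (DfnF.proj 1) (DfnF.proj 0)).imp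
        (Dfn.mem (DfnF.proj 0) (DfnF.proj 2))
  exact Dfn.comp2 (Q := fun a b => Odz N Bz a b) h hF hG'

theorem Odz_iff {B : Set (Rls N)} (b g : Rls N) (hb : b ∈ B) :
    Odz N (gset B) (code b.1) (code g.1) ↔ Odc B (KN (N := N)) b g := by
  constructor
  · rintro ⟨K, hK, h1, h2, h3, h4, h5⟩
    have hKg : gset {x : Rls N | code x.1 ∈ K} = K := by
      ext z
      rw [mem_gset]
      constructor
      · rintro ⟨x, hx, rfl⟩
        exact hx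
      · intro hz
        obtain ⟨x, hx, rfl⟩ := mem_Rz.1 (h1 hz)
        exact ⟨⟨x, hx⟩, hz, rfl⟩
    refine ⟨hb, {x | code x.1 ∈ K}, ?_, ?_, ?_, ?_, h5⟩
    · show gset _ ∈ N
      rw [hKg]
      exact hK
    · intro x hx y hy
      exact h2 _ hx _ hy _ (mem_Rz.2 ⟨_, (x + y).2, rfl⟩) ((PA_iff' hN hY e he x y (x + y)).2 rfl)
    · rintro x ⟨hx, hxb⟩
      exact h3 _ (code_mem_gset.2 hx) fun h => hxb (Subtype.ext (code_inj h))
    · intro x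
      exact h4 _ (mem_Rz.2 ⟨x.1, x.2, rfl⟩) _ (mem_Rz.2 ⟨_, (x + x).2, rfl⟩)
        ((PA_iff' hN hY e he x x (x + x)).2 rfl)
  · rintro ⟨-, K, hK, h1, h2, h3, h4⟩
    refine ⟨gset K, hK, gset_sub, ?_, ?_, ?_, fun h => h4 (code_mem_gset.1 h)⟩
    · intro x' hx' y' hy' z' hz' h
      obtain ⟨x, hx, rfl⟩ := mem_gset.1 hx'
      obtain ⟨y, hy, rfl⟩ := mem_gset.1 hy'
      obtain ⟨z, hz, rfl⟩ := mem_Rz.1 hz'
      have h5 := (PA_iff' hN hY e he x y ⟨z, hz⟩).1 h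
      have h6 := h1 x hx y hy
      rw [h5] at h6
      exact (code_mem_gset (h := ⟨z, hz⟩)).2 h6
    · intro x' hx' hxb
      obtain ⟨x, hx, rfl⟩ := mem_gset.1 hx'
      exact code_mem_gset.2 (h2 ⟨hx, fun h => hxb (by rw [h])⟩)
    · intro x' hx' z' hz' h
      obtain ⟨x, hx, rfl⟩ := mem_Rz.1 hx'
      obtain ⟨z, hz, rfl⟩ := mem_Rz.1 hz'
      have h5 := (PA_iff' hN hY e he ⟨x, hx⟩ ⟨x, hx⟩ ⟨z, hz⟩).1 h
      have h6 := h3 ⟨x, hx⟩
      rw [h5] at h6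
      exact (code_mem_gset (h := ⟨z, hz⟩)).2 h6

/-- From a basis of the group we obtain an assignment of finite sets to the reals. -/
theorem exists_F (hfree : FreeIn hG ⊤) : ∃ F ∈ N,
    (∀ z ∈ F, ∃ b x : ℕ → ℕ, z = pair (code b) (code x)) ∧
    (∀ x ∈ Rls N, {b | pair (code b) (code x) ∈ F}.Finite) ∧
    ∀ x ∈ Rls N, ∀ y ∈ Rls N,
      (∀ b, pair (code b) (code x) ∈ F ↔ pair (code b) (code y) ∈ F) ↔ Ev x y := by
  have hB := hN.base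
  have hR := Rz_mem hN
  obtain ⟨B, hBN, hli, hcl⟩ := hfree
  have htw : ∀ x ∈ Rls N, ∃ g : Rls N, ((e g : G0 (Rls N)) : Fr) = Finsupp.single x 2 := by
    intro x hx
    obtain ⟨g, hg⟩ := e.surjective ⟨Finsupp.single x 2, cod2_single_mem hx⟩
    exact ⟨g, by rw [hg]⟩
  set F : ZFSet.{0} := ZFSet.sep (fun u => ∃ g ∈ Rz N, Cz (PT N) ![sn u, g] ∧
    Odz N (gset B) (fs u) g) (ZFSet.prod (gset B) (Rz N)) with hF
  have hFN : F ∈ N := by
    refine hN.sep_mem ?_ (hN.prod_mem hBN hR)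
    refine hB.bex (Q := fun g (w : Fin 1 → ZFSet.{0}) => Cz (PT N) ![sn (w 0), g] ∧
      Odz N (gset B) (fs (w 0)) g) (DfnF.const hR) ?_
    exact (dfn_cz2 hN (pj_PT hN hY) (hN.sn' (DfnF.proj 1)) (DfnF.proj 0)).and
      (dfn_Odz hN hY hBN (hN.fs' (DfnF.proj 1)) (DfnF.proj 0))
  have hmem : ∀ (x : ℕ → ℕ) (hx : x ∈ Rls N) (g : Rls N),
      ((e g : G0 (Rls N)) : Fr) = Finsupp.single x 2 → ∀ b : ℕ → ℕ,
      (pair (code b) (code x) ∈ F ↔ ∃ hb : b ∈ Rls N, Odc B (KN (N := N)) ⟨b, hb⟩ g) := by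
    intro x hx g hg b
    rw [hF, ZFSet.mem_sep, ZFSet.pair_mem_prod, fs_pair, sn_pair]
    constructor
    · rintro ⟨⟨hb, -⟩, g', hg', h1, h2⟩
      obtain ⟨b', hb', hbb⟩ := mem_gset.1 hb
      obtain ⟨g'', hg'', rfl⟩ := mem_Rz.1 hg'
      have hbe : b = b'.1 := code_inj hbb
      subst hbe
      rw [cz2] at h1
      have h3 := (PT_iff hN hY e he hg'').1 h1
      have h4 : (⟨g'', hg''⟩ : Rls N) = g := by
        apply e.injective
        apply Subtype.ext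
        rw [h3, hg]
      refine ⟨b'.2, ?_⟩
      have h5 := (Odz_iff hN hY e he b' ⟨g'', hg''⟩ hb').1 h2
      rw [h4] at h5
      exact h5
    · rintro ⟨hb, h1⟩
      have hbB : (⟨b, hb⟩ : Rls N) ∈ B := h1.1
      refine ⟨⟨(code_mem_gset (h := ⟨b, hb⟩)).2 hbB, mem_Rz.2 ⟨x, hx, rfl⟩⟩, code g.1,
        mem_Rz.2 ⟨_, g.2, rfl⟩, ?_, (Odz_iff hN hY e he ⟨b, hb⟩ g hbB).2 h1⟩
      rw [cz2]
      exact (PT_iff hN hY e he g.2).2 hg
  refine ⟨F, hFN, ?_, ?_, ?_⟩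
  · intro z hz
    obtain ⟨a, ha, b, hb, rfl⟩ := ZFSet.mem_prod.1 (ZFSet.mem_sep.1 hz).1
    obtain ⟨a', -, rfl⟩ := mem_gset.1 ha
    obtain ⟨b', -, rfl⟩ := mem_Rz.1 hb
    exact ⟨_, _, rfl⟩
  · intro x hx
    obtain ⟨g, hg⟩ := htw x hx
    have h1 := (odc_finite hli hcl (KN (N := N)) g).image (Subtype.val : Rls N → ℕ → ℕ)
    refine h1.subset ?_
    intro b hb
    obtain ⟨hb', h2⟩ := (hmem x hx g hg b).1 hb
    exact ⟨⟨b, hb'⟩, h2, rfl⟩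
  · intro x hx y hy
    obtain ⟨g, hg⟩ := htw x hx
    obtain ⟨g', hg'⟩ := htw y hy
    rw [← odc_ev e hli hcl (KK := KN (N := N)) (fun b _ => Kcl_mem hN hY e he hBN b) hx hy hg hg']
    constructor
    · intro h b
      have h1 := h b.1
      rw [hmem x hx g hg, hmem y hy g' hg'] at h1
      constructor
      · intro h2
        obtain ⟨_, h3⟩ := h1.1 ⟨b.2, h2⟩
        exact h3
      · intro h2
        obtain ⟨_, h3⟩ := h1.2 ⟨b.2, h2⟩
        exact h3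
    · intro h b
      rw [hmem x hx g hg, hmem y hy g' hg']
      exact exists_congr fun hb => h ⟨b, hb⟩

end

/-- The main theorem. -/
theorem main : ∃ W N : Set ZFSet.{0}, W.Countable ∧ IsZFC W ∧ IsLR W N ∧ ¬ SD N := by
  obtain ⟨V, hc, hL, hYV⟩ := exists_gnd isHF_Yt
  have hV := hL.zf
  set I : ZFSet.{0} := pwM V ZFSet.omega with hI'
  have hI : I ∈ V := pwM_mem hV hV.infinity
  have hIu : ¬ Inj V I ZFSet.omega := cantor hV hV.infinity hI fun z => mem_pwM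
  have hP := forcing_PI hV hI
  obtain ⟨G, hG, -⟩ := exists_gen hc hP (empty_PI hL hI)
  have hW := zf_ext hL hP hG
  have hN := zf_LRm hW
  have hsub := sub_ext hV hP hG
  have hY : ∀ j, Yt j ∈ LRm (ext V G) := fun j =>
    HF_mem_LRm hW (hsub (hYV j)) (isHF_Yt j)
  refine ⟨ext V G, LRm (ext V G), ?_, zfc_ext hL hP hG, isLR_LRm hW, fun hSD => ?_⟩
  · exact hc.image (ev G)
  · obtain ⟨e0, he0⟩ := exists_equiv (cls_Rls hN hY)
    let hGr : AddCommGroup (Rls (LRm (ext V G))) := e0.addCommGroup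
    let e : Rls (LRm (ext V G)) ≃+ G0 (Rls (LRm (ext V G))) :=
      { e0 with map_add' := fun x y => e0.apply_symm_apply _ }
    have he : ∀ (x : Rls (LRm (ext V G))) (c : ℕ → ℕ), c ∈ Rls (LRm (ext V G)) →
        (dc c = evl ((e x : G0 (Rls (LRm (ext V G)))) : Fr) ↔
          GrF (Rls (LRm (ext V G))) x c) := he0
    have hfree := hSD hGr (prj_grp hN hY e he) (omegaFree hN hY e he)
    obtain ⟨F, hF, h1, h2, h3⟩ := exists_F hN hY e he hfree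
    rw [Rls_LRm hW] at h2 h3
    exact no_inv hL hI hG hIu hF h1 h2 h3

end Pool.Agent.Helper71.LR
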