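import Pool.Agent.Helper71.LR.Real
import Pool.Agent.H158_PC.Sk

/-!
# Tools for projective sets
-/

set_option autoImplicit false
set_option linter.unreachableTactic false
set_option linter.unusedTactic false
set_option linter.unusedSectionVars false

namespace Pool.Agent.Helper71.LR

open Pool.Agent.W868 Pool.Agent.Y588 Pool.Agent.H158_PC
open ZFSet (pair)

/-! ### Restrictions of tuples -/

theorem rst_agree {n : ℕ} {k k' : ℕ} {x x' : Fin n → ℕ → ℕ} (h : Pool.Agent.Helper71.LR.rst k x = Pool.Agent.Helper71.LR.rst k' x') :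
    ∀ i, ∀ j < k, x' i j = x i j := by
  induction n with
  | zero => exact fun i => i.elim0
  | succ n ih =>
    obtain ⟨h1, h2⟩ := ZFSet.pair_inj.1 h
    obtain ⟨h3, h4⟩ := rs_inj h1
    intro i
    refine Fin.cases ?_ (fun i => ?_) i
    · exact fun j hj => (h4 j hj).symm
    · exact ih h2 i

theorem isHF_rst {n : ℕ} (k : ℕ) (x : Fin n → ℕ → ℕ) : IsHF (Pool.Agent.Helper71.LR.rst k x) := by
  induction n with
  | zero => exact isHF_empty
  | succ n ih => exact (isHF_rs _ _).pair (ih _)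

/-- The restriction of a set of pairs. -/
noncomputable def rsz (c k : ZFSet.{0}) : ZFSet.{0} := ZFSet.sep (fun u => fs u ∈ k) c

theorem rsz_code (x : ℕ → ℕ) (k : ℕ) : rsz (code x) (nat k) = rs x k := by
  ext z
  rw [rsz, ZFSet.mem_sep, mem_code, mem_rs]
  constructor
  · rintro ⟨⟨i, rfl⟩, h⟩
    rw [fs_pair] at h
    obtain ⟨j, hj, h1⟩ := mem_natK.1 h
    rw [← nat_injective h1] at hj
    exact ⟨i, hj, rfl⟩
  · rintro ⟨i, hi, rfl⟩
    rw [fs_pair]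
    exact ⟨⟨i, rfl⟩, mem_natK.2 ⟨i, hi, rfl⟩⟩

/-- The tuple of the restrictions. -/
noncomputable def rstz (k : ZFSet.{0}) : {n : ℕ} → (Fin n → ZFSet.{0}) → ZFSet.{0}
  | 0, _ => ∅
  | _ + 1, v => pair (rsz (v 0) k) (rstz k (Fin.tail v))

theorem rstz_code {n : ℕ} (k : ℕ) (x : Fin n → ℕ → ℕ) :
    rstz (nat k) (fun i => code (x i)) = Pool.Agent.Helper71.LR.rst k x := by
  induction n with
  | zero => rfl
  | succ n ih =>
    show pair _ _ = pair _ _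
    rw [rsz_code]
    congr 1
    exact ih _

theorem dfn_rstz {M : Set ZFSet.{0}} (hM : IsZF M) {n m : ℕ}
    {K : (Fin m → ZFSet.{0}) → ZFSet.{0}} (hK : DfnF M M K)
    {F : Fin n → (Fin m → ZFSet.{0}) → ZFSet.{0}} (hF : ∀ i, DfnF M M (F i)) :
    DfnF M M fun v => rstz (K v) fun i => F i v := by
  induction n with
  | zero => exact DfnF.const hM.empty_mem
  | succ n ih =>
    have h1 : DfnF M M fun v => rsz (F 0 v) (K v) :=
      hM.sep' (Q := fun u v => fs u ∈ K v) (hF 0) (Dfn.mem (hM.fs' (DfnF.proj 0)) hK.tail)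
    exact hM.base.pair' h1 (ih fun i => hF i.succ)

/-! ### Finite conjunctions -/

theorem Dfn.finall {S M : Set ZFSet.{0}} {n m : ℕ} {R : Fin m → (Fin n → ZFSet.{0}) → Prop}
    (h : ∀ i, Dfn S M (R i)) : Dfn S M fun v => ∀ i, R i v := by
  induction m with
  | zero => exact Dfn.tt.congr fun v _ => ⟨fun _ i => i.elim0, fun _ => trivial⟩
  | succ m ih =>
    refine ((h 0).and (ih fun i => h i.succ)).congr fun v _ => ?_
    constructor
    · rintro ⟨h1, h2⟩ i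
      exact Fin.cases h1 h2 i
    · exact fun h1 => ⟨h1 0, fun i => h1 i.succ⟩

/-! ### Projective relations -/

variable {N : Set ZFSet.{0}}

/-- The relation is projective in `N`, on the reals of `N`. -/
def Pj (N : Set ZFSet.{0}) {n : ℕ} (P : (Fin n → ℕ → ℕ) → Prop) : Prop :=
  Prj N {x : Fin n → ℕ → ℕ | (∀ i, x i ∈ Rls N) ∧ P x}

theorem Prj.rls {n : ℕ} {A : Set (Fin n → ℕ → ℕ)} (h : Prj N A) :
    ∀ x ∈ A, ∀ i, x i ∈ Rls N := by
  induction h with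
  | closed T hT => exact fun x hx => hx.1
  | compl hA ih => exact fun x hx => hx.1
  | inter hA hB ihA ihB => exact fun x hx => ihA x hx.1
  | proj hA ih =>
    rintro x ⟨y, hy, hx⟩ i
    exact ih _ hx i.succ
  | subst ρ hA ih => exact fun x hx => hx.1

theorem Pj.congr {n : ℕ} {P Q : (Fin n → ℕ → ℕ) → Prop} (h : Pj N P)
    (h' : ∀ x, (∀ i, x i ∈ Rls N) → (P x ↔ Q x)) : Pj N Q := by
  have h1 : {x : Fin n → ℕ → ℕ | (∀ i, x i ∈ Rls N) ∧ P x} = {x | (∀ i, x i ∈ Rls N) ∧ Q x} := by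
    ext x
    exact and_congr_right fun hx => h' x hx
  unfold Pj
  rw [← h1]
  exact h

theorem Pj.not {n : ℕ} {P : (Fin n → ℕ → ℕ) → Prop} (h : Pj N P) : Pj N fun x => ¬ P x := by
  have h1 := Prj.compl h
  have h2 : {x : Fin n → ℕ → ℕ | (∀ i, x i ∈ Rls N) ∧
      x ∉ {x : Fin n → ℕ → ℕ | (∀ i, x i ∈ Rls N) ∧ P x}} =
      {x | (∀ i, x i ∈ Rls N) ∧ ¬ P x} := by
    ext x
    refine and_congr_right fun hx => ?_
    constructor
    · exact fun h3 h4 => h3 ⟨hx, h4⟩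
    · exact fun h3 h4 => h3 h4.2
  rw [h2] at h1
  exact h1

theorem Pj.and {n : ℕ} {P Q : (Fin n → ℕ → ℕ) → Prop} (h : Pj N P) (h' : Pj N Q) :
    Pj N fun x => P x ∧ Q x := by
  have h1 := Prj.inter h h'
  have h2 : {x : Fin n → ℕ → ℕ | (∀ i, x i ∈ Rls N) ∧ P x} ∩ {x | (∀ i, x i ∈ Rls N) ∧ Q x} =
      {x | (∀ i, x i ∈ Rls N) ∧ (P x ∧ Q x)} := by
    ext x
    constructor
    · rintro ⟨⟨h3, h4⟩, -, h5⟩
      exact ⟨h3, h4, h5⟩
    · rintro ⟨h3, h4, h5⟩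
      exact ⟨⟨h3, h4⟩, h3, h5⟩
  rw [h2] at h1
  exact h1

theorem Pj.or {n : ℕ} {P Q : (Fin n → ℕ → ℕ) → Prop} (h : Pj N P) (h' : Pj N Q) :
    Pj N fun x => P x ∨ Q x :=
  (h.not.and h'.not).not.congr fun x _ => by tauto

theorem Pj.imp {n : ℕ} {P Q : (Fin n → ℕ → ℕ) → Prop} (h : Pj N P) (h' : Pj N Q) :
    Pj N fun x => P x → Q x :=
  (h.and h'.not).not.congr fun x _ => by tauto

theorem Pj.comp {n m : ℕ} {P : (Fin n → ℕ → ℕ) → Prop} (h : Pj N P) (ρ : Fin n → Fin m) :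
    Pj N fun x : Fin m → ℕ → ℕ => P fun i => x (ρ i) := by
  have h1 := Prj.subst ρ h
  have h2 : {x : Fin m → ℕ → ℕ | (∀ i, x i ∈ Rls N) ∧
      (fun i => x (ρ i)) ∈ {x : Fin n → ℕ → ℕ | (∀ i, x i ∈ Rls N) ∧ P x}} =
      {x | (∀ i, x i ∈ Rls N) ∧ P fun i => x (ρ i)} := by
    ext x
    refine and_congr_right fun hx => ?_
    exact ⟨fun h3 => h3.2, fun h3 => ⟨fun i => hx _, h3⟩⟩
  rw [h2] at h1
  exact h1

theorem Pj.ex {n : ℕ} {Q : (ℕ → ℕ) → (Fin n → ℕ → ℕ) → Prop}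
    (h : Pj N fun w : Fin (n + 1) → ℕ → ℕ => Q (w 0) (Fin.tail w)) :
    Pj N fun x => ∃ y ∈ Rls N, Q y x := by
  have h1 := Prj.proj h
  by_cases hne : n = 0
  · subst hne
    refine Pj.congr (P := fun x => ∃ y ∈ Rls N, Q y x) ?_ fun x _ => Iff.rfl
    have h2 : {x : Fin 0 → ℕ → ℕ | ∃ y ∈ Rls N, (Fin.cons y x : Fin 1 → ℕ → ℕ) ∈
        {w : Fin 1 → ℕ → ℕ | (∀ i, w i ∈ Rls N) ∧ Q (w 0) (Fin.tail w)}} =
        {x | (∀ i, x i ∈ Rls N) ∧ ∃ y ∈ Rls N, Q y x} := by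
      ext x
      constructor
      · rintro ⟨y, hy, h3, h4⟩
        exact ⟨fun i => i.elim0, y, hy, h4⟩
      · rintro ⟨-, y, hy, h4⟩
        refine ⟨y, hy, ?_, h4⟩
        intro i
        refine Fin.cases ?_ (fun i => i.elim0) i
        exact hy
    rw [h2] at h1
    exact h1
  · have h2 : {x : Fin n → ℕ → ℕ | ∃ y ∈ Rls N, (Fin.cons y x : Fin (n + 1) → ℕ → ℕ) ∈
        {w : Fin (n + 1) → ℕ → ℕ | (∀ i, w i ∈ Rls N) ∧ Q (w 0) (Fin.tail w)}} =
        {x | (∀ i, x i ∈ Rls N) ∧ ∃ y ∈ Rls N, Q y x} := by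
      ext x
      constructor
      · rintro ⟨y, hy, h3, h4⟩
        exact ⟨fun i => h3 i.succ, y, hy, h4⟩
      · rintro ⟨h3, y, hy, h4⟩
        refine ⟨y, hy, ?_, h4⟩
        intro i
        refine Fin.cases ?_ (fun i => ?_) i
        · exact hy
        · exact h3 i
    rw [h2] at h1
    exact h1

theorem Pj.all {n : ℕ} {Q : (ℕ → ℕ) → (Fin n → ℕ → ℕ) → Prop}
    (h : Pj N fun w : Fin (n + 1) → ℕ → ℕ => Q (w 0) (Fin.tail w)) :
    Pj N fun x => ∀ y ∈ Rls N, Q y x := by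
  have h1 : Pj N fun x : Fin n → ℕ → ℕ => ∃ y ∈ Rls N, ¬ Q y x :=
    Pj.ex (Q := fun y x => ¬ Q y x) h.not
  refine h1.not.congr fun x _ => ?_
  constructor
  · intro h2 y hy
    by_contra h3
    exact h2 ⟨y, hy, h3⟩
  · rintro h2 ⟨y, hy, h3⟩
    exact h3 (h2 y hy)

/-- The tree of a set. -/
noncomputable def trP {n : ℕ} (P : (Fin n → ℕ → ℕ) → Prop) : ZFSet.{0} :=
  ZFSet.range fun p : {p : ℕ × (Fin n → ℕ → ℕ) // P p.2} =>
    Pool.Agent.Helper71.LR.rst p.1.1 p.1.2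

theorem mem_trP {n : ℕ} {P : (Fin n → ℕ → ℕ) → Prop} {z : ZFSet.{0}} :
    z ∈ trP P ↔ ∃ k x, P x ∧ z = Pool.Agent.Helper71.LR.rst k x := by
  rw [trP, ZFSet.mem_range]
  constructor
  · rintro ⟨⟨⟨k, x⟩, h⟩, rfl⟩
    exact ⟨k, x, h, rfl⟩
  · rintro ⟨k, x, h, rfl⟩
    exact ⟨⟨⟨k, x⟩, h⟩, rfl⟩

theorem isHF_trP {n : ℕ} {P : (Fin n → ℕ → ℕ) → Prop} {z : ZFSet.{0}} (h : z ∈ trP P) :
    IsHF z := by
  obtain ⟨k, x, -, rfl⟩ := mem_trP.1 h
  exact isHF_rst k x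

/-- Closed relations with a tree in the model are projective. -/
theorem Pj.cp {n : ℕ} {P : (Fin n → ℕ → ℕ) → Prop} (h : CP P) (hT : trP P ∈ N) : Pj N P := by
  have h1 := Prj.closed (n := n) (trP P) hT
  have h2 : {x : Fin n → ℕ → ℕ | (∀ i, x i ∈ Rls N) ∧
      ∀ k, Pool.Agent.Helper71.LR.rst k x ∈ trP P} = {x | (∀ i, x i ∈ Rls N) ∧ P x} := by
    ext x
    refine and_congr_right fun hx => ?_
    constructor
    · intro h3
      refine h.closed fun k => ?_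
      obtain ⟨k', x', h4, h5⟩ := mem_trP.1 (h3 k)
      exact ⟨x', h4, rst_agree h5⟩
    · exact fun h3 k => mem_trP.2 ⟨k, x, h3, rfl⟩
  rw [h2] at h1
  exact h1

/-! ### Projective relations are definable -/

theorem isFunc_iff_code {v : ZFSet.{0}} :
    ZFSet.IsFunc ZFSet.omega ZFSet.omega v ↔ ∃ x, v = code x :=
  ⟨exists_code, fun ⟨x, hx⟩ => hx ▸ isFunc_code x⟩

theorem dfn_codes (hN : IsZF N) {n : ℕ} :
    Dfn N N fun v : Fin n → ZFSet.{0} => ∀ i, ZFSet.IsFunc ZFSet.omega ZFSet.omega (v i) :=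
  Dfn.finall fun i => hN.base.isFunc' (DfnF.const hN.infinity) (DfnF.const hN.infinity)
    (DfnF.proj i)

theorem codes_eq {n : ℕ} {v : Fin n → ZFSet.{0}}
    (h : ∀ i, ZFSet.IsFunc ZFSet.omega ZFSet.omega (v i)) :
    ∃ x : Fin n → ℕ → ℕ, v = fun i => code (x i) := by
  choose x hx using fun i => exists_code (h i)
  exact ⟨x, funext hx⟩

theorem code_fun_inj {n : ℕ} {x y : Fin n → ℕ → ℕ}
    (h : (fun i => code (x i)) = fun i => code (y i)) : x = y :=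
  funext fun i => code_inj (congrFun h i)

theorem Prj.dfn (hN : IsZF N) {n : ℕ} {A : Set (Fin n → ℕ → ℕ)} (h : Prj N A) :
    Dfn N N fun v : Fin n → ZFSet.{0} => ∃ x ∈ A, v = fun i => code (x i) := by
  have hB := hN.base
  induction h with
  | @closed n T hT =>
    have h1 : Dfn N N fun v : Fin n → ZFSet.{0} =>
        (∀ i, ZFSet.IsFunc ZFSet.omega ZFSet.omega (v i)) ∧
          ∀ k ∈ (ZFSet.omega : ZFSet.{0}), rstz k v ∈ T := by
      refine (dfn_codes hN).and ?_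
      refine hB.ball (Q := fun k v => rstz k v ∈ T) (DfnF.const hN.infinity) ?_
      exact Dfn.mem (dfn_rstz hN (DfnF.proj 0) fun i => DfnF.proj i.succ) (DfnF.const hT)
    refine h1.congr fun v hv => ?_
    constructor
    · rintro ⟨h2, h3⟩
      obtain ⟨x, rfl⟩ := codes_eq h2
      refine ⟨x, ⟨fun i => hv i, fun k => ?_⟩, rfl⟩
      rw [← rstz_code]
      exact h3 _ (nat_mem_om k)
    · rintro ⟨x, ⟨h2, h3⟩, rfl⟩
      refine ⟨fun i => isFunc_code _, fun k hk => ?_⟩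
      obtain ⟨k, rfl⟩ := mem_omega_iff.1 hk
      rw [rstz_code]
      exact h3 k
  | compl hA ih =>
    refine ((dfn_codes hN).and ih.not).congr fun v hv => ?_
    constructor
    · rintro ⟨h2, h3⟩
      obtain ⟨x, rfl⟩ := codes_eq h2
      exact ⟨x, ⟨fun i => hv i, fun hx => h3 ⟨x, hx, rfl⟩⟩, rfl⟩
    · rintro ⟨x, ⟨h2, h3⟩, rfl⟩
      refine ⟨fun i => isFunc_code _, ?_⟩
      rintro ⟨y, hy, hxy⟩
      rw [code_fun_inj hxy] at h3
      exact h3 hy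
  | inter hA hB' ihA ihB =>
    refine (ihA.and ihB).congr fun v hv => ?_
    constructor
    · rintro ⟨⟨x, hx, rfl⟩, y, hy, hxy⟩
      rw [← code_fun_inj hxy] at hy
      exact ⟨x, ⟨hx, hy⟩, rfl⟩
    · rintro ⟨x, ⟨h2, h3⟩, rfl⟩
      exact ⟨⟨x, h2, rfl⟩, x, h3, rfl⟩
  | @proj n A hA ih =>
    have h1 : Dfn N N fun v : Fin n → ZFSet.{0} => ∃ a ∈ N, ∃ x ∈ A,
        (Fin.cons a v : Fin (n + 1) → ZFSet.{0}) = fun i => code (x i) := by
      refine Dfn.ex (ih.congr fun w _ => ?_)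
      rw [Fin.cons_self_tail]
    refine h1.congr fun v hv => ?_
    constructor
    · rintro ⟨a, ha, x, hx, hax⟩
      have h2 : a = code (x 0) := congrFun hax 0
      have h3 : v = fun i : Fin n => code (x i.succ) := by
        funext i
        exact congrFun hax i.succ
      have h4 : x 0 ∈ Rls N := by
        show code (x 0) ∈ N
        rw [← h2]
        exact ha
      refine ⟨fun i => x i.succ, ⟨x 0, h4, ?_⟩, h3⟩
      have h5 : (Fin.cons (x 0) fun i : Fin n => x i.succ : Fin (n + 1) → ℕ → ℕ) = x :=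
        Fin.cons_self_tail x
      rw [h5]
      exact hx
    · rintro ⟨x, ⟨y, hy, hx⟩, rfl⟩
      refine ⟨code y, hy, _, hx, ?_⟩
      funext i
      refine Fin.cases ?_ (fun i => ?_) i
      · rfl
      · rfl
  | @subst n m ρ A hA ih =>
    refine ((dfn_codes hN).and (ih.comp ρ)).congr fun v hv => ?_
    constructor
    · rintro ⟨h2, x, hx, hvx⟩
      obtain ⟨y, rfl⟩ := codes_eq h2
      refine ⟨y, ⟨fun i => hv i, ?_⟩, rfl⟩
      have h3 : (fun i => y (ρ i)) = x := code_fun_inj hvx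
      rw [h3]
      exact hx
    · rintro ⟨x, ⟨h2, h3⟩, rfl⟩
      exact ⟨fun i => isFunc_code _, _, h3, rfl⟩

theorem Pj.dfn (hN : IsZF N) {n : ℕ} {P : (Fin n → ℕ → ℕ) → Prop} (h : Pj N P) :
    Dfn N N fun v : Fin n → ZFSet.{0} => ∃ x, P x ∧ v = fun i => code (x i) := by
  refine (Prj.dfn hN h).congr fun v hv => ?_
  constructor
  · rintro ⟨x, ⟨-, hx⟩, rfl⟩
    exact ⟨x, hx, rfl⟩
  · rintro ⟨x, hx, rfl⟩
    exact ⟨x, ⟨fun i => hv i, hx⟩, rfl⟩

/-! ### Tables of continuous functions -/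

/-- The table of a continuous function. -/
noncomputable def tbl {n : ℕ} (F : (Fin n → ℕ → ℕ) → ℕ → ℕ) : ZFSet.{0} :=
  ZFSet.range fun p : {p : ℕ × (Fin n → ℕ → ℕ) × ℕ //
    ∀ x' : Fin n → ℕ → ℕ, (∀ i, ∀ j < p.1, x' i j = p.2.1 i j) → F x' p.2.2 = F p.2.1 p.2.2} =>
    pair (Pool.Agent.Helper71.LR.rst p.1.1 p.1.2.1) (pair (nat p.1.2.2)
      (nat (F p.1.2.1 p.1.2.2)))

theorem mem_tbl {n : ℕ} {F : (Fin n → ℕ → ℕ) → ℕ → ℕ} {z : ZFSet.{0}} :
    z ∈ tbl F ↔ ∃ k x l, (∀ x' : Fin n → ℕ → ℕ, (∀ i, ∀ j < k, x' i j = x i j) →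
      F x' l = F x l) ∧ z = pair (Pool.Agent.Helper71.LR.rst k x) (pair (nat l) (nat (F x l))) := by
  rw [tbl, ZFSet.mem_range]
  constructor
  · rintro ⟨⟨⟨k, x, l⟩, h⟩, rfl⟩
    exact ⟨k, x, l, h, rfl⟩
  · rintro ⟨k, x, l, h, rfl⟩
    exact ⟨⟨⟨k, x, l⟩, h⟩, rfl⟩

theorem isHF_tbl {n : ℕ} {F : (Fin n → ℕ → ℕ) → ℕ → ℕ} {z : ZFSet.{0}} (h : z ∈ tbl F) :
    IsHF z := by
  obtain ⟨k, x, l, -, rfl⟩ := mem_tbl.1 h
  exact (isHF_rst k x).pair ((isHF_nat _).pair (isHF_nat _))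

/-- The reals of the model are closed under the continuous functions with a table in the
model. -/
theorem tbl_closed (hN : IsZF N) {n : ℕ} {F : (Fin n → ℕ → ℕ) → ℕ → ℕ}
    (hF : ∀ l, LF fun v => F v l) (hT : tbl F ∈ N) {x : Fin n → ℕ → ℕ}
    (hx : ∀ i, x i ∈ Rls N) : F x ∈ Rls N := by
  have hB := hN.base
  refine mkR hN (Q := fun a b => ∃ k ∈ (ZFSet.omega : ZFSet.{0}),
    pair (rstz k fun i => code (x i)) (pair a b) ∈ tbl F) _ ?_ ?_
  · refine hB.bex (DfnF.const hN.infinity) ?_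
    refine Dfn.mem (hB.pair' ?_ (hB.pair' (DfnF.proj 1) (DfnF.proj 2))) (DfnF.const hT)
    exact dfn_rstz hN (F := fun i _ => code (x i)) (DfnF.proj 0) fun i => DfnF.const (hx i)
  · intro l i
    constructor
    · rintro ⟨k, hk, h⟩
      obtain ⟨k, rfl⟩ := mem_omega_iff.1 hk
      rw [rstz_code] at h
      obtain ⟨k', x', l', h1, h2⟩ := mem_tbl.1 h
      obtain ⟨h3, h4⟩ := ZFSet.pair_inj.1 h2
      obtain ⟨h5, h6⟩ := ZFSet.pair_inj.1 h4
      rw [nat_injective h6, nat_injective h5]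
      exact (h1 x (rst_agree h3.symm)).symm
    · rintro rfl
      obtain ⟨k, hk⟩ := hF l x
      refine ⟨nat k, nat_mem_om k, ?_⟩
      rw [rstz_code]
      exact mem_tbl.2 ⟨k, x, l, hk, rfl⟩

end Pool.Agent.Helper71.LR
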