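import Pool.Agent.Helper71.LR.Frx
import Pool.Agent.Helper71.LR.Hul

/-!
# The reals of the extension have names with countable supports
-/

set_option autoImplicit false
set_option linter.unreachableTactic false
set_option linter.unusedTactic false
set_option linter.unusedSectionVars false

namespace Pool.Agent.Helper71.LR

open Pool.Agent.W868 Pool.Agent.W868.GM Pool.Agent.Y588 Pool.Agent.H158_PC
open Pool.Agent.H158_PC.AM (SymSys act Sy HS Sn Nm mem_act mk_sn chk_sn sub_nm nm_sub isZF_nm)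
open ZFSet (pair)

/-- The condition `q` decides whether `z` is in the value of `τ`. -/
def Dcd (V : Set ZFSet.{0}) (I τ z q : ZFSet.{0}) : Prop :=
  Qmem (PI V I) (Lf (PI V I)) (chk ∅ z) τ q ∨ ∀ r ∈ PI V I, pair r q ∈ Lf (PI V I) →
    ¬ Qmem (PI V I) (Lf (PI V I)) (chk ∅ z) τ r

/-- The support of the condition `q` is contained in `a`. -/
def Sup (a q : ZFSet.{0}) : Prop := ∀ u ∈ q, fs (fs u) ∈ a

section

variable {V : Set ZFSet.{0}} {A : ZFSet.{0}} (hL : IsLA A V) {I : ZFSet.{0}} (hI : I ∈ V)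

include hL hI

theorem dfn_Dcd {τ : ZFSet.{0}} (hτ : τ ∈ V) :
    Dfn V V fun w : Fin 2 → ZFSet.{0} => Dcd V I τ (w 0) (w 1) := by
  have hV := hL.zf
  have hB := hV.base
  have hP := PI_mem hV hI
  have hLe := (forcing_PI hV hI).le_mem
  have h0 := hV.empty_mem
  refine Dfn.or ?_ ?_
  · exact dfn_qmem hV hP hLe (DfnF.comp1 (f := chk ∅) (dfn_chk hV h0) (DfnF.proj 0))
      (DfnF.const hτ) (DfnF.proj 1)
  · refine hB.ball (Q := fun r w => pair r (w 1) ∈ Lf (PI V I) →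
      ¬ Qmem (PI V I) (Lf (PI V I)) (chk ∅ (w 0)) τ r) (DfnF.const hP) ?_
    refine (Dfn.mem (hB.pair' (DfnF.proj 0) (DfnF.proj 2)) (DfnF.const hLe)).imp ?_
    exact (dfn_qmem hV hP hLe (DfnF.comp1 (f := chk ∅) (dfn_chk hV h0) (DfnF.proj 1))
      (DfnF.const hτ) (DfnF.proj 0)).not

theorem exists_dcd (τ z : ZFSet.{0}) {p : ZFSet.{0}} (hp : p ∈ PI V I) :
    ∃ q ∈ PI V I, pair q p ∈ Lf (PI V I) ∧ Dcd V I τ z q := by
  have hP := forcing_PI hL.zf hI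
  by_cases h : ∃ q ∈ PI V I, pair q p ∈ Lf (PI V I) ∧
      Qmem (PI V I) (Lf (PI V I)) (chk ∅ z) τ q
  · obtain ⟨q, h1, h2, h3⟩ := h
    exact ⟨q, h1, h2, Or.inl h3⟩
  · exact ⟨p, hp, hP.refl p hp, Or.inr fun r hr hrp hq => h ⟨r, hr, hrp, hq⟩⟩

/-- The conditions with a certain countable support suffice to decide the elements of `τ`. -/
theorem exists_supp {τ : ZFSet.{0}} (hτ : τ ∈ V) : ∃ a ∈ Cs V I, ∀ z, IsHF z → ∀ p ∈ PI V I,
    Sup a p → ∃ q ∈ PI V I, Sup a q ∧ pair q p ∈ Lf (PI V I) ∧ Dcd V I τ z q := by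
  have hV := hL.zf
  have hB := hV.base
  have hP := PI_mem hV hI
  have hLe := (forcing_PI hV hI).le_mem
  have he := Pool.Agent.H158_MS.eg_mem hV
  have hω := hV.infinity
  obtain ⟨X, hXV, hHX, hXi, hX⟩ := exists_hull hV hL.gc (HFs_mem hV he) (HFs_inj hV he)
    [fun w => w 0 = insert (w 1) (w 2), fun w => w 0 = pair (w 1) (w 2), fun w => w 0 = fs (w 1),
      fun w => w 0 ∈ w 1 ∧ ¬ w 0 ∈ w 2,
      fun w => w 0 ∈ PI V I ∧ pair (w 0) (w 1) ∈ Lf (PI V I) ∧ Dcd V I τ (w 2) (w 0)] (by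
    intro Q hQ
    simp only [List.mem_cons, List.not_mem_nil, or_false] at hQ
    rcases hQ with rfl | rfl | rfl | rfl | rfl
    · exact Dfn.eq (DfnF.proj 0) (hB.insert' (DfnF.proj 1) (DfnF.proj 2))
    · exact Dfn.eq (DfnF.proj 0) (hB.pair' (DfnF.proj 1) (DfnF.proj 2))
    · exact Dfn.eq (DfnF.proj 0) (hV.fs' (DfnF.proj 1))
    · exact (Dfn.mem (DfnF.proj 0) (DfnF.proj 1)).and (Dfn.mem (DfnF.proj 0) (DfnF.proj 2)).not
    · refine (Dfn.mem (DfnF.proj 0) (DfnF.const hP)).and ((Dfn.mem (hB.pair' (DfnF.proj 0)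
        (DfnF.proj 1)) (DfnF.const hLe)).and ?_)
      exact Dfn.comp2 (Q := fun z q => Dcd V I τ z q) (dfn_Dcd hL hI hτ) (DfnF.proj 2)
        (DfnF.proj 0))
  have q1 := hX _ List.mem_cons_self
  have q2 := hX _ (List.mem_cons_of_mem _ List.mem_cons_self)
  have q3 := hX _ (List.mem_cons_of_mem _ (List.mem_cons_of_mem _ List.mem_cons_self))
  have c4 := hX _ (List.mem_cons_of_mem _ (List.mem_cons_of_mem _ (List.mem_cons_of_mem _
    List.mem_cons_self)))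
  have c5 := hX _ (List.mem_cons_of_mem _ (List.mem_cons_of_mem _ (List.mem_cons_of_mem _
    (List.mem_cons_of_mem _ List.mem_cons_self))))
  have c1 : ∀ p ∈ X, ∀ z ∈ X, insert p z ∈ X := by
    intro p hp z hz
    obtain ⟨x, hx, h⟩ := q1 p hp z hz
      ⟨insert p z, hV.insert_mem (hV.trans _ hXV _ hp) (hV.trans _ hXV _ hz), rfl⟩
    have h' : x = insert p z := h
    rwa [← h']
  have c2 : ∀ p ∈ X, ∀ z ∈ X, pair p z ∈ X := by
    intro p hp z hz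
    obtain ⟨x, hx, h⟩ := q2 p hp z hz
      ⟨pair p z, hV.pair_mem (hV.trans _ hXV _ hp) (hV.trans _ hXV _ hz), rfl⟩
    have h' : x = pair p z := h
    rwa [← h']
  have c3 : ∀ p ∈ X, fs p ∈ X := by
    intro p hp
    have hp' := hV.trans _ hXV _ hp
    obtain ⟨x, hx, h⟩ := q3 p hp p hp ⟨fs p, (hV.fs' (DfnF.const hp')).1 Fin.elim0
      (fun i => i.elim0), rfl⟩
    have h' : x = fs p := h
    rwa [← h']
  have h0X : (∅ : ZFSet.{0}) ∈ X := hHX (mem_HFs.2 isHF_empty)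
  -- finite subsets of `X` are in `X`
  have fX : ∀ q ∈ V, Fi q → q ⊆ X → q ∈ X := by
    intro q hq hf
    refine fi_ind hV (Q := fun q => q ⊆ X → q ∈ X) (fun _ => h0X) ?_ hq hf
    intro x a _ _ _ ih h
    exact c1 x (h (ZFSet.mem_insert _ _)) a (ih fun z hz => h (ZFSet.mem_insert_of_mem _ hz))
  -- finite elements of `X` are subsets of `X`
  have fX' : ∀ q ∈ X, Fi q → q ⊆ X := by
    intro q hq hf u hu
    by_contra hux
    have hqV := hV.trans _ hXV _ hq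
    have h1 : ZFSet.sep (fun z => z ∈ X) q ∈ V :=
      hV.sep_mem (Dfn.mem (DfnF.proj 0) (DfnF.const hXV)) hqV
    have h2 : ZFSet.sep (fun z => z ∈ X) q ∈ X :=
      fX _ h1 (hf.subset fun z hz => (ZFSet.mem_sep.1 hz).1) fun z hz => (ZFSet.mem_sep.1 hz).2
    obtain ⟨x, hx, h3, h4⟩ := c4 q hq _ h2 ⟨u, hV.trans _ hqV _ hu, hu, fun h =>
      hux (ZFSet.mem_sep.1 h).2⟩
    exact h4 (ZFSet.mem_sep.2 ⟨h3, hx⟩)
  set a : ZFSet.{0} := ZFSet.sep (fun z => z ∈ X) I with ha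
  have haV : a ∈ V := hV.sep_mem (Dfn.mem (DfnF.proj 0) (DfnF.const hXV)) hI
  refine ⟨a, mem_Cs.2 ⟨⟨haV, fun z hz => (ZFSet.mem_sep.1 hz).1⟩, ?_⟩, ?_⟩
  · exact Inj.trans hV haV hω (Inj.of_subset hV haV hXV fun z hz => (ZFSet.mem_sep.1 hz).2) hXi
  · intro z hz p hp hpa
    obtain ⟨hpV, hpB, hpf, hpF⟩ := mem_PI'.1 hp
    have hpX : p ∈ X := by
      refine fX p hpV hpF fun u hu => ?_
      have h1 := hpa u hu
      obtain ⟨b, hb, i, hi, rfl⟩ := ZFSet.mem_prod.1 (hpB hu)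
      obtain ⟨β, -, n, hn, rfl⟩ := ZFSet.mem_prod.1 hb
      rw [fs_pair, fs_pair] at h1
      obtain ⟨n, rfl⟩ := mem_omega_iff.1 hn
      refine c2 _ (c2 _ (ZFSet.mem_sep.1 h1).2 _ (hHX (mem_HFs.2 (isHF_nat n)))) _ ?_
      exact hHX (mem_HFs.2 ((isHF_nat 2).mem hi))
    obtain ⟨q0, hq0, hq1, hq2⟩ := exists_dcd hL hI τ z hp
    obtain ⟨q, hqX, hq, hqp, hqd⟩ := c5 p hpX z (hHX (mem_HFs.2 hz))
      ⟨q0, hV.trans _ hP _ hq0, hq0, hq1, hq2⟩
    obtain ⟨hqV, hqB, hqf, hqF⟩ := mem_PI'.1 hq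
    refine ⟨q, hq, fun u hu => ?_, hqp, hqd⟩
    have h1 := fX' q hqX hqF hu
    refine ZFSet.mem_sep.2 ⟨?_, c3 _ (c3 _ h1)⟩
    obtain ⟨b, hb, i, hi, rfl⟩ := ZFSet.mem_prod.1 (hqB hu)
    obtain ⟨β, hβ, n, hn, rfl⟩ := ZFSet.mem_prod.1 hb
    rw [fs_pair, fs_pair]
    exact hβ

variable {G : ZFSet.{0}} (hG : IsGeneric V (PI V I) (Lf (PI V I)) G)

include hG

omit hI in
theorem empty_mem_G (hI : I ∈ V) : (∅ : ZFSet.{0}) ∈ G := by
  obtain ⟨p, hp⟩ := hG.nonempty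
  exact hG.up p hp ∅ (empty_PI hL hI) (mem_Lf.2 ⟨hG.sub hp, empty_PI hL hI,
    ZFSet.empty_subset _⟩)

/-- The elements of the filter with a countable support decide. -/
theorem exists_dcd_G {τ a : ZFSet.{0}} (hτ : τ ∈ V) (ha : a ∈ V)
    (h : ∀ z, IsHF z → ∀ p ∈ PI V I, Sup a p →
      ∃ q ∈ PI V I, Sup a q ∧ pair q p ∈ Lf (PI V I) ∧ Dcd V I τ z q) {z : ZFSet.{0}}
    (hz : IsHF z) : ∃ q ∈ G, Sup a q ∧ Dcd V I τ z q := by
  have hV := hL.zf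
  have hB := hV.base
  have hP := PI_mem hV hI
  have hLe := (forcing_PI hV hI).le_mem
  have hzV := hf_memK hV hz
  have hd : Dfn V V fun w : Fin 1 → ZFSet.{0} => ∃ q ∈ PI V I, (∀ u ∈ q, fs (fs u) ∈ a) ∧
      Dcd V I τ z q ∧ pair (w 0) q ∈ Lf (PI V I) := by
    refine hB.bex (DfnF.const hP) (Dfn.and ?_ (Dfn.and ?_ ?_))
    · refine hB.ball (DfnF.proj 0) ?_
      exact Dfn.mem (hV.fs' (hV.fs' (DfnF.proj 0))) (DfnF.const ha)
    · exact Dfn.comp2 (Q := fun z q => Dcd V I τ z q) (dfn_Dcd hL hI hτ) (DfnF.const hzV)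
        (DfnF.proj 0)
    · exact Dfn.mem (hB.pair' (DfnF.proj 1) (DfnF.proj 0)) (DfnF.const hLe)
  obtain ⟨q', hq', hqG⟩ := hG.meet _ (hV.sep_mem (Q := fun w => ∃ q ∈ PI V I,
    (∀ u ∈ q, fs (fs u) ∈ a) ∧ Dcd V I τ z q ∧ pair w q ∈ Lf (PI V I)) hd hP)
    (fun z hz => (ZFSet.mem_sep.1 hz).1) (by
      intro p hp
      obtain ⟨hpV, hpB, hpf, hpF⟩ := mem_PI'.1 hp
      set p' : ZFSet.{0} := ZFSet.sep (fun u => fs (fs u) ∈ a) p with hp'
      have hp'V : p' ∈ V := hV.sep_mem (Q := fun u => fs (fs u) ∈ a)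
        (Dfn.mem (hV.fs' (hV.fs' (DfnF.proj 0))) (DfnF.const ha)) hpV
      have hsub : p' ⊆ p := fun u hu => (ZFSet.mem_sep.1 hu).1
      have hp'P : p' ∈ PI V I := mem_PI'.2 ⟨hp'V, fun u hu => hpB (hsub hu),
        fun x y z hy hz => hpf x y z (hsub hy) (hsub hz), hpF.subset hsub⟩
      obtain ⟨q, hq, hqa, hqp, hqd⟩ := h z hz p' hp'P fun u hu => (ZFSet.mem_sep.1 hu).2
      obtain ⟨hqV, hqB, hqf, hqF⟩ := mem_PI'.1 hq
      have hqp' := (mem_Lf.1 hqp).2.2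
      have key : ∀ x y y', pair x y ∈ q → pair x y' ∈ p → y = y' := by
        intro x y y' h1 h2
        refine hqf x y y' h1 (hqp' (ZFSet.mem_sep.2 ⟨h2, ?_⟩))
        have h3 := hqa _ h1
        rw [fs_pair] at h3 ⊢
        exact h3
      have hr : q ∪ p ∈ PI V I := by
        refine mem_PI'.2 ⟨hV.union_mem hqV hpV, ?_, ?_, hqF.union hpF⟩
        · intro u hu
          rcases ZFSet.mem_union.1 hu with hu | hu
          · exact hqB hu
          · exact hpB hu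
        · intro x y y' h1 h2
          rcases ZFSet.mem_union.1 h1 with h1 | h1
          · rcases ZFSet.mem_union.1 h2 with h2 | h2
            · exact hqf x y y' h1 h2
            · exact key x y y' h1 h2
          · rcases ZFSet.mem_union.1 h2 with h2 | h2
            · exact (key x y' y h2 h1).symm
            · exact hpf x y y' h1 h2
      refine ⟨q ∪ p, ZFSet.mem_sep.2 ⟨hr, q, hq, hqa, hqd, mem_Lf.2 ⟨hr, hq, fun u hu =>
        ZFSet.mem_union.2 (Or.inl hu)⟩⟩, mem_Lf.2 ⟨hr, hp, fun u hu =>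
        ZFSet.mem_union.2 (Or.inr hu)⟩⟩)
  obtain ⟨-, q, hq, hqa, hqd, hle⟩ := ZFSet.mem_sep.1 hq'
  exact ⟨q, hG.up _ hqG q hq hle, hqa, hqd⟩

/-- The sets of hereditarily finite sets of the extension are in the symmetric submodel. -/
theorem real_mem_Nm {x : ZFSet.{0}} (hx : x ∈ ext V G) (hH : ∀ z ∈ x, IsHF z) :
    x ∈ Nm V (PI V I) aD (FlI V I) G := by
  have hV := hL.zf
  have hB := hV.base
  have hP := PI_mem hV hI
  have hF := forcing_PI hV hI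
  have hLe := hF.le_mem
  have h0 := hV.empty_mem
  have h0G := empty_mem_G hL hG hI
  have h0P := empty_PI hL hI
  have hS := symI hL hI
  have hHF := HFs_memZ hV
  obtain ⟨τ, hτ, rfl⟩ := hx
  obtain ⟨a, ha, h⟩ := exists_supp hL hI hτ
  have haV := (mem_Cs.1 ha).1.1
  have hdec : ∀ z, IsHF z → ∃ q ∈ G, Sup a q ∧ Dcd V I τ z q := fun z hz =>
    exists_dcd_G hL hI hG hτ haV h hz
  set σ : ZFSet.{0} := im (fun u => pair (chk ∅ (fs u)) (sn u))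
    (ZFSet.sep (fun u => (∀ v ∈ sn u, fs (fs v) ∈ a) ∧
      Qmem (PI V I) (Lf (PI V I)) (chk ∅ (fs u)) τ (sn u)) (ZFSet.prod HFs (PI V I))) with hσ
  have hmσ : ∀ u, u ∈ σ ↔ ∃ z q, IsHF z ∧ q ∈ PI V I ∧ Sup a q ∧
      Qmem (PI V I) (Lf (PI V I)) (chk ∅ z) τ q ∧ u = pair (chk ∅ z) q := by
    intro u
    rw [hσ, mem_im]
    constructor
    · rintro ⟨v, hv, rfl⟩
      obtain ⟨h1, h2, h3⟩ := ZFSet.mem_sep.1 hv
      obtain ⟨z, hz, q, hq, rfl⟩ := ZFSet.mem_prod.1 h1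
      rw [fs_pair, sn_pair] at h3
      rw [sn_pair] at h2
      exact ⟨z, q, mem_HFs.1 hz, hq, h2, h3, by rw [fs_pair, sn_pair]⟩
    · rintro ⟨z, q, hz, hq, h1, h2, rfl⟩
      refine ⟨pair z q, ZFSet.mem_sep.2 ⟨ZFSet.pair_mem_prod.2 ⟨mem_HFs.2 hz, hq⟩, ?_, ?_⟩, ?_⟩
      · rw [sn_pair]
        exact h1
      · rw [fs_pair, sn_pair]
        exact h2
      · rw [fs_pair, sn_pair]
  have hchk : DfnF V V fun w : Fin 1 → ZFSet.{0} => chk ∅ (fs (w 0)) :=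
    DfnF.comp1 (f := chk ∅) (dfn_chk hV h0) (hV.fs' (DfnF.proj 0))
  have hσV : σ ∈ V := by
    refine hV.im_mem (hV.sep_mem (Dfn.and ?_ ?_) (hV.prod_mem hHF hP))
      (hB.pair' hchk (hV.sn' (DfnF.proj 0)))
    · refine hB.ball (Q := fun v _ => fs (fs v) ∈ a) (hV.sn' (DfnF.proj 0)) ?_
      exact Dfn.mem (hV.fs' (hV.fs' (DfnF.proj 0))) (DfnF.const haV)
    · exact dfn_qmem hV hP hLe hchk (DfnF.const hτ) (hV.sn' (DfnF.proj 0))
  have hc : ∀ z, IsHF z → chk ∅ z ∈ Sn V (PI V I) aD (FlI V I) ∧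
      ∀ g ∈ GrI V I, act (PI V I) aD g (chk ∅ z) = chk ∅ z := fun z hz =>
    chk_sn hV hF hS h0P (fun g _ => aD_empty g) (hf_memK hV hz)
  have hσS : σ ∈ Sn V (PI V I) aD (FlI V I) := by
    refine mk_sn hS hσV ?_ ⟨_, mem_FlI.2 ⟨a, ha, rfl⟩, ?_⟩
    · intro u hu
      obtain ⟨z, q, hz, hq, -, -, rfl⟩ := (hmσ u).1 hu
      exact ⟨_, _, rfl, hq, (hc z hz).1.2⟩
    · intro D hD y c hyc hcP
      obtain ⟨hD1, hD2⟩ := mem_Ha.1 hD
      obtain ⟨z, q, hz, hq, h1, h2, h3⟩ := (hmσ _).1 hyc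
      obtain ⟨rfl, rfl⟩ := ZFSet.pair_inj.1 h3
      rw [(hc z hz).2 D hD1, aD_fix fun u hu hfu => hD2 _ hfu (h1 u hu)]
      exact hyc
  refine ⟨σ, hσS, ?_⟩
  ext w
  rw [mem_ev]
  constructor
  · rintro ⟨y, p, h1, h2, rfl⟩
    obtain ⟨z, q, hz, hq, h3, h4, h5⟩ := (hmσ _).1 h1
    obtain ⟨rfl, rfl⟩ := ZFSet.pair_inj.1 h5
    exact (ev_mem_iff hV hF hG (hc z hz).1.1 hτ).2 ⟨p, h2, h4⟩
  · intro hw
    have hwH := hH w hw
    obtain ⟨q, hq, hqa, hqd⟩ := hdec w hwH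
    have hwe := ev_chk h0G w
    rw [← hwe] at hw
    obtain ⟨p, hp, hpq⟩ := (ev_mem_iff hV hF hG (hc w hwH).1.1 hτ).1 hw
    rcases hqd with hqd | hqd
    · exact ⟨chk ∅ w, q, (hmσ _).2 ⟨w, q, hwH, hG.sub hq, hqa, hqd, rfl⟩, hq, hwe⟩
    · obtain ⟨r, hr, hrp, hrq⟩ := hG.dir p hp q hq
      exact absurd (Qmem.mono hF (hG.sub hp) hpq (hG.sub hr) hrp) (hqd r (hG.sub hr) hrq)

/-- The inner model `L(ℝ)` of the extension is contained in the symmetric submodel. -/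
theorem LRm_sub_Nm : LRm (ext V G) ⊆ Nm V (PI V I) aD (FlI V I) G := by
  have hV := hL.zf
  have hF := forcing_PI hV hI
  have hS := symI hL hI
  have hW := zf_ext hL hF hG
  refine (isLR_LRm hW).least _ (isZF_nm hV hF hS hG) nm_sub ?_ ?_
  · intro x hx hxo
    exact sub_nm hV hF hS hG (ord_of_ext hV hx hxo)
  · intro x hx
    exact real_mem_Nm hL hI hG hx fun z hz => isHF_of_code hz

end

end Pool.Agent.Helper71.LR
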