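import Pool.Agent.Helper71.LR.Defs
import Pool.Agent.Helper71.LR.LZFb
import Pool.Agent.H158_MS.Egm
import Pool.Agent.Y588.Pf

/-!
# The inner model `L(ℝ)` of a transitive model of ZF exists
-/

set_option autoImplicit false
set_option linter.unreachableTactic false
set_option linter.unusedTactic false
set_option linter.unusedSectionVars false

namespace Pool.Agent.Helper71.LR

open Pool.Agent.W868 Pool.Agent.Y588 Pool.Agent.H158_PC
open ZFSet (pair)

theorem HFs_memZ {M : Set ZFSet.{0}} (hM : IsZF M) : HFs ∈ M :=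
  HFs_mem hM (Pool.Agent.H158_MS.eg_mem hM)

open Classical in
/-- The characteristic function of a set of hereditarily finite sets. -/
noncomputable def chf (X : ZFSet.{0}) (n : ℕ) : ℕ := if hf n ∈ X then 1 else 0

theorem chf_eq_one {X : ZFSet.{0}} {n : ℕ} : chf X n = 1 ↔ hf n ∈ X := by
  unfold chf
  split_ifs with h <;> simp [h]

theorem chf_mem {M : Set ZFSet.{0}} (hM : IsZF M) {X : ZFSet.{0}} (hX : X ∈ M) :
    chf X ∈ Rls M := by
  have hB := hM.base
  have he := Pool.Agent.H158_MS.eg_mem hM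
  have h0 := hM.nat_mem 0
  have h1 := hM.nat_mem 1
  refine mkR hM (Q := fun a b => (b = nat 1 ∧ ∃ z ∈ X, pair a z ∈ eg) ∨
    (b = nat 0 ∧ ¬ ∃ z ∈ X, pair a z ∈ eg)) _ ?_ ?_
  · repeat' first
      | exact DfnF.proj _
      | exact DfnF.const (by assumption)
      | apply hB.bex | apply hB.ball | apply Dfn.and | apply Dfn.or | apply Dfn.not
      | apply hB.pair' | apply Dfn.mem | apply Dfn.eq
  · intro n l
    have key : (∃ z ∈ X, pair (nat n) z ∈ eg) ↔ hf n ∈ X := by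
      constructor
      · rintro ⟨z, hz, h⟩
        obtain ⟨m, h2⟩ := mem_eg.1 h
        obtain ⟨h3, rfl⟩ := ZFSet.pair_inj.1 h2
        rwa [nat_injective h3]
      · exact fun h => ⟨_, h, mem_eg.2 ⟨n, rfl⟩⟩
    rw [key]
    by_cases h : hf n ∈ X
    · have h2 : chf X n = 1 := chf_eq_one.2 h
      rw [h2]
      constructor
      · rintro (⟨h3, -⟩ | ⟨-, h3⟩)
        · exact nat_injective h3
        · exact absurd h h3
      · rintro rfl
        exact Or.inl ⟨rfl, h⟩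
    · have h2 : chf X n = 0 := by simp [chf, h]
      rw [h2]
      constructor
      · rintro (⟨-, h3⟩ | ⟨h3, -⟩)
        · exact absurd h3 h
        · exact nat_injective h3
      · rintro rfl
        exact Or.inr ⟨rfl, h⟩

/-- A set of hereditarily finite sets is in the model if its characteristic function is. -/
theorem mem_of_chf {M : Set ZFSet.{0}} (hM : IsZF M) {X : ZFSet.{0}} (hX : ∀ z ∈ X, IsHF z)
    (h : chf X ∈ Rls M) : X ∈ M := by
  have hB := hM.base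
  have he := Pool.Agent.H158_MS.eg_mem hM
  have h1 := hM.nat_mem 1
  have hω := hM.infinity
  have hc : code (chf X) ∈ M := h
  have h2 : X = ZFSet.sep (fun z => ∃ n ∈ (ZFSet.omega : ZFSet.{0}), pair n z ∈ eg ∧
      pair n (nat 1) ∈ code (chf X)) HFs := by
    ext z
    rw [ZFSet.mem_sep, mem_HFs]
    constructor
    · intro hz
      obtain ⟨n, rfl⟩ := hX z hz
      exact ⟨⟨n, rfl⟩, nat n, nat_mem_om n, mem_eg.2 ⟨n, rfl⟩, pair_mem_code.2 (chf_eq_one.2 hz)⟩
    · rintro ⟨-, n, hn, h3, h4⟩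
      obtain ⟨n, rfl⟩ := mem_omega_iff.1 hn
      obtain ⟨m, h5⟩ := mem_eg.1 h3
      obtain ⟨h6, rfl⟩ := ZFSet.pair_inj.1 h5
      rw [pair_mem_code, chf_eq_one] at h4
      rwa [← nat_injective h6]
  rw [h2]
  refine hM.sep_mem ?_ (HFs_memZ hM)
  repeat' first
    | exact DfnF.proj _
    | exact DfnF.const (by assumption)
    | apply hB.bex | apply hB.ball | apply Dfn.and | apply Dfn.or | apply Dfn.not
    | apply hB.pair' | apply Dfn.mem | apply Dfn.eq

/-- The set of the subsets of `V_ω` of the model. -/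
noncomputable def B0 (M : Set ZFSet.{0}) : ZFSet.{0} := pwM M HFs

theorem mem_B0 {M : Set ZFSet.{0}} {z : ZFSet.{0}} : z ∈ B0 M ↔ z ∈ M ∧ z ⊆ HFs := mem_pwM

theorem B0_mem {M : Set ZFSet.{0}} (hM : IsZF M) : B0 M ∈ M := pwM_mem hM (HFs_memZ hM)

theorem hf_sub_HFs {x : ZFSet.{0}} (h : IsHF x) : x ⊆ HFs := fun _ hy => mem_HFs.2 (h.mem hy)

theorem B0_trans {M : Set ZFSet.{0}} (hM : IsZF M) : ∀ x ∈ B0 M, ∀ y ∈ x, y ∈ B0 M := by
  intro x hx y hy
  obtain ⟨h1, h2⟩ := mem_B0.1 hx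
  exact mem_B0.2 ⟨hM.trans _ h1 _ hy, hf_sub_HFs (mem_HFs.1 (h2 hy))⟩

theorem code_mem_B0 {M : Set ZFSet.{0}} {x : ℕ → ℕ} : code x ∈ B0 M ↔ x ∈ Rls M := by
  rw [mem_B0]
  exact ⟨fun h => h.1, fun h => ⟨h, fun z hz => mem_HFs.2 (isHF_of_code hz)⟩⟩

/-- Sets of hereditarily finite sets are in a model that has all the reals. -/
theorem HF_sub_mem {M N : Set ZFSet.{0}} (hM : IsZF M) (hN : IsZF N) (h : Rls M ⊆ Rls N)
    {X : ZFSet.{0}} (hX : X ∈ M) (hH : ∀ z ∈ X, IsHF z) : X ∈ N :=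
  mem_of_chf hN hH (h (chf_mem hM hX))

theorem B0_mem_of {M N : Set ZFSet.{0}} (hM : IsZF M) (hN : IsZF N) (hNM : N ⊆ M)
    (h : Rls M ⊆ Rls N) : B0 M ∈ N := by
  have h1 : B0 M = B0 N := by
    ext z
    rw [mem_B0, mem_B0]
    constructor
    · rintro ⟨h2, h3⟩
      exact ⟨HF_sub_mem hM hN h h2 fun u hu => mem_HFs.1 (h3 hu), h3⟩
    · rintro ⟨h2, h3⟩
      exact ⟨hNM h2, h3⟩
  rw [h1]
  exact B0_mem hN

/-- The inner model `L(ℝ)` of `M`. -/
def LRm (M : Set ZFSet.{0}) : Set ZFSet.{0} := LB M (B0 M)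

theorem zf_LRm {M : Set ZFSet.{0}} (hM : IsZF M) : IsZF (LRm M) :=
  isZF_LB hM (B0_mem hM) (B0_trans hM)

theorem LRm_sub {M : Set ZFSet.{0}} (hM : IsZF M) : LRm M ⊆ M := LB_subset hM (B0_mem hM)

theorem Rls_LRm {M : Set ZFSet.{0}} (hM : IsZF M) : Rls (LRm M) = Rls M := by
  ext x
  constructor
  · exact fun h => LRm_sub hM h
  · intro h
    exact (zf_LRm hM).trans _ (base_mem_LB hM) _ (code_mem_B0.2 h)

theorem isLR_LRm {M : Set ZFSet.{0}} (hM : IsZF M) : IsLR M (LRm M) where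
  zf := zf_LRm hM
  sub := LRm_sub hM
  ord := fun x hx hxo => ord_LB hM (B0_mem hM) (B0_trans hM) hx hxo
  rls := by rw [Rls_LRm hM]
  least := fun N' hN' hsub ho hr => LB_least hM hN' (B0_mem_of hM hN' hsub hr) ho

/-- Sets of hereditarily finite sets of `M` are in `L(ℝ)`. -/
theorem HF_mem_LRm {M : Set ZFSet.{0}} (hM : IsZF M) {X : ZFSet.{0}} (hX : X ∈ M)
    (hH : ∀ z ∈ X, IsHF z) : X ∈ LRm M :=
  HF_sub_mem hM (zf_LRm hM) (by rw [Rls_LRm hM]) hX hH

end Pool.Agent.Helper71.LR
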